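import Pool.Agent.Lib.MP_b8b21d_al.DefsL

/-!
Free groups have unique products.
-/

namespace PrimRank

open Finset in
private theorem A1_aux : ∀ (n : ℕ) (G : Type) [Group G] [IsFreeGroup G] (A B : Finset G),
    A.Nonempty → B.Nonempty → A.card + B.card ≤ n → ∃ a ∈ A, ∃ b ∈ B, UniqueMul A B a b := by
  classical
  intro n
  induction n with
  | zero =>
    intro G _ _ A B hA hB h
    have := hA.card_pos
    omega
  | succ n ih =>
    intro G _ _ A B hA hB h
    obtain ⟨a1, ha1⟩ := hA
    obtain ⟨b1, hb1⟩ := hB
    by_cases hcard : A.card ≤ 1 ∧ B.card ≤ 1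
    · exact ⟨a1, ha1, b1, hb1, by
        intro a b ha hb _
        exact ⟨Finset.card_le_one.1 hcard.1 a ha a1 ha1, Finset.card_le_one.1 hcard.2 b hb b1 hb1⟩⟩
    -- translated sets
    set S : Set G := (fun a => a1⁻¹ * a) '' (A : Set G) ∪ (fun b => b * b1⁻¹) '' (B : Set G) with hS
    set H : Subgroup G := Subgroup.closure S with hH
    let A' : Finset H := (A.image (fun a => a1⁻¹ * a)).preimage (fun x : H => (x : G))
      Subtype.val_injective.injOn
    let B' : Finset H := (B.image (fun b => b * b1⁻¹)).preimage (fun x : H => (x : G))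
      Subtype.val_injective.injOn
    have hAH : ∀ a ∈ A, a1⁻¹ * a ∈ H := fun a ha =>
      Subgroup.subset_closure (Or.inl ⟨a, ha, rfl⟩)
    have hBH : ∀ b ∈ B, b * b1⁻¹ ∈ H := fun b hb =>
      Subgroup.subset_closure (Or.inr ⟨b, hb, rfl⟩)
    have memA' : ∀ (a : G) (ha : a ∈ A), (⟨a1⁻¹ * a, hAH a ha⟩ : H) ∈ A' := by
      intro a ha
      simp only [A', mem_preimage, mem_image]
      exact ⟨a, ha, rfl⟩
    have memB' : ∀ (b : G) (hb : b ∈ B), (⟨b * b1⁻¹, hBH b hb⟩ : H) ∈ B' := by
      intro b hb
      simp only [B', mem_preimage, mem_image]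
      exact ⟨b, hb, rfl⟩
    have oneA' : (1 : H) ∈ A' := by
      have := memA' a1 ha1
      convert this using 1
      ext; simp
    have oneB' : (1 : H) ∈ B' := by
      have := memB' b1 hb1
      convert this using 1
      ext; simp
    have cardA' : A'.card ≤ A.card := by
      have h1 : A'.card = (A'.image (fun x : H => (x : G))).card :=
        (Finset.card_image_of_injective _ Subtype.val_injective).symm
      rw [h1]
      refine (Finset.card_le_card (t := A.image (fun a => a1⁻¹ * a)) ?_).trans Finset.card_image_le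
      intro x hx
      simp only [mem_image] at hx
      obtain ⟨y, hy, rfl⟩ := hx
      simpa only [A', mem_preimage] using hy
    have cardB' : B'.card ≤ B.card := by
      have h1 : B'.card = (B'.image (fun x : H => (x : G))).card :=
        (Finset.card_image_of_injective _ Subtype.val_injective).symm
      rw [h1]
      refine (Finset.card_le_card (t := B.image (fun b => b * b1⁻¹)) ?_).trans Finset.card_image_le
      intro x hx
      simp only [mem_image] at hx
      obtain ⟨y, hy, rfl⟩ := hx
      simpa only [B', mem_preimage] using hy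
    -- a nontrivial homomorphism
    let f : H →* Multiplicative ℤ := IsFreeGroup.lift fun _ => Multiplicative.ofAdd (1 : ℤ)
    have hf : ∃ x ∈ S, ∃ hx : x ∈ H, f ⟨x, hx⟩ ≠ 1 := by
      by_contra hcon
      push_neg at hcon
      have hker : ∀ (x : G) (hx : x ∈ Subgroup.closure S), f ⟨x, hx⟩ = 1 := by
        intro x hx
        induction hx using Subgroup.closure_induction with
        | mem x hx => exact hcon x hx _
        | one => exact map_one f
        | mul x y hx hy h1 h2 =>
          have : (⟨x * y, Subgroup.mul_mem _ hx hy⟩ : H) = ⟨x, hx⟩ * ⟨y, hy⟩ := rfl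
          rw [this, map_mul, h1, h2, one_mul]
        | inv x hx h1 =>
          have : (⟨x⁻¹, Subgroup.inv_mem _ hx⟩ : H) = (⟨x, hx⟩ : H)⁻¹ := rfl
          rw [this, map_inv, h1, inv_one]
      -- no generators
      have hgen : IsEmpty (IsFreeGroup.Generators H) := by
        refine ⟨fun g => ?_⟩
        have h1 := hker (IsFreeGroup.of g : H) (IsFreeGroup.of g : H).2
        have h2 : f (IsFreeGroup.of g) = Multiplicative.ofAdd (1 : ℤ) := IsFreeGroup.lift_of _ _
        have h3 : f (IsFreeGroup.of g) = 1 := h1
        rw [h2] at h3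
        exact absurd (Multiplicative.ofAdd.injective h3) one_ne_zero
      have hsub : Subsingleton H := by
        have e := IsFreeGroup.toFreeGroup H
        have : Subsingleton (FreeGroup (IsFreeGroup.Generators H)) := inferInstance
        exact e.toEquiv.subsingleton
      apply hcard
      constructor
      · rw [Finset.card_le_one]
        intro a ha a' ha'
        have h1 : (⟨a1⁻¹ * a, hAH a ha⟩ : H) = ⟨a1⁻¹ * a', hAH a' ha'⟩ := Subsingleton.elim _ _
        exact mul_left_cancel (Subtype.ext_iff.1 h1)
      · rw [Finset.card_le_one]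
        intro a ha a' ha'
        have h1 : (⟨a * b1⁻¹, hBH a ha⟩ : H) = ⟨a' * b1⁻¹, hBH a' ha'⟩ := Subsingleton.elim _ _
        exact mul_right_cancel (Subtype.ext_iff.1 h1)
    have hU : UniqueProds (Multiplicative ℤ) := inferInstance
    obtain ⟨aH, haH, bH, hbH, huH⟩ := hU.uniqueMul_of_nonempty
      (A := A'.image f) (B := B'.image f) (Finset.Nonempty.image ⟨1, oneA'⟩ f)
      (Finset.Nonempty.image ⟨1, oneB'⟩ f)
    obtain ⟨a0, ha0, rfl⟩ := mem_image.1 haH
    obtain ⟨b0, hb0, rfl⟩ := mem_image.1 hbH
    have hlt : ({a ∈ A' | f a = f a0}).card + ({b ∈ B' | f b = f b0}).card ≤ n := by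
      have h1 : ({a ∈ A' | f a = f a0}).card ≤ A'.card := Finset.card_filter_le _ _
      have h2 : ({b ∈ B' | f b = f b0}).card ≤ B'.card := Finset.card_filter_le _ _
      have h3 : ({a ∈ A' | f a = f a0}).card < A'.card ∨ ({b ∈ B' | f b = f b0}).card < B'.card := by
        obtain ⟨x, hxS, hxH, hx⟩ := hf
        rcases hxS with ⟨a, ha, rfl⟩ | ⟨b, hb, rfl⟩
        · left
          by_contra hle
          rw [not_lt] at hle
          have heq := Finset.eq_of_subset_of_card_le (Finset.filter_subset _ _) hle
          have e0 := Finset.filter_eq_self.1 heq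
          have e1 : f 1 = f a0 := e0 _ oneA'
          have e2 := e0 _ (memA' a ha)
          rw [← e1, map_one] at e2
          exact hx e2
        · right
          by_contra hle
          rw [not_lt] at hle
          have heq := Finset.eq_of_subset_of_card_le (Finset.filter_subset _ _) hle
          have e0 := Finset.filter_eq_self.1 heq
          have e1 : f 1 = f b0 := e0 _ oneB'
          have e2 := e0 _ (memB' b hb)
          rw [← e1, map_one] at e2
          exact hx e2
      omega
    obtain ⟨a, ha, b, hb, hab⟩ := ih H {a ∈ A' | f a = f a0} {b ∈ B' | f b = f b0}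
      ⟨a0, mem_filter.2 ⟨ha0, rfl⟩⟩ ⟨b0, mem_filter.2 ⟨hb0, rfl⟩⟩ hlt
    have hfa := (mem_filter.1 ha).2
    have hfb := (mem_filter.1 hb).2
    have hU' : UniqueMul A' B' a b :=
      UniqueMul.of_image_filter (f : H →ₙ* Multiplicative ℤ) hfa hfb huH hab
    -- back to G
    have haA : (a : G) ∈ A.image (fun a => a1⁻¹ * a) := by
      simpa only [A', mem_preimage] using (mem_filter.1 ha).1
    have hbB : (b : G) ∈ B.image (fun b => b * b1⁻¹) := by
      simpa only [B', mem_preimage] using (mem_filter.1 hb).1
    obtain ⟨α, hα, hα'⟩ := mem_image.1 haA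
    obtain ⟨β, hβ, hβ'⟩ := mem_image.1 hbB
    refine ⟨α, hα, β, hβ, ?_⟩
    intro x y hx hy hxy
    have h1 := hU' (memA' x hx) (memB' y hy) (by
      ext
      simp only [Subgroup.coe_mul]
      rw [← hα', ← hβ']
      calc a1⁻¹ * x * (y * b1⁻¹) = a1⁻¹ * (x * y) * b1⁻¹ := by group
        _ = a1⁻¹ * (α * β) * b1⁻¹ := by rw [hxy]
        _ = a1⁻¹ * α * (β * b1⁻¹) := by group)
    constructor
    · have h2 : a1⁻¹ * x = a1⁻¹ * α := (congrArg Subtype.val h1.1).trans hα'.symm
      exact mul_left_cancel h2
    · have h2 : y * b1⁻¹ = β * b1⁻¹ := (congrArg Subtype.val h1.2).trans hβ'.symm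
      exact mul_right_cancel h2

/-- Free groups have unique products (locally indicable groups do). -/
theorem uniqueProds_freeGroup (α : Type) : UniqueProds (FreeGroup α) :=
  ⟨fun {A B} hA hB => A1_aux (A.card + B.card) (FreeGroup α) A B hA hB le_rfl⟩

end PrimRank
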