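import Pool.Agent.Lib.MP_b8b21d_al.DefsL

/-!
PROOF. `UniqueProds.toTwoUniqueProds_of_group` gives `TwoUniqueProds G`. Let `u v = 1`. Let `A`, `B` be
the supports of `u`, `v` (nonempty as `u v = 1 ≠ 0`). If `1 < A.card * B.card` there are two different
pairs `(a, b)`, `(a', b')` with unique products (`TwoUniqueProds.uniqueMul_of_one_lt_card`); then the
coefficients of `u v` at `a b` and at `a' b'` are nonzero, and `a b ≠ a' b'` (by uniqueness), but
`u v = 1` has only one nonzero coefficient. So `A.card = 1` and `u = single g c`. Mathlib has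
`MonoidAlgebra` lemmas for the coefficient of a product at a unique product
(`UniqueMul` in Mathlib/Algebra/MonoidAlgebra/NoZeroDivisors.lean).
-/

namespace PrimRank

/-- Trivial units in group algebras of unique product groups. -/
theorem isUnit_exists_single {K : Type*} [Field K] {G : Type} [Group G] [UniqueProds G]
    {u : MonoidAlgebra K G} (hu : IsUnit u) :
    ∃ (c : K) (g : G), c ≠ 0 ∧ u = MonoidAlgebra.single g c := by
  classical
  have hT : TwoUniqueProds G := UniqueProds.toTwoUniqueProds_of_group
  obtain ⟨v, huv⟩ := hu.exists_right_inv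
  have hcoef : ∀ x : G, (u * v).coeff x ≠ 0 → x = 1 := by
    intro x hx
    by_contra hne
    apply hx
    rw [huv, MonoidAlgebra.one_def, MonoidAlgebra.coeff_single]
    exact Finsupp.single_eq_of_ne hne
  have h1 : (1 : MonoidAlgebra K G) ≠ 0 := by
    intro h
    have := congrArg (fun f : MonoidAlgebra K G => f.coeff 1) h
    simp [MonoidAlgebra.coeff_one_one] at this
  have hu0 : u.coeff ≠ 0 := by
    intro h
    apply h1
    have : u = 0 := MonoidAlgebra.coeff_eq_zero.1 h
    rw [← huv, this, zero_mul]
  have hv0 : v.coeff ≠ 0 := by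
    intro h
    apply h1
    have : v = 0 := MonoidAlgebra.coeff_eq_zero.1 h
    rw [← huv, this, mul_zero]
  have hA : 0 < u.coeff.support.card := Finset.card_pos.2 (Finsupp.support_nonempty_iff.2 hu0)
  have hB : 0 < v.coeff.support.card := Finset.card_pos.2 (Finsupp.support_nonempty_iff.2 hv0)
  have hcard : u.coeff.support.card = 1 := by
    by_contra hne
    have hlt : 1 < u.coeff.support.card * v.coeff.support.card := by
      have : 2 ≤ u.coeff.support.card := by omega
      nlinarith
    obtain ⟨p, hp, q, hq, hpq, hup, huq⟩ := hT.uniqueMul_of_one_lt_card hlt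
    rw [Finset.mem_product] at hp hq
    have hcp : (u * v).coeff (p.1 * p.2) ≠ 0 := by
      rw [MonoidAlgebra.coeff_mul_mul_of_uniqueMul hup]
      exact mul_ne_zero (Finsupp.mem_support_iff.1 hp.1) (Finsupp.mem_support_iff.1 hp.2)
    have hcq : (u * v).coeff (q.1 * q.2) ≠ 0 := by
      rw [MonoidAlgebra.coeff_mul_mul_of_uniqueMul huq]
      exact mul_ne_zero (Finsupp.mem_support_iff.1 hq.1) (Finsupp.mem_support_iff.1 hq.2)
    have e : p.1 * p.2 = q.1 * q.2 := by rw [hcoef _ hcp, hcoef _ hcq]
    have h2 := huq hp.1 hp.2 e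
    exact hpq (Prod.ext h2.1 h2.2)
  obtain ⟨g, c, hc, hg⟩ := Finsupp.card_support_eq_one'.1 hcard
  refine ⟨c, g, hc, ?_⟩
  ext x
  rw [hg, MonoidAlgebra.coeff_single]

end PrimRank
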