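import Pool.Agent.Lib.MP_b8b21d_al.DefsL

/-!
PROOF. Let `C` be the centralizer of `u ^ n` (`Subgroup.centralizer`). It contains `u` and `g`, and
`u ^ n ≠ 1` (free groups are torsion free: Mathlib `FreeGroup` infinite order lemmas, or
`IsMulTorsionFree (FreeGroup α)`). `C` is a free group (`subgroupIsFreeOfIsFree`) with the central element
`u ^ n ≠ 1`; a free group on at least two generators `x ≠ y` has trivial centre (a central element
commutes with `x` and with `y`; compare reduced words), so `C` is generated by one element `z`, i.e.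
`C = zpowers z`. So `u = z ^ k`, hence `k.natAbs = 1` by `hu`, `z ∈ zpowers u`, and `g ∈ zpowers u`.
-/

namespace PrimRank

/-- A nontrivial element commuting with the generator `k` starts with a letter of index `k`. -/
theorem A3_head {ι : Type*} {w : FreeGroup ι} (hw : w ≠ 1) (k : ι)
    (h : Commute w (FreeGroup.of k)) : ∀ k' : ι, Commute w (FreeGroup.of k') → k = k' := by
  classical
  have key : ∀ (k : ι), Commute w (FreeGroup.of k) →
      ∀ (a : ι × Bool) (L : List (ι × Bool)), w.toWord = a :: L → a.1 = k := by
    intro k h a L hL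
    by_contra hne
    have hred : FreeGroup.IsReduced (a :: L) := by
      rw [← hL]
      exact FreeGroup.isReduced_toWord
    obtain ⟨b, hb⟩ : ∃ b, (a :: L).getLast? = some b :=
      ⟨(a :: L).getLast (by simp), List.getLast?_eq_some_getLast (by simp)⟩
    set c : ι × Bool := (k, b.2) with hc
    have hcomm : Commute w (FreeGroup.mk [c]) := by
      rcases hb2 : b.2 with _ | _
      · have e1 : FreeGroup.mk [c] = (FreeGroup.of k)⁻¹ := by
          rw [hc, hb2]
          rfl
        rw [e1]
        exact h.inv_right
      · have e1 : FreeGroup.mk [c] = FreeGroup.of k := by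
          rw [hc, hb2]
          rfl
        rw [e1]
        exact h
    have hwmk : w = FreeGroup.mk (a :: L) := by
      rw [← hL, FreeGroup.mk_toWord]
    have h1 : FreeGroup.IsReduced (c :: a :: L) := by
      refine List.isChain_cons.2 ⟨?_, hred⟩
      intro y hy
      simp only [List.head?_cons, Option.mem_def, Option.some.injEq] at hy
      subst hy
      intro h2
      exact absurd h2.symm hne
    have h2 : FreeGroup.IsReduced ((a :: L) ++ [c]) := by
      refine List.isChain_append.2 ⟨hred, by simp, ?_⟩
      intro x hx y hy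
      rw [hb] at hx
      simp only [Option.mem_def, Option.some.injEq, List.head?_cons] at hx hy
      subst hx
      subst hy
      intro _
      rfl
    have h3 : c :: a :: L = (a :: L) ++ [c] := by
      have e1 : FreeGroup.mk (c :: a :: L) = FreeGroup.mk ((a :: L) ++ [c]) := by
        have e2 := hcomm.eq
        rw [hwmk, FreeGroup.mul_mk, FreeGroup.mul_mk] at e2
        exact e2.symm
      have e3 := congrArg FreeGroup.toWord e1
      rwa [FreeGroup.toWord_mk, FreeGroup.toWord_mk, FreeGroup.IsReduced.reduce_eq h1,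
        FreeGroup.IsReduced.reduce_eq h2] at e3
    rw [List.cons_append, List.cons.injEq] at h3
    apply hne
    rw [← h3.1]
  intro k' h'
  rcases hL : w.toWord with _ | ⟨a, L⟩
  · exact absurd (FreeGroup.toWord_eq_nil_iff.1 hL) hw
  · rw [← key k h a L hL, ← key k' h' a L hL]

/-- A free group with a nontrivial central element is cyclic. -/
theorem A3_cyclic {G : Type*} [Group G] [IsFreeGroup G] (w : G) (hw : w ≠ 1)
    (hc : ∀ g : G, Commute w g) : ∃ z : G, ∀ g : G, ∃ k : ℤ, z ^ k = g := by
  classical
  let e := IsFreeGroup.toFreeGroup G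
  have hW : e w ≠ 1 := by
    intro h
    apply hw
    exact e.injective (by rw [h, map_one])
  have hcW : ∀ x, Commute (e w) x := by
    intro x
    obtain ⟨g, rfl⟩ := e.surjective x
    exact (hc g).map e
  have hsub : ∀ i j : IsFreeGroup.Generators G, i = j := fun i j =>
    A3_head hW i (hcW _) j (hcW _)
  have hne : Nonempty (IsFreeGroup.Generators G) := by
    by_contra hemp
    rw [not_nonempty_iff] at hemp
    exact hW (Subsingleton.elim _ _)
  obtain ⟨i₀⟩ := hne
  have : Unique (IsFreeGroup.Generators G) := ⟨⟨i₀⟩, fun j => hsub j i₀⟩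
  obtain ⟨Z, hZ⟩ := IsCyclic.exists_generator (α := FreeGroup (IsFreeGroup.Generators G))
  refine ⟨e.symm Z, fun g => ?_⟩
  obtain ⟨k, hk⟩ := hZ (e g)
  refine ⟨k, ?_⟩
  rw [← map_zpow]
  apply e.injective
  rw [MulEquiv.apply_symm_apply]
  exact hk

/-- In a free group, an element commuting with a nontrivial power of a non proper power `u`
is a power of `u`. -/
theorem mem_zpowers_of_commute {α : Type} {u g : FreeGroup α} (hu1 : u ≠ 1)
    (hu : ∀ (z : FreeGroup α) (k : ℤ), z ^ k = u → k.natAbs = 1) {n : ℕ} (hn : 0 < n)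
    (h : g * u ^ n = u ^ n * g) : g ∈ Subgroup.zpowers u := by
  classical
  have hw : u ^ n ≠ 1 := by
    intro h1
    apply hu1
    exact pow_left_injective hn.ne' (by simpa using h1)
  let C : Subgroup (FreeGroup α) := Subgroup.centralizer {u ^ n}
  have hmem : ∀ x : FreeGroup α, x ∈ C ↔ u ^ n * x = x * u ^ n := by
    intro x
    exact Subgroup.mem_centralizer_singleton_iff.trans ⟨fun h => h.symm, fun h => h.symm⟩
  have hwC : u ^ n ∈ C := (hmem _).2 rfl
  have huC : u ∈ C := (hmem _).2 ((Commute.refl u).pow_left n).eq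
  have hgC : g ∈ C := (hmem _).2 h.symm
  obtain ⟨z, hz⟩ := A3_cyclic (G := C) ⟨u ^ n, hwC⟩
    (fun h1 => hw (congrArg Subtype.val h1)) (fun x => by
      have h2 := (hmem x.1).1 x.2
      exact Subtype.ext h2)
  obtain ⟨k, hk⟩ := hz ⟨u, huC⟩
  obtain ⟨l, hl⟩ := hz ⟨g, hgC⟩
  have hk' : (z : FreeGroup α) ^ k = u := by
    have := congrArg Subtype.val hk
    simpa using this
  have hl' : (z : FreeGroup α) ^ l = g := by
    have := congrArg Subtype.val hl
    simpa using this
  have hk1 := hu _ _ hk'
  rcases Int.natAbs_eq k with h1 | h1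
  · rw [hk1] at h1
    rw [h1] at hk'
    refine ⟨l, ?_⟩
    simp only [Nat.cast_one, zpow_one] at hk'
    change u ^ l = g
    rw [← hk', hl']
  · rw [hk1] at h1
    rw [h1] at hk'
    simp only [Nat.cast_one, zpow_neg, zpow_one] at hk'
    refine ⟨-l, ?_⟩
    change u ^ (-l) = g
    rw [← hk', inv_zpow, zpow_neg, inv_inv, hl']

end PrimRank
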