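import Pool.Agent.Lib.MP_b8b21d_al.A1
import Pool.Agent.Lib.MP_b8b21d_al.A2
import Pool.Agent.Lib.MP_b8b21d_al.A3

/-!
`u - c` is irreducible in the group algebra of a free group, if `u` is not a proper power.

PROOF. Let `f g = U - c`, `U = of u`. Then `p = c + g f` is a unit (with inverse
`c⁻¹ (1 - g U⁻¹ f)`), hence `p = k v` with `v` in the group, and `f p = U f`, `p g = g U`. So the
support `S` of `f` is mapped to itself by `s ↦ u s v⁻¹`, the support `T` of `g` by `t ↦ v t u⁻¹`.
These are permutations of finite sets, so there is `N > 0` with `u ^ N s = s v ^ N` and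
`v ^ N t = t u ^ N` for all `s ∈ S`, `t ∈ T`. So `s t` commutes with `u ^ N`, and is a power of `u`.
If `s0 ∈ S`, also all `s s0⁻¹` are powers of `u`. Comparing the largest and the least exponents
one sees that `S` or `T` has only one element.
-/

namespace PrimRank

open MonoidAlgebra

private theorem A4_unit {K : Type*} [Field K] {G : Type} [Group G] {u : G} {c : K} (hc : c ≠ 0)
    {f g : MonoidAlgebra K G}
    (hfg : MonoidAlgebra.of K G u - c • (1 : MonoidAlgebra K G) = f * g) :
    IsUnit (c • (1 : MonoidAlgebra K G) + g * f) := by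
  set U : MonoidAlgebra K G := MonoidAlgebra.of K G u with hU
  set V : MonoidAlgebra K G := MonoidAlgebra.of K G u⁻¹ with hV
  have hUV : U * V = 1 := by rw [hU, hV, ← map_mul, mul_inv_cancel, map_one]
  have hVU : V * U = 1 := by rw [hU, hV, ← map_mul, inv_mul_cancel, map_one]
  have h1 : (c • (1 : MonoidAlgebra K G) + g * f) * (1 - g * V * f) = c • 1 := by
    have e1 : (c • (1 : MonoidAlgebra K G) + g * f) * (1 - g * V * f)
        = c • (1 : MonoidAlgebra K G) + g * f - c • (g * V * f) - g * (f * g) * V * f := by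
      simp only [add_mul, mul_sub, mul_one, smul_mul_assoc, one_mul, mul_assoc]
      abel
    have e2 : g * (f * g) * V * f = g * f - c • (g * V * f) := by
      rw [← hfg]
      calc g * (U - c • (1 : MonoidAlgebra K G)) * V * f
          = g * (U * V) * f - c • (g * V * f) := by
            simp only [mul_sub, sub_mul, mul_smul_comm, smul_mul_assoc, mul_one, mul_assoc]
        _ = _ := by rw [hUV, mul_one]
    rw [e1, e2]
    abel
  have h2 : (1 - g * V * f) * (c • (1 : MonoidAlgebra K G) + g * f) = c • 1 := by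
    have e1 : (1 - g * V * f) * (c • (1 : MonoidAlgebra K G) + g * f)
        = c • (1 : MonoidAlgebra K G) + g * f - c • (g * V * f) - g * V * (f * g) * f := by
      simp only [mul_add, sub_mul, one_mul, mul_smul_comm, mul_one, mul_assoc, smul_sub]
      abel
    have e2 : g * V * (f * g) * f = g * f - c • (g * V * f) := by
      rw [← hfg]
      calc g * V * (U - c • (1 : MonoidAlgebra K G)) * f
          = g * (V * U) * f - c • (g * V * f) := by
            simp only [mul_sub, sub_mul, mul_smul_comm, smul_mul_assoc, mul_one, mul_assoc]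
        _ = _ := by rw [hVU, mul_one]
    rw [e1, e2]
    abel
  refine ⟨⟨_, c⁻¹ • (1 - g * V * f), ?_, ?_⟩, rfl⟩
  · rw [mul_smul_comm, h1, smul_smul, inv_mul_cancel₀ hc, one_smul]
  · rw [smul_mul_assoc, h2, smul_smul, inv_mul_cancel₀ hc, one_smul]

private theorem A4_period {G : Type} [Group G] (S : Finset G) (a b : G)
    (h : ∀ s, a * s * b ∈ S ↔ s ∈ S) :
    ∃ n : ℕ, 0 < n ∧ ∀ s ∈ S, a ^ n * s * b ^ n = s := by
  let E : Equiv.Perm G := (Equiv.mulLeft a).trans (Equiv.mulRight b)
  have hE : ∀ s, E s = a * s * b := fun s => rfl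
  have hE' : ∀ s, E s ∈ S ↔ s ∈ S := fun s => by rw [hE]; exact h s
  have hpow : ∀ (n : ℕ) (s : G), (E ^ n) s = a ^ n * s * b ^ n := by
    intro n
    induction n with
    | zero => intro s; simp
    | succ n ih =>
      intro s
      rw [pow_succ', Equiv.Perm.mul_apply, ih, hE, pow_succ' a, pow_succ b]
      simp only [mul_assoc]
  let P : Equiv.Perm {s // s ∈ S} := E.subtypePerm hE'
  have hPfin : 0 < orderOf P := orderOf_pos P
  refine ⟨orderOf P, hPfin, ?_⟩
  intro s hs
  have h1 : P ^ orderOf P = 1 := pow_orderOf_eq_one P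
  have h2 : ∀ n : ℕ, ((P ^ n) ⟨s, hs⟩ : G) = (E ^ n) s := by
    intro n
    simp only [P, Equiv.Perm.subtypePerm_pow, Equiv.Perm.subtypePerm_apply]
  rw [← hpow, ← h2, h1]
  rfl

private theorem A4_isUnit_of_support {K : Type*} [Field K] {G : Type} [Group G]
    {f : MonoidAlgebra K G} {s0 : G} (h0 : s0 ∈ f.coeff.support)
    (h : ∀ s ∈ f.coeff.support, s = s0) : IsUnit f := by
  classical
  have hr : f.coeff s0 ≠ 0 := Finsupp.mem_support_iff.mp h0
  have hf : f = MonoidAlgebra.single s0 (f.coeff s0) := by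
    apply MonoidAlgebra.ext
    rw [coeff_single]
    ext x
    by_cases hx : x = s0
    · subst hx; simp
    · rw [Finsupp.single_apply, if_neg (Ne.symm hx)]
      by_contra hne
      exact hx (h x (Finsupp.mem_support_iff.mpr hne))
  rw [hf]
  refine ⟨⟨MonoidAlgebra.single s0 (f.coeff s0), MonoidAlgebra.single s0⁻¹ (f.coeff s0)⁻¹,
    ?_, ?_⟩, rfl⟩
  · rw [single_mul_single, mul_inv_cancel, mul_inv_cancel₀ hr, one_def]
  · rw [single_mul_single, inv_mul_cancel, inv_mul_cancel₀ hr, one_def]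

/-- `u - c` is irreducible in `K[F]` if `u` is not a proper power. -/
theorem isUnit_or_isUnit_of_mul_eq {K : Type*} [Field K] {α : Type} {u : FreeGroup α} (hu1 : u ≠ 1)
    (hu : ∀ (z : FreeGroup α) (k : ℤ), z ^ k = u → k.natAbs = 1) {c : K} (hc : c ≠ 0)
    {f g : GA K α} (hfg : MonoidAlgebra.of K (FreeGroup α) u - c • (1 : GA K α) = f * g) :
    IsUnit f ∨ IsUnit g := by
  classical
  have := uniqueProds_freeGroup α
  -- coefficients of `u - c`
  have hne : ∀ x : FreeGroup α, (f * g).coeff x ≠ 0 → x = 1 ∨ x = u := by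
    intro x hx
    by_contra hcon
    push Not at hcon
    apply hx
    rw [← hfg, of_apply, one_def, smul_single, coeff_sub, Finsupp.sub_apply, coeff_single,
      coeff_single, Finsupp.single_apply, Finsupp.single_apply, if_neg (Ne.symm hcon.2),
      if_neg (Ne.symm hcon.1), sub_zero]
  have hfg0 : f * g ≠ 0 := by
    rw [← hfg]
    intro h0
    have h1 : (MonoidAlgebra.of K (FreeGroup α) u - c • (1 : GA K α)).coeff u = 0 := by
      rw [h0]; rfl
    rw [of_apply, one_def, smul_single, coeff_sub, Finsupp.sub_apply, coeff_single,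
      coeff_single, Finsupp.single_apply, Finsupp.single_apply, if_pos rfl,
      if_neg (Ne.symm hu1), sub_zero] at h1
    exact one_ne_zero h1
  have hf0 : f ≠ 0 := fun h => hfg0 (by rw [h, zero_mul])
  have hg0 : g ≠ 0 := fun h => hfg0 (by rw [h, mul_zero])
  -- the unit `c + g f`
  obtain ⟨k, v, hk, hp⟩ := isUnit_exists_single (A4_unit hc hfg)
  have hfp : f * single v k = single u 1 * f := by
    rw [← hp, mul_add, mul_smul_comm, mul_one, ← mul_assoc, ← hfg, sub_mul, smul_mul_assoc,
      one_mul, of_apply]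
    abel
  have hgp : single v k * g = g * single u 1 := by
    rw [← hp, add_mul, smul_mul_assoc, one_mul, mul_assoc, ← hfg, mul_sub, mul_smul_comm,
      mul_one, of_apply]
    abel
  -- supports are stable
  have hS : ∀ s, u * s * v⁻¹ ∈ f.coeff.support ↔ s ∈ f.coeff.support := by
    intro s
    have h1 := congrArg (fun x : GA K α => x.coeff (u * s)) hfp
    simp only [coeff_mul_single_apply, coeff_single_mul_apply, inv_mul_cancel_left, one_mul] at h1
    rw [Finsupp.mem_support_iff, Finsupp.mem_support_iff, ← h1]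
    simp [hk]
  have hT : ∀ t, v * t * u⁻¹ ∈ g.coeff.support ↔ t ∈ g.coeff.support := by
    intro t
    have h1 := congrArg (fun x : GA K α => x.coeff (v * t)) hgp
    simp only [coeff_mul_single_apply, coeff_single_mul_apply, inv_mul_cancel_left, mul_one] at h1
    rw [Finsupp.mem_support_iff, Finsupp.mem_support_iff, ← h1]
    simp [hk]
  obtain ⟨n, hn, hSn⟩ := A4_period _ _ _ hS
  obtain ⟨m, hm, hTm⟩ := A4_period _ _ _ hT
  -- the common period
  have hS' : ∀ s ∈ f.coeff.support, u ^ (n * m) * s = s * v ^ (n * m) := by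
    intro s hs
    have h1 : u ^ n * s = s * v ^ n := by
      have := hSn s hs
      rw [inv_pow, mul_inv_eq_iff_eq_mul] at this
      exact this
    have h2 : SemiconjBy s (v ^ n) (u ^ n) := h1.symm
    have h3 := h2.pow_right m
    rw [pow_mul, pow_mul]
    exact h3.eq.symm
  have hT' : ∀ t ∈ g.coeff.support, v ^ (n * m) * t = t * u ^ (n * m) := by
    intro t ht
    have h1 : v ^ m * t = t * u ^ m := by
      have := hTm t ht
      rw [inv_pow, mul_inv_eq_iff_eq_mul] at this
      exact this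
    have h2 : SemiconjBy t (u ^ m) (v ^ m) := h1.symm
    have h3 := h2.pow_right n
    rw [mul_comm n m, pow_mul, pow_mul]
    exact h3.eq.symm
  have hnm : 0 < n * m := Nat.mul_pos hn hm
  have hSS : ∀ s ∈ f.coeff.support, ∀ s' ∈ f.coeff.support,
      s * s'⁻¹ ∈ Subgroup.zpowers u := by
    intro s hs s' hs'
    apply mem_zpowers_of_commute hu1 hu hnm
    have h1 := hS' s hs
    have h2 := hS' s' hs'
    have h3 : s'⁻¹ * u ^ (n * m) = v ^ (n * m) * s'⁻¹ := by
      rw [inv_mul_eq_iff_eq_mul, ← mul_assoc, ← h2, mul_inv_cancel_right]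
    rw [mul_assoc, h3, ← mul_assoc, ← h1, mul_assoc]
  have hST : ∀ s ∈ f.coeff.support, ∀ t ∈ g.coeff.support,
      s * t ∈ Subgroup.zpowers u := by
    intro s hs t ht
    apply mem_zpowers_of_commute hu1 hu hnm
    rw [mul_assoc, ← hT' t ht, ← mul_assoc, ← hS' s hs, mul_assoc]
  -- exponents
  have hinj : ∀ i j : ℤ, u ^ i = u ^ j → i = j := by
    intro i j hij
    by_contra hne'
    have h1 : u ^ (i - j) = 1 := by rw [zpow_sub, hij, mul_inv_cancel]
    have h2 : i - j ≠ 0 := sub_ne_zero.mpr hne'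
    have h3 : u ^ (i - j) = (1 : FreeGroup α) ^ (i - j) := by rw [h1, one_zpow]
    exact hu1 (zpow_left_injective h2 h3)
  have hex : ∀ x : FreeGroup α, ∃ i : ℤ, x ∈ Subgroup.zpowers u → u ^ i = x := by
    intro x
    by_cases hx : x ∈ Subgroup.zpowers u
    · obtain ⟨i, hi⟩ := Subgroup.mem_zpowers_iff.mp hx
      exact ⟨i, fun _ => hi⟩
    · exact ⟨0, fun h => absurd h hx⟩
  choose e he using hex
  have hadd : ∀ x y, x ∈ Subgroup.zpowers u → y ∈ Subgroup.zpowers u →
      e (x * y) = e x + e y := by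
    intro x y hx hy
    apply hinj
    rw [he _ (mul_mem hx hy), zpow_add, he x hx, he y hy]
  have hfs : f.coeff.support.Nonempty := by
    rw [Finsupp.support_nonempty_iff]
    intro h; exact hf0 (MonoidAlgebra.coeff_eq_zero.mp h)
  have hgs : g.coeff.support.Nonempty := by
    rw [Finsupp.support_nonempty_iff]
    intro h; exact hg0 (MonoidAlgebra.coeff_eq_zero.mp h)
  obtain ⟨s0, hs0⟩ := hfs
  have hsplit : ∀ s ∈ f.coeff.support, ∀ t ∈ g.coeff.support,
      e (s * t) = e (s * s0⁻¹) + e (s0 * t) := by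
    intro s hs t ht
    rw [← hadd _ _ (hSS s hs s0 hs0) (hST s0 hs0 t ht)]
    congr 1
    group
  obtain ⟨s1, hs1, hs1m⟩ := Finset.exists_max_image f.coeff.support (fun s => e (s * s0⁻¹)) ⟨s0, hs0⟩
  obtain ⟨s2, hs2, hs2m⟩ := Finset.exists_min_image f.coeff.support (fun s => e (s * s0⁻¹)) ⟨s0, hs0⟩
  obtain ⟨t1, ht1, ht1m⟩ := Finset.exists_max_image g.coeff.support (fun t => e (s0 * t)) hgs
  obtain ⟨t2, ht2, ht2m⟩ := Finset.exists_min_image g.coeff.support (fun t => e (s0 * t)) hgs
  have hseq : ∀ s ∈ f.coeff.support, ∀ s' ∈ f.coeff.support,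
      e (s * s0⁻¹) = e (s' * s0⁻¹) → s = s' := by
    intro s hs s' hs' h
    have h1 := he _ (hSS s hs s0 hs0)
    have h2 := he _ (hSS s' hs' s0 hs0)
    rw [h, h2] at h1
    exact (mul_right_cancel h1).symm
  have hteq : ∀ t ∈ g.coeff.support, ∀ t' ∈ g.coeff.support,
      e (s0 * t) = e (s0 * t') → t = t' := by
    intro t ht t' ht' h
    have h1 := he _ (hST s0 hs0 t ht)
    have h2 := he _ (hST s0 hs0 t' ht')
    rw [h, h2] at h1
    exact (mul_left_cancel h1).symm
  -- extreme coefficients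
  have hmax : (f * g).coeff (s1 * t1) ≠ 0 := by
    rw [coeff_mul_mul_of_uniqueMul]
    · exact mul_ne_zero (Finsupp.mem_support_iff.mp hs1) (Finsupp.mem_support_iff.mp ht1)
    · intro s t hs ht hst
      have h1 := hsplit s hs t ht
      rw [hst, hsplit s1 hs1 t1 ht1] at h1
      have h2 : e (s * s0⁻¹) ≤ e (s1 * s0⁻¹) := hs1m s hs
      have h3 : e (s0 * t) ≤ e (s0 * t1) := ht1m t ht
      have h4 : e (s * s0⁻¹) = e (s1 * s0⁻¹) := by omega
      have h5 : e (s0 * t) = e (s0 * t1) := by omega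
      exact ⟨hseq s hs s1 hs1 h4, hteq t ht t1 ht1 h5⟩
  have hmin : (f * g).coeff (s2 * t2) ≠ 0 := by
    rw [coeff_mul_mul_of_uniqueMul]
    · exact mul_ne_zero (Finsupp.mem_support_iff.mp hs2) (Finsupp.mem_support_iff.mp ht2)
    · intro s t hs ht hst
      have h1 := hsplit s hs t ht
      rw [hst, hsplit s2 hs2 t2 ht2] at h1
      have h2 : e (s2 * s0⁻¹) ≤ e (s * s0⁻¹) := hs2m s hs
      have h3 : e (s0 * t2) ≤ e (s0 * t) := ht2m t ht
      have h4 : e (s * s0⁻¹) = e (s2 * s0⁻¹) := by omega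
      have h5 : e (s0 * t) = e (s0 * t2) := by omega
      exact ⟨hseq s hs s2 hs2 h4, hteq t ht t2 ht2 h5⟩
  have hrange : ∀ x, (f * g).coeff x ≠ 0 → 0 ≤ e x ∧ e x ≤ 1 := by
    intro x hx
    rcases hne x hx with rfl | rfl
    · have h1 : e (1 : FreeGroup α) = 0 := by
        apply hinj
        rw [he _ (one_mem _), zpow_zero]
      omega
    · have h1 : e x = 1 := by
        apply hinj
        rw [he _ (Subgroup.mem_zpowers x), zpow_one]
      omega
  have h1 := (hrange _ hmax).2
  have h2 := (hrange _ hmin).1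
  rw [hsplit s1 hs1 t1 ht1] at h1
  rw [hsplit s2 hs2 t2 ht2] at h2
  have h3 : e (s2 * s0⁻¹) ≤ e (s1 * s0⁻¹) := hs1m s2 hs2
  have h4 : e (s0 * t2) ≤ e (s0 * t1) := ht1m t2 ht2
  by_cases hA : e (s1 * s0⁻¹) = e (s2 * s0⁻¹)
  · left
    apply A4_isUnit_of_support hs1
    intro s hs
    apply hseq s hs s1 hs1
    have h5 : e (s * s0⁻¹) ≤ e (s1 * s0⁻¹) := hs1m s hs
    have h6 : e (s2 * s0⁻¹) ≤ e (s * s0⁻¹) := hs2m s hs
    omega
  · right
    apply A4_isUnit_of_support ht1
    intro t ht
    apply hteq t ht t1 ht1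
    have h5 : e (s0 * t) ≤ e (s0 * t1) := ht1m t ht
    have h6 : e (s0 * t2) ≤ e (s0 * t) := ht2m t ht
    omega

end PrimRank
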