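import Pool.Agent.Lib.MP_b8b21d_al.DefsL

/-!
PROOF of exists_D. Let `Φ : FreeGroup α →* ((M × L) ≃ₗ[K] (M × L))` be the lift of
`x ↦ (m, l) ↦ (X m, X l + ψ x m)` with `X = of (FreeGroup.of x)` acting, whose inverse is
`(m, l) ↦ (X⁻¹ m, X⁻¹ (l - ψ x (X⁻¹ m)))`, `X⁻¹ = of (FreeGroup.of x)⁻¹`. Put `D g m = (Φ g (m, 0)).2`.
By induction on `g` (`FreeGroup.induction_on`, or a list induction) `Φ g (m, l) = (g m, g l + D g m)`.
Then `Φ (g h) (m,0) = Φ g (h m, D h m)` gives the formula. (The `K`-linearity of the action of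
`of g` uses `IsScalarTower K (GA K α) M`: `c • m = (c • 1 : GA) • m` and `c • 1` is central.)
PROOF of exists_functional. Define `φ f = f.coeff.sum (fun g c => c • D g v0)`, which is `K`-linear in
`f ∈ GA`. For `f ∈ I` and a group element `g`: `φ (of g * f) = of g • φ f`, because
`φ (of g * f) = ∑_h f(h) D (g h) v0 = of g • ∑_h f(h) D h v0 + D g (∑_h f(h) h • v0)` and the last sum is
`f • v0 = 0`. By linearity in the first factor `φ (a * f) = a • φ f` for all `a`.
-/

namespace PrimRank

section
variable {K : Type*} [Field K] {α : Type} {M L : Type*}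
  [AddCommGroup M] [Module K M] [Module (GA K α) M] [IsScalarTower K (GA K α) M]
  [AddCommGroup L] [Module K L] [Module (GA K α) L] [IsScalarTower K (GA K α) L]

/-- the action of a group element on a module, as a `K`-linear map -/
private noncomputable def b1act (K : Type*) [Field K] {α : Type} (M : Type*) [AddCommGroup M]
    [Module K M] [Module (GA K α) M] [IsScalarTower K (GA K α) M] (g : FreeGroup α) :
    M →ₗ[K] M :=
  Algebra.lsmul K K M (MonoidAlgebra.of K (FreeGroup α) g)

private theorem b1act_apply (g : FreeGroup α) (m : M) :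
    b1act K M g m = MonoidAlgebra.of K (FreeGroup α) g • m := rfl

omit [Module K M] [IsScalarTower K (GA K α) M] in
private theorem b1act_inv_left (g : FreeGroup α) (m : M) :
    MonoidAlgebra.of K (FreeGroup α) g⁻¹ • MonoidAlgebra.of K (FreeGroup α) g • m = m := by
  rw [smul_smul, ← map_mul, inv_mul_cancel, map_one, one_smul]

omit [Module K M] [IsScalarTower K (GA K α) M] in
private theorem b1act_inv_right (g : FreeGroup α) (m : M) :
    MonoidAlgebra.of K (FreeGroup α) g • MonoidAlgebra.of K (FreeGroup α) g⁻¹ • m = m := by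
  rw [smul_smul, ← map_mul, mul_inv_cancel, map_one, one_smul]

/-- the generator `x` acting on `M × L` -/
private noncomputable def b1A (ψ : α → M →ₗ[K] L) (x : α) : Module.End K (M × L) :=
  LinearMap.prod (b1act K M (FreeGroup.of x) ∘ₗ LinearMap.fst K M L)
    (b1act K L (FreeGroup.of x) ∘ₗ LinearMap.snd K M L + ψ x ∘ₗ LinearMap.fst K M L)

/-- its inverse -/
private noncomputable def b1B (ψ : α → M →ₗ[K] L) (x : α) : Module.End K (M × L) :=
  LinearMap.prod (b1act K M (FreeGroup.of x)⁻¹ ∘ₗ LinearMap.fst K M L)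
    (b1act K L (FreeGroup.of x)⁻¹ ∘ₗ (LinearMap.snd K M L -
      ψ x ∘ₗ b1act K M (FreeGroup.of x)⁻¹ ∘ₗ LinearMap.fst K M L))

private noncomputable def b1U (ψ : α → M →ₗ[K] L) (x : α) : (Module.End K (M × L))ˣ where
  val := b1A ψ x
  inv := b1B ψ x
  val_inv := by
    refine LinearMap.ext fun z => ?_
    obtain ⟨m, l⟩ := z
    refine Prod.ext ?_ ?_
    · simp [b1A, b1B, b1act_apply, b1act_inv_right, -MonoidAlgebra.of_apply]
    · simp [b1A, b1B, b1act_apply, b1act_inv_right, -MonoidAlgebra.of_apply]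
  inv_val := by
    refine LinearMap.ext fun z => ?_
    obtain ⟨m, l⟩ := z
    refine Prod.ext ?_ ?_
    · simp [b1A, b1B, b1act_apply, b1act_inv_left, -MonoidAlgebra.of_apply]
    · simp [b1A, b1B, b1act_apply, b1act_inv_left, -MonoidAlgebra.of_apply]

private noncomputable def b1Phi (ψ : α → M →ₗ[K] L) : FreeGroup α →* (Module.End K (M × L))ˣ :=
  FreeGroup.lift (b1U ψ)

private theorem b1Phi_mul (ψ : α → M →ₗ[K] L) (g h : FreeGroup α) (z : M × L) :
    (b1Phi ψ (g * h) : Module.End K (M × L)) z =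
      (b1Phi ψ g : Module.End K (M × L)) ((b1Phi ψ h : Module.End K (M × L)) z) := by
  rw [map_mul]
  rfl

private theorem b1Phi_inv (ψ : α → M →ₗ[K] L) (g : FreeGroup α) (z : M × L) :
    (b1Phi ψ g : Module.End K (M × L)) ((b1Phi ψ g⁻¹ : Module.End K (M × L)) z) = z := by
  rw [← b1Phi_mul, mul_inv_cancel, map_one]
  rfl

private theorem b1Phi_inv' (ψ : α → M →ₗ[K] L) (g : FreeGroup α) (z : M × L) :
    (b1Phi ψ g⁻¹ : Module.End K (M × L)) ((b1Phi ψ g : Module.End K (M × L)) z) = z := by
  rw [← b1Phi_mul, inv_mul_cancel, map_one]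
  rfl

private theorem b1Phi_of (ψ : α → M →ₗ[K] L) (x : α) (z : M × L) :
    (b1Phi ψ (FreeGroup.of x) : Module.End K (M × L)) z =
      (MonoidAlgebra.of K (FreeGroup α) (FreeGroup.of x) • z.1,
        MonoidAlgebra.of K (FreeGroup α) (FreeGroup.of x) • z.2 + ψ x z.1) := by
  rw [b1Phi, FreeGroup.lift_apply_of]
  rfl

private theorem b1Phi_fst (ψ : α → M →ₗ[K] L) (g : FreeGroup α) : ∀ z : M × L,
    ((b1Phi ψ g : Module.End K (M × L)) z).1 = MonoidAlgebra.of K (FreeGroup α) g • z.1 := by
  induction g using FreeGroup.induction_on with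
  | C1 =>
    intro z
    rw [map_one, map_one, one_smul]
    rfl
  | of x =>
    intro z
    rw [b1Phi_of]
  | inv_of x ih =>
    intro z
    have h1 := ih ((b1Phi ψ (FreeGroup.of x)⁻¹ : Module.End K (M × L)) z)
    rw [b1Phi_inv] at h1
    rw [h1, b1act_inv_left]
  | mul g h hg hh =>
    intro z
    rw [b1Phi_mul, hg, hh, smul_smul, ← map_mul]

private theorem b1Phi_snd (ψ : α → M →ₗ[K] L) (g : FreeGroup α) : ∀ l : L,
    (b1Phi ψ g : Module.End K (M × L)) (0, l) = (0, MonoidAlgebra.of K (FreeGroup α) g • l) := by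
  induction g using FreeGroup.induction_on with
  | C1 =>
    intro l
    rw [map_one, map_one, one_smul]
    rfl
  | of x =>
    intro l
    rw [b1Phi_of, smul_zero, map_zero, add_zero]
  | inv_of x ih =>
    intro l
    have h1 := ih (MonoidAlgebra.of K (FreeGroup α) (FreeGroup.of x)⁻¹ • l)
    rw [b1act_inv_right] at h1
    have h2 := congrArg (b1Phi ψ (FreeGroup.of x)⁻¹ : Module.End K (M × L)) h1
    rw [b1Phi_inv'] at h2
    exact h2.symm
  | mul g h hg hh =>
    intro l
    rw [b1Phi_mul, hh, hg, smul_smul, ← map_mul]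

/-- Extensions of modules over the algebra of a free group: any linear maps on the generators. -/
theorem exists_D (ψ : α → M →ₗ[K] L) :
    ∃ D : FreeGroup α → M →ₗ[K] L, D 1 = 0 ∧
      (∀ (g h : FreeGroup α) (m : M), D (g * h) m =
        MonoidAlgebra.of K (FreeGroup α) g • D h m + D g (MonoidAlgebra.of K (FreeGroup α) h • m)) ∧
      ∀ x, D (FreeGroup.of x) = ψ x := by
  refine ⟨fun g => LinearMap.snd K M L ∘ₗ (b1Phi ψ g : Module.End K (M × L)) ∘ₗ
    LinearMap.inl K M L, ?_, fun g h m => ?_, fun x => ?_⟩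
  · refine LinearMap.ext fun m => ?_
    show ((b1Phi ψ 1 : Module.End K (M × L)) (m, 0)).2 = 0
    rw [map_one]
    rfl
  · show ((b1Phi ψ (g * h) : Module.End K (M × L)) (m, 0)).2 =
      MonoidAlgebra.of K (FreeGroup α) g • ((b1Phi ψ h : Module.End K (M × L)) (m, 0)).2 +
      ((b1Phi ψ g : Module.End K (M × L)) (MonoidAlgebra.of K (FreeGroup α) h • m, 0)).2
    rw [b1Phi_mul]
    have h1 : (b1Phi ψ h : Module.End K (M × L)) (m, 0) =
        (MonoidAlgebra.of K (FreeGroup α) h • m, 0) +
          (0, ((b1Phi ψ h : Module.End K (M × L)) (m, 0)).2) := by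
      refine Prod.ext ?_ ?_
      · rw [b1Phi_fst]
        simp
      · simp
    conv_lhs => rw [h1]
    rw [map_add, b1Phi_snd, Prod.snd_add, add_comm]
  · refine LinearMap.ext fun m => ?_
    show ((b1Phi ψ (FreeGroup.of x) : Module.End K (M × L)) (m, 0)).2 = ψ x m
    rw [b1Phi_of, smul_zero, zero_add]

private theorem b1_smul (g : FreeGroup α) (c : K) (l : L) :
    MonoidAlgebra.single g c • l = c • MonoidAlgebra.of K (FreeGroup α) g • l := by
  rw [← smul_assoc, MonoidAlgebra.of_apply, MonoidAlgebra.smul_single, smul_eq_mul, mul_one]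

private theorem b1_comm (g : FreeGroup α) (c : K) (l : L) :
    MonoidAlgebra.of K (FreeGroup α) g • c • l = c • MonoidAlgebra.of K (FreeGroup α) g • l :=
  (b1act K L g).map_smul c l

private noncomputable def b1S (D : FreeGroup α → M →ₗ[K] L) (f : GA K α) (m : M) : L :=
  f.coeff.sum fun g c => c • D g m

omit [Module (GA K α) M] [IsScalarTower K (GA K α) M] [Module (GA K α) L]
  [IsScalarTower K (GA K α) L] in
private theorem b1S_zero (D : FreeGroup α → M →ₗ[K] L) (m : M) :
    b1S D (0 : GA K α) m = 0 := by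
  simp [b1S]

omit [Module (GA K α) M] [IsScalarTower K (GA K α) M] [Module (GA K α) L]
  [IsScalarTower K (GA K α) L] in
private theorem b1S_add (D : FreeGroup α → M →ₗ[K] L) (f f' : GA K α) (m : M) :
    b1S D (f + f') m = b1S D f m + b1S D f' m := by
  unfold b1S
  rw [MonoidAlgebra.coeff_add, Finsupp.sum_add_index']
  · intro g; rw [zero_smul]
  · intro g c c'; rw [add_smul]

omit [Module (GA K α) M] [IsScalarTower K (GA K α) M] [Module (GA K α) L]
  [IsScalarTower K (GA K α) L] in
private theorem b1S_add' (D : FreeGroup α → M →ₗ[K] L) (f : GA K α) (m m' : M) :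
    b1S D f (m + m') = b1S D f m + b1S D f m' := by
  unfold b1S
  rw [← Finsupp.sum_add]
  refine Finsupp.sum_congr fun g _ => ?_
  rw [map_add, smul_add]

omit [Module (GA K α) M] [IsScalarTower K (GA K α) M] [Module (GA K α) L]
  [IsScalarTower K (GA K α) L] in
private theorem b1S_zero' (D : FreeGroup α → M →ₗ[K] L) (f : GA K α) :
    b1S D f 0 = 0 := by
  unfold b1S
  simp

omit [Module (GA K α) M] [IsScalarTower K (GA K α) M] [Module (GA K α) L]
  [IsScalarTower K (GA K α) L] in
private theorem b1S_single (D : FreeGroup α → M →ₗ[K] L) (g : FreeGroup α) (c : K) (m : M) :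
    b1S D (MonoidAlgebra.single g c) m = c • D g m := by
  unfold b1S
  rw [MonoidAlgebra.coeff_single, Finsupp.sum_single_index]
  rw [zero_smul]

private theorem b1S_mul (D : FreeGroup α → M →ₗ[K] L)
    (hD : ∀ (g h : FreeGroup α) (m : M), D (g * h) m =
        MonoidAlgebra.of K (FreeGroup α) g • D h m + D g (MonoidAlgebra.of K (FreeGroup α) h • m))
    (v0 : M) (a f : GA K α) :
    b1S D (a * f) v0 = a • b1S D f v0 + b1S D a (f • v0) := by
  induction a using MonoidAlgebra.induction_linear with
  | zero => rw [zero_mul, b1S_zero, zero_smul, b1S_zero, add_zero]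
  | add a a' ha ha' =>
    rw [add_mul, b1S_add, ha, ha', add_smul, b1S_add]
    abel
  | single g c =>
    induction f using MonoidAlgebra.induction_linear with
    | zero => rw [mul_zero, b1S_zero, smul_zero, zero_smul, b1S_zero', add_zero]
    | add f f' hf hf' =>
      rw [mul_add, b1S_add, hf, hf', b1S_add, smul_add, add_smul, b1S_add']
      abel
    | single h c' =>
      rw [MonoidAlgebra.single_mul_single, b1S_single, b1S_single, b1S_single, hD, b1_smul,
        b1_smul, b1_comm, LinearMap.map_smul (D g) c', smul_add, mul_smul, mul_smul]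

/-- The linear functional on the annihilator of `v0` given by such an extension. -/
theorem exists_functional (D : FreeGroup α → M →ₗ[K] L)
    (hD : ∀ (g h : FreeGroup α) (m : M), D (g * h) m =
        MonoidAlgebra.of K (FreeGroup α) g • D h m + D g (MonoidAlgebra.of K (FreeGroup α) h • m))
    (v0 : M) (I : Submodule (GA K α) (GA K α)) (hI : ∀ f ∈ I, f • v0 = 0) :
    ∃ φ : I →ₗ[GA K α] L, ∀ f : I, φ f = (f : GA K α).coeff.sum fun g c => c • D g v0 := by
  refine ⟨{ toFun := fun f => b1S D (f : GA K α) v0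
            map_add' := fun f f' => ?_
            map_smul' := fun a f => ?_ }, fun f => rfl⟩
  · rw [Submodule.coe_add, b1S_add]
  · rw [Submodule.coe_smul, smul_eq_mul, b1S_mul D hD, hI f f.2, b1S_zero', add_zero]
    rfl

end

end PrimRank
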