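import Pool.Agent.Lib.MP_b8b21d_al.DefsL

/-!
PROOF. Well order the letters `α × Bool` (`WellOrderingRel`) and order `FreeGroup α` by the shortlex
order of `toWord` (`List.Shortlex`, `List.Shortlex.wf` in Mathlib): a strict well order `≺` (total because
`toWord` is injective). Let `V` be `GA` as a `K`-space modulo `I`, and
`T = {g | of g ∉ span_K (of '' {h | h ≺ g}) + I (restricted to scalars K)}`.
(1) spanning: by well founded induction every `of g` is in `span_K (of '' T) + I`.
(2) independence: if `c ≠ 0` is supported in `T` and `∑ c_t t ∈ I`, let `t` be the `≺`-largest element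
of the support; then `of t` is in `span (smaller) + I`, contradiction.
(3) suffix closed: let `g.toWord = y :: L`, `t = mk L` (so `t.toWord = L`, `g = mk [y] * t`) and suppose
`t ∉ T`: `of t = ∑ c_h h + i` with `h ≺ t`, `i ∈ I`. Multiply by `mk [y]` on the left:
`of g = ∑ c_h (mk [y] * h) + (mk [y]) i`, and `mk [y] * h ≺ g` for each `h ≺ t`: either the word of
`mk [y] * h` is `y :: h.toWord` and `shortlex_cons_iff` applies, or it is the tail of `h.toWord`, shorter
than `L`. So `g ∉ T`.
-/

namespace PrimRank

namespace B2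

/-- The largest element of a finite set. -/
private theorem exists_top {β : Type*} (R : β → β → Prop) [IsWellOrder β R] (s : Finset β)
    (hs : s.Nonempty) : ∃ t ∈ s, ∀ h ∈ s, h = t ∨ R h t := by
  classical
  induction hs using Finset.Nonempty.cons_induction with
  | singleton a => exact ⟨a, Finset.mem_singleton_self a, fun h hh => Or.inl (by simpa using hh)⟩
  | cons a s ha hs ih =>
    obtain ⟨t, ht, h1⟩ := ih
    rcases trichotomous_of R a t with h2 | h2 | h2
    · refine ⟨t, Finset.mem_cons_of_mem ht, fun h hh => ?_⟩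
      rcases Finset.mem_cons.1 hh with rfl | h3
      · exact Or.inr h2
      · exact h1 h h3
    · refine ⟨t, Finset.mem_cons_of_mem ht, fun h hh => ?_⟩
      rcases Finset.mem_cons.1 hh with rfl | h3
      · exact Or.inl h2
      · exact h1 h h3
    · refine ⟨a, Finset.mem_cons_self a s, fun h hh => ?_⟩
      rcases Finset.mem_cons.1 hh with rfl | h3
      · exact Or.inl rfl
      · rcases h1 h h3 with rfl | h4
        · exact Or.inr h2
        · exact Or.inr (_root_.trans h4 h2)

section

variable {α : Type} [DecidableEq α]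

/-- The shortlex order on the free group. -/
private def RR (r : α × Bool → α × Bool → Prop) : FreeGroup α → FreeGroup α → Prop :=
  InvImage (List.Shortlex r) FreeGroup.toWord

private theorem isWellOrder_RR (r : α × Bool → α × Bool → Prop) [IsWellOrder (α × Bool) r] :
    IsWellOrder (FreeGroup α) (RR r) where
  wf := InvImage.wf _ (List.Shortlex.wf IsWellFounded.wf)
  trichotomous := (InvImage.trichotomous (r := List.Shortlex r)
    FreeGroup.toWord_injective).trichotomous

private theorem toWord_mk_of_cons {g : FreeGroup α} {y : α × Bool} {L : List (α × Bool)}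
    (h : g.toWord = y :: L) : (FreeGroup.mk L).toWord = L := by
  rw [FreeGroup.toWord_mk]
  apply FreeGroup.IsReduced.reduce_eq
  have h1 : FreeGroup.IsReduced (y :: L) := by
    rw [← h]
    exact FreeGroup.isReduced_toWord
  exact List.IsChain.right_of_append (l₁ := [y]) h1

private theorem eq_mul_of_cons {g : FreeGroup α} {y : α × Bool} {L : List (α × Bool)}
    (h : g.toWord = y :: L) : g = FreeGroup.mk [y] * FreeGroup.mk L := by
  rw [FreeGroup.mul_mk]
  show g = FreeGroup.mk (y :: L)
  rw [← h, FreeGroup.mk_toWord]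

private theorem RR_mul (r : α × Bool → α × Bool → Prop) [IsWellOrder (α × Bool) r]
    {g h : FreeGroup α} {y : α × Bool} {L : List (α × Bool)}
    (hg : g.toWord = y :: L) (hh : RR r h (FreeGroup.mk L)) :
    RR r (FreeGroup.mk [y] * h) g := by
  have h1 : List.Shortlex r h.toWord L := by
    have h2 : List.Shortlex r h.toWord (FreeGroup.mk L).toWord := hh
    rwa [toWord_mk_of_cons hg] at h2
  show List.Shortlex r (FreeGroup.mk [y] * h).toWord g.toWord
  have h3 : (FreeGroup.mk [y] * h).toWord = FreeGroup.reduce (y :: h.toWord) := by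
    rw [FreeGroup.toWord_mul, FreeGroup.toWord_mk, FreeGroup.reduce_singleton]
    rfl
  rw [h3, hg, FreeGroup.reduce.cons, FreeGroup.reduce_toWord]
  cases h4 : h.toWord with
  | nil =>
    rw [h4] at h1
    exact List.shortlex_cons_iff.2 h1
  | cons hd tl =>
    rw [h4] at h1
    show List.Shortlex r (if y.1 = hd.1 ∧ y.2 = not hd.2 then tl else y :: hd :: tl) (y :: L)
    split_ifs with h5
    · apply List.Shortlex.of_length_lt
      rcases List.shortlex_def.1 h1 with h6 | ⟨h6, -⟩
      · simp only [List.length_cons] at h6 ⊢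
        omega
      · simp only [List.length_cons] at h6 ⊢
        omega
    · exact List.shortlex_cons_iff.2 h1

end

variable {K : Type*} [Field K] {α : Type} (I : Submodule (GA K α) (GA K α))

/-- The span of group elements and of `I`. -/
private noncomputable def SP (S : Set (FreeGroup α)) : Submodule K (GA K α) :=
  Submodule.span K ((fun g => MonoidAlgebra.of K (FreeGroup α) g) '' S) ⊔ I.restrictScalars K

private theorem of_mem_SP {S : Set (FreeGroup α)} {g : FreeGroup α} (hg : g ∈ S) :
    MonoidAlgebra.of K (FreeGroup α) g ∈ SP I S :=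
  Submodule.mem_sup_left (Submodule.subset_span ⟨g, hg, rfl⟩)

private theorem mem_SP_of_mem {S : Set (FreeGroup α)} {x : GA K α} (hx : x ∈ I) : x ∈ SP I S :=
  Submodule.mem_sup_right hx

private theorem SP_le {S : Set (FreeGroup α)} {M : Submodule K (GA K α)}
    (h1 : ∀ g ∈ S, MonoidAlgebra.of K (FreeGroup α) g ∈ M) (h2 : ∀ x ∈ I, x ∈ M) :
    SP I S ≤ M := by
  refine sup_le (Submodule.span_le.2 ?_) fun x hx => h2 x hx
  rintro _ ⟨g, hg, rfl⟩
  exact h1 g hg

private theorem ofCoeff_eq (c : FreeGroup α →₀ K) :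
    (MonoidAlgebra.ofCoeff c : GA K α) =
      ∑ g ∈ c.support, c g • MonoidAlgebra.of K (FreeGroup α) g := by
  have h1 : c = ∑ g ∈ c.support, Finsupp.single g (c g) := (Finsupp.sum_single c).symm
  conv_lhs => rw [h1]
  rw [MonoidAlgebra.ofCoeff_sum]
  refine Finset.sum_congr rfl fun g _ => ?_
  rw [MonoidAlgebra.ofCoeff_single, MonoidAlgebra.of_apply, MonoidAlgebra.smul_single,
    smul_eq_mul, mul_one]

private theorem exists_coeff {S : Set (FreeGroup α)} {x : GA K α} (hx : x ∈ SP I S) :
    ∃ c : FreeGroup α →₀ K, ↑c.support ⊆ S ∧ x - MonoidAlgebra.ofCoeff c ∈ I := by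
  classical
  obtain ⟨y, hy, z, hz, rfl⟩ := Submodule.mem_sup.1 hx
  have h1 : ∃ c : FreeGroup α →₀ K, ↑c.support ⊆ S ∧ y = MonoidAlgebra.ofCoeff c := by
    clear hx
    induction hy using Submodule.span_induction with
    | mem x hx =>
      obtain ⟨g, hg, rfl⟩ := hx
      refine ⟨Finsupp.single g 1, ?_, rfl⟩
      intro h hh
      have h2 := Finsupp.support_single_subset hh
      rw [Finset.mem_singleton] at h2
      rw [h2]
      exact hg
    | zero => exact ⟨0, by simp, by rw [MonoidAlgebra.ofCoeff_zero]⟩
    | add x y _ _ hx hy =>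
      obtain ⟨c, hc, rfl⟩ := hx
      obtain ⟨d, hd, rfl⟩ := hy
      refine ⟨c + d, ?_, by rw [MonoidAlgebra.ofCoeff_add]⟩
      intro h hh
      rcases Finset.mem_union.1 (Finsupp.support_add hh) with h2 | h2
      · exact hc h2
      · exact hd h2
    | smul a x _ hx =>
      obtain ⟨c, hc, rfl⟩ := hx
      refine ⟨a • c, ?_, by rw [MonoidAlgebra.ofCoeff_smul]⟩
      intro h hh
      exact hc (Finsupp.support_smul hh)
  obtain ⟨c, hc, rfl⟩ := h1
  refine ⟨c, hc, ?_⟩
  rw [add_sub_cancel_left]
  exact hz

end B2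

open Classical in
/-- Schreier transversals: a suffix closed set of group elements which is a basis of `K[F]`
modulo the left ideal `I`. -/
theorem exists_schreier {K : Type*} [Field K] {α : Type} (I : Submodule (GA K α) (GA K α)) :
    ∃ T : Set (FreeGroup α),
      (∀ g ∈ T, ∀ (y : α × Bool) (L : List (α × Bool)), g.toWord = y :: L → FreeGroup.mk L ∈ T) ∧
      (∀ c : FreeGroup α →₀ K, ↑c.support ⊆ T → (MonoidAlgebra.ofCoeff c : GA K α) ∈ I → c = 0) ∧
      (∀ g : FreeGroup α, ∃ c : FreeGroup α →₀ K, ↑c.support ⊆ T ∧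
        MonoidAlgebra.of K (FreeGroup α) g - MonoidAlgebra.ofCoeff c ∈ I) := by
  set r : α × Bool → α × Bool → Prop := WellOrderingRel with hr
  have := B2.isWellOrder_RR r
  set R := B2.RR r with hR
  refine ⟨{g | MonoidAlgebra.of K (FreeGroup α) g ∉ B2.SP I {h | R h g}}, ?_, ?_, ?_⟩
  · intro g hg y L hL h1
    apply hg
    have h2 : B2.SP I {h | R h (FreeGroup.mk L)} ≤ (B2.SP I {h | R h g}).comap
        (LinearMap.mulLeft K (MonoidAlgebra.of K (FreeGroup α) (FreeGroup.mk [y]))) := by
      refine B2.SP_le I ?_ ?_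
      · intro h hh
        rw [Submodule.mem_comap, LinearMap.mulLeft_apply, ← map_mul]
        exact B2.of_mem_SP I (B2.RR_mul r hL hh)
      · intro x hx
        rw [Submodule.mem_comap, LinearMap.mulLeft_apply]
        exact B2.mem_SP_of_mem I (I.smul_mem _ hx)
    have h3 := h2 h1
    rw [Submodule.mem_comap, LinearMap.mulLeft_apply, ← map_mul, ← B2.eq_mul_of_cons hL] at h3
    exact h3
  · intro c hc h1
    by_contra h2
    obtain ⟨t, ht, h3⟩ := B2.exists_top R c.support (Finsupp.support_nonempty_iff.2 h2)
    apply hc ht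
    have h4 : c t • MonoidAlgebra.of K (FreeGroup α) t =
        MonoidAlgebra.ofCoeff c - ∑ g ∈ c.support.erase t,
          c g • MonoidAlgebra.of K (FreeGroup α) g := by
      rw [B2.ofCoeff_eq, ← Finset.add_sum_erase _ _ ht, add_sub_cancel_right]
    have h5 : c t • MonoidAlgebra.of K (FreeGroup α) t ∈ B2.SP I {h | R h t} := by
      rw [h4]
      refine Submodule.sub_mem _ (B2.mem_SP_of_mem I h1) (Submodule.sum_mem _ fun g hg => ?_)
      refine Submodule.smul_mem _ _ (B2.of_mem_SP I ?_)
      rw [Finset.mem_erase] at hg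
      rcases h3 g hg.2 with h6 | h6
      · exact absurd h6 hg.1
      · exact h6
    have h6 := Submodule.smul_mem _ (c t)⁻¹ h5
    rwa [smul_smul, inv_mul_cancel₀ (Finsupp.mem_support_iff.1 ht), one_smul] at h6
  · intro g
    apply B2.exists_coeff I
    induction g using (IsWellFounded.wf (r := R)).induction with
    | _ g ih =>
      by_cases h1 : MonoidAlgebra.of K (FreeGroup α) g ∈ B2.SP I {h | R h g}
      · exact B2.SP_le I (fun h hh => ih h hh) (fun x hx => B2.mem_SP_of_mem I hx) h1
      · exact B2.of_mem_SP I h1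

end PrimRank
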