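import Pool.Agent.Lib.MP_b8b21d_al.B1
import Pool.Agent.Lib.MP_b8b21d_al.B2

/-!
PROOF. If `I = ⊤` then `GA` itself is free (basis `Unit`). Let `I ≠ ⊤` and take `T` from `exists_schreier`
(then `1 ∈ T`: `T` is nonempty, as `I ≠ ⊤`, and suffix closed). For `g` let `ρ(g) ∈ span_K T` be the
representative, `of g - ρ(g) ∈ I`, and extend `ρ : GA →ₗ[K] GA`, with image in `span_K T`,
`ρ(t) = t` for `t ∈ T`, kernel `I` (as a set) and `f - ρ f ∈ I`. Index set
`ι = {p : α × FreeGroup α // p.2 ∈ T ∧ of p.1 * p.2 ∉ T}` (`of` = `FreeGroup.of`), basis elements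
`r (x, t) = of (x t) - ρ (x t) ∈ I`. For `t ∈ T`, `x t ∈ T` also put `r (x, t) = 0`.
GENERATION. Let `J` be the span of the `r`. Show `g - ρ(g) ∈ J` for all `g` by induction on `g`
(multiplying by letters on the left): `g = 1` clear (`1 ∈ T`). If it holds for `g` and `x` is a
generator: `x g - ρ(x g)`: `x g - x ρ(g) ∈ J`, and with `ρ(g) = ∑ c_t t`,
`x ρ(g) = ∑ c_t (x t) = ∑ c_t (ρ(x t) + r(x,t))`, and `ρ (x g) = ρ (x ρ(g)) = ∑ c_t ρ (x t)`
(as `x g - x ρ g ∈ I`). For `x⁻¹`: let `m = ρ(x⁻¹ g)`, `m = ∑ c_s s`. `x m - g ∈ I`, so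
`∑ c_s ρ(x s) = ρ (x m) = ρ (g)`, and `x m = ∑ c_s (ρ (x s) + r (x,s)) = ρ (g) + ∑ c_s r (x,s)`; so
`x m - g ∈ J`, `m - x⁻¹ g ∈ J`. Finally for `f ∈ I`: `f = ∑ f_g (g - ρ g) + ρ f`, `ρ f = 0`.
INDEPENDENCE. Let `M = GA ⧸ I`, `v0 = mkQ 1`. The classes of `t ∈ T` are a `K`-basis of `M`. For
`(x, t) ∈ ι` let `ψ y : M →ₗ[K] GA` be `0` for `y ≠ x` and for `y = x` the map with class of `t` ↦ `1` and
class of `s` ↦ `0` for the other `s ∈ T`. Take `D` from `exists_D` and `φ` from `exists_functional`. Claim
`D s v0 = 0` for all `s ∈ T`: induction on the word of `s` (suffix closed): `s = 1` ok; if `s = z s'`,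
`s' ∈ T`, `z` a generator: `D (z s') v0 = z • D s' v0 + ψ z (s' v0) = ψ z (class s')`, and this is
nonzero only if `z = x`, `s' = t`, but `x t ∉ T`. If `s = z⁻¹ s'`, `s' = z s ∈ T`:
`D (z s) v0 = z • D s v0 + ψ z (class s)`, `ψ z (class s) = 0` because (`z = x`, `s = t`) is impossible
(`z s ∈ T`), so `D s v0 = z⁻¹ • D s' v0 = 0`. Hence for `(y, s) ∈ ι`:
`φ (r (y, s)) = D (y s) v0 - (combination of D t' v0, t' ∈ T) = y • D s v0 + ψ y (class s) = 1` if
`(y, s) = (x, t)` and `0` otherwise. So the `r` are linearly independent (apply `φ` to a relation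
`∑ a_i r_i = 0`: `a_i = 0`), and `Module.Basis.mk` gives the basis.
-/

namespace PrimRank

section B3aux

variable {K : Type*} [Field K] {α : Type}

private theorem b3_expand (c : FreeGroup α →₀ K) :
    (MonoidAlgebra.ofCoeff c : GA K α) =
      Finsupp.linearCombination K (fun g => MonoidAlgebra.of K (FreeGroup α) g) c := by
  rw [Finsupp.linearCombination_apply]
  have h1 : (MonoidAlgebra.ofCoeff c : GA K α) =
      (MonoidAlgebra.coeffLinearEquiv K).symm c := rfl
  have h2 : c = c.sum fun g a => Finsupp.single g a := (Finsupp.sum_single c).symm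
  rw [h1]
  conv_lhs => rw [h2]
  rw [Finsupp.sum, map_sum, Finsupp.sum]
  refine Finset.sum_congr rfl fun g _ => ?_
  change (MonoidAlgebra.single g (c g) : GA K α) = c g • MonoidAlgebra.single g (1 : K)
  rw [MonoidAlgebra.smul_single, smul_eq_mul, mul_one]

private theorem b3_ofCoeff_lc (f : FreeGroup α → (FreeGroup α →₀ K)) (c : FreeGroup α →₀ K) :
    (MonoidAlgebra.ofCoeff (Finsupp.linearCombination K f c) : GA K α) =
      Finsupp.linearCombination K (fun g => (MonoidAlgebra.ofCoeff (f g) : GA K α)) c := by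
  rw [Finsupp.linearCombination_apply, Finsupp.linearCombination_apply]
  have h1 : ∀ x : FreeGroup α →₀ K, (MonoidAlgebra.ofCoeff x : GA K α) =
      (MonoidAlgebra.coeffLinearEquiv K).symm x := fun _ => rfl
  simp only [h1]
  rw [Finsupp.sum, map_sum, Finsupp.sum]
  refine Finset.sum_congr rfl fun g _ => ?_
  rw [map_smul]

/-- a combination of the differences lies in a submodule that contains the differences -/
private theorem b3_mem (J : Submodule (GA K α) (GA K α)) (u v : FreeGroup α → GA K α)
    (c : FreeGroup α →₀ K) (h : ∀ g ∈ c.support, u g - v g ∈ J) :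
    Finsupp.linearCombination K u c - Finsupp.linearCombination K v c ∈ J := by
  rw [Finsupp.linearCombination_apply, Finsupp.linearCombination_apply, Finsupp.sum, Finsupp.sum,
    ← Finset.sum_sub_distrib]
  refine Submodule.sum_mem _ fun g hg => ?_
  rw [← smul_sub]
  exact Submodule.smul_of_tower_mem J (c g) (h g hg)

private theorem b3_supp {T : Set (FreeGroup α)} (f : FreeGroup α → (FreeGroup α →₀ K))
    (hf : ∀ g, ↑(f g).support ⊆ T) (c : FreeGroup α →₀ K) :
    ↑(Finsupp.linearCombination K f c).support ⊆ T := by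
  rw [← Finsupp.mem_supported K, Finsupp.linearCombination_apply, Finsupp.sum]
  exact Submodule.sum_mem _ fun g _ =>
    Submodule.smul_mem _ _ ((Finsupp.mem_supported K _).2 (hf g))

end B3aux

open Classical in
/-- The theorem of Cohn and Lewin: every left ideal of `K[F]` is free. -/
theorem left_ideal_free {K : Type*} [Field K] {α : Type} (I : Submodule (GA K α) (GA K α)) :
    ∃ ι : Type, Nonempty (Module.Basis ι (GA K α) I) := by
  by_cases hI : I = ⊤
  · subst hI
    exact ⟨Unit, ⟨(Module.Basis.singleton Unit (GA K α)).map Submodule.topEquiv.symm⟩⟩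
  obtain ⟨T, hsuf, hind, hspan⟩ := exists_schreier I
  choose ρ hρT hρI using hspan
  let U : FreeGroup α → GA K α := fun g => MonoidAlgebra.of K (FreeGroup α) g
  have hUmul : ∀ g h, U (g * h) = U g * U h := fun g h => map_mul _ g h
  have hUone : U 1 = 1 := map_one _
  have hUinv : ∀ g, U g⁻¹ * U g = 1 := fun g => by rw [← hUmul, inv_mul_cancel, hUone]
  -- uniqueness
  have huniq : ∀ c c' : FreeGroup α →₀ K, ↑c.support ⊆ T → ↑c'.support ⊆ T →
      (MonoidAlgebra.ofCoeff c - MonoidAlgebra.ofCoeff c' : GA K α) ∈ I → c = c' := by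
    intro c c' hc hc' h
    have h1 : ↑(c - c').support ⊆ T := by
      rw [← Finsupp.mem_supported K] at hc hc' ⊢
      exact Submodule.sub_mem _ hc hc'
    exact sub_eq_zero.1 (hind (c - c') h1 (by rw [MonoidAlgebra.ofCoeff_sub]; exact h))
  have hρeq : ∀ (g : FreeGroup α) (c : FreeGroup α →₀ K), ↑c.support ⊆ T →
      U g - MonoidAlgebra.ofCoeff c ∈ I → ρ g = c := by
    intro g c hc h
    apply huniq _ _ (hρT g) hc
    have h1 : (MonoidAlgebra.ofCoeff (ρ g) - MonoidAlgebra.ofCoeff c : GA K α) =
        (U g - MonoidAlgebra.ofCoeff c) - (U g - MonoidAlgebra.ofCoeff (ρ g)) := by abel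
    rw [h1]
    exact I.sub_mem h (hρI g)
  have hUsingle : ∀ g, (MonoidAlgebra.ofCoeff (Finsupp.single g (1 : K)) : GA K α) = U g :=
    fun g => rfl
  have hρself : ∀ t ∈ T, ρ t = Finsupp.single t 1 := by
    intro t ht
    apply hρeq t _ _ _
    · intro g hg
      have h1 := Finsupp.support_single_subset hg
      rw [Finset.mem_singleton] at h1
      rw [h1]; exact ht
    · rw [hUsingle, sub_self]
      exact I.zero_mem
  -- the nonempty transversal contains 1
  have hTne : T.Nonempty := by
    by_contra hT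
    rw [Set.not_nonempty_iff_eq_empty] at hT
    apply hI
    rw [Ideal.eq_top_iff_one]
    have h1 := hρI 1
    have h2 : ρ 1 = 0 := by
      have h3 := hρT 1
      rw [hT] at h3
      apply Finsupp.support_eq_empty.1
      apply Finset.coe_eq_empty.1
      exact Set.subset_empty_iff.1 h3
    rw [h2, MonoidAlgebra.ofCoeff_zero, sub_zero, map_one] at h1
    exact h1
  have hred : ∀ (L : List (α × Bool)) (g : FreeGroup α) (y : α × Bool), g.toWord = y :: L →
      (FreeGroup.mk L).toWord = L := by
    intro L g y hg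
    rw [FreeGroup.toWord_mk]
    apply FreeGroup.IsReduced.reduce_eq
    have h1 : FreeGroup.IsReduced (y :: L) := hg ▸ FreeGroup.isReduced_toWord
    exact List.IsChain.right_of_append (l₁ := [y]) h1
  have hone : (1 : FreeGroup α) ∈ T := by
    have key : ∀ (L : List (α × Bool)) (g : FreeGroup α), g.toWord = L → g ∈ T →
        (1 : FreeGroup α) ∈ T := by
      intro L
      induction L with
      | nil =>
        intro g hg hgT
        rw [FreeGroup.toWord_eq_nil_iff] at hg
        rw [← hg]; exact hgT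
      | cons y L ih =>
        intro g hg hgT
        exact ih _ (hred L g y hg) (hsuf g hgT y L hg)
    obtain ⟨g, hg⟩ := hTne
    exact key _ g rfl hg
  -- the basis
  let ι : Type := {p : α × FreeGroup α // p.2 ∈ T ∧ FreeGroup.of p.1 * p.2 ∉ T}
  let r : ι → I := fun p => ⟨U (FreeGroup.of p.1.1 * p.1.2) -
    MonoidAlgebra.ofCoeff (ρ (FreeGroup.of p.1.1 * p.1.2)), hρI _⟩
  let J : Submodule (GA K α) (GA K α) := Submodule.span _ (Set.range fun p => (r p : GA K α))
  have hJI : J ≤ I := by
    apply Submodule.span_le.2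
    rintro _ ⟨p, rfl⟩
    exact (r p).2
  have hJ1 : ∀ x t, t ∈ T → U (FreeGroup.of x * t) -
      MonoidAlgebra.ofCoeff (ρ (FreeGroup.of x * t)) ∈ J := by
    intro x t ht
    by_cases hxt : FreeGroup.of x * t ∈ T
    · rw [hρself _ hxt, hUsingle, sub_self]
      exact J.zero_mem
    · exact Submodule.subset_span ⟨⟨(x, t), ht, hxt⟩, rfl⟩
  let S : α → (FreeGroup α →₀ K) →ₗ[K] (FreeGroup α →₀ K) := fun x =>
    Finsupp.linearCombination K (fun t => ρ (FreeGroup.of x * t))
  have hST : ∀ x c, ↑(S x c).support ⊆ T := fun x c => b3_supp _ (fun g => hρT _) c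
  have hJ2 : ∀ x c, ↑(c : FreeGroup α →₀ K).support ⊆ T →
      U (FreeGroup.of x) * MonoidAlgebra.ofCoeff c - MonoidAlgebra.ofCoeff (S x c) ∈ J := by
    intro x c hc
    have h1 : U (FreeGroup.of x) * MonoidAlgebra.ofCoeff c =
        Finsupp.linearCombination K (fun t => U (FreeGroup.of x * t)) c := by
      rw [b3_expand c, Finsupp.linearCombination_apply, Finsupp.linearCombination_apply,
        Finsupp.sum, Finsupp.sum, Finset.mul_sum]
      refine Finset.sum_congr rfl fun g _ => ?_
      rw [mul_smul_comm, ← hUmul]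
    rw [h1, b3_ofCoeff_lc]
    exact b3_mem J _ _ c fun g hg => hJ1 x g (hc hg)
  have hgen : ∀ L : List (α × Bool), U (FreeGroup.mk L) -
      MonoidAlgebra.ofCoeff (ρ (FreeGroup.mk L)) ∈ J := by
    intro L
    induction L with
    | nil =>
      have h1 : (FreeGroup.mk ([] : List (α × Bool))) = 1 := rfl
      rw [h1, hρself 1 hone, hUsingle, sub_self]
      exact J.zero_mem
    | cons y L ih =>
      obtain ⟨a, b⟩ := y
      cases b with
      | true =>
        have h1 : FreeGroup.mk ((a, true) :: L) = FreeGroup.of a * FreeGroup.mk L := rfl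
        rw [h1]
        have h2 := hJ2 a _ (hρT (FreeGroup.mk L))
        have h3 := J.smul_mem (U (FreeGroup.of a)) ih
        rw [smul_eq_mul, mul_sub, ← hUmul] at h3
        have h4 : U (FreeGroup.of a * FreeGroup.mk L) -
            MonoidAlgebra.ofCoeff (S a (ρ (FreeGroup.mk L))) ∈ J := by
          have := J.add_mem h3 h2
          rwa [sub_add_sub_cancel] at this
        rw [hρeq _ _ (hST a _) (hJI h4)]
        exact h4
      | false =>
        have h1 : FreeGroup.mk ((a, false) :: L) = (FreeGroup.of a)⁻¹ * FreeGroup.mk L := rfl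
        rw [h1]
        obtain ⟨m, hm⟩ : ∃ m, m = ρ ((FreeGroup.of a)⁻¹ * FreeGroup.mk L) := ⟨_, rfl⟩
        have hmT : ↑m.support ⊆ T := hm ▸ hρT _
        have h2 := hJ2 a m hmT
        have h3 : U ((FreeGroup.of a)⁻¹ * FreeGroup.mk L) - MonoidAlgebra.ofCoeff m ∈ I :=
          hm ▸ hρI _
        have h4 := I.smul_mem (U (FreeGroup.of a)) h3
        rw [smul_eq_mul, mul_sub, ← hUmul, mul_inv_cancel_left] at h4
        have h5 : ρ (FreeGroup.mk L) = S a m := by
          apply hρeq _ _ (hST a m)
          have := I.add_mem h4 (hJI h2)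
          rwa [sub_add_sub_cancel] at this
        rw [← hm]
        rw [← h5] at h2
        have h6 := J.sub_mem ih h2
        rw [sub_sub_sub_cancel_right] at h6
        have h7 := J.smul_mem (U (FreeGroup.of a)⁻¹) h6
        rw [smul_eq_mul, mul_sub, ← hUmul, ← mul_assoc, hUinv, one_mul] at h7
        exact h7
  let R : (FreeGroup α →₀ K) →ₗ[K] (FreeGroup α →₀ K) := Finsupp.linearCombination K ρ
  have hR : ∀ f : GA K α, f - MonoidAlgebra.ofCoeff (R f.coeff) ∈ J := by
    intro f
    have h1 : f - MonoidAlgebra.ofCoeff (R f.coeff) =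
        Finsupp.linearCombination K (fun g => MonoidAlgebra.of K (FreeGroup α) g) f.coeff -
          Finsupp.linearCombination K (fun g => (MonoidAlgebra.ofCoeff (ρ g) : GA K α))
            f.coeff := by
      rw [← b3_expand f.coeff, ← b3_ofCoeff_lc]
    rw [h1]
    refine b3_mem J _ _ _ fun g _ => ?_
    have h2 := hgen g.toWord
    rw [FreeGroup.mk_toWord] at h2
    exact h2
  have hRI : ∀ f ∈ I, R f.coeff = 0 := by
    intro f hf
    apply hind _ (b3_supp _ hρT _)
    have := I.sub_mem hf (hJI (hR f))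
    rwa [sub_sub_cancel] at this
  have hIJ : I ≤ J := by
    intro f hf
    have h1 := hR f
    rw [hRI f hf, MonoidAlgebra.ofCoeff_zero, sub_zero] at h1
    exact h1
  have hsp : ⊤ ≤ Submodule.span (GA K α) (Set.range r) := by
    rintro ⟨f, hf⟩ -
    have h1 : J = (Submodule.span (GA K α) (Set.range r)).map I.subtype := by
      rw [Submodule.map_span, ← Set.range_comp]
      rfl
    have h2 := hIJ hf
    rw [h1] at h2
    obtain ⟨y, hy, hyf⟩ := h2
    have h3 : y = ⟨f, hf⟩ := Subtype.ext hyf
    rw [← h3]; exact hy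
  -- independence
  have hker : I.restrictScalars K ≤
      LinearMap.ker (R ∘ₗ (MonoidAlgebra.coeffLinearEquiv K).toLinearMap) := by
    intro f hf
    rw [LinearMap.mem_ker]
    exact hRI f hf
  let ε : (GA K α ⧸ I) →ₗ[K] (FreeGroup α →₀ K) :=
    (Submodule.liftQ (I.restrictScalars K) _ hker) ∘ₗ
      (Submodule.Quotient.restrictScalarsEquiv K I).symm.toLinearMap
  have hεT : ∀ t ∈ T, ε (Submodule.Quotient.mk (U t)) = Finsupp.single t 1 := by
    intro t ht
    have h1 : ε (Submodule.Quotient.mk (U t)) = R (Finsupp.single t 1) := rfl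
    rw [h1]
    change Finsupp.linearCombination K ρ (Finsupp.single t 1) = _
    rw [Finsupp.linearCombination_single, one_smul, hρself t ht]
  have hfun : ∀ p : ι, ∃ φ : I →ₗ[GA K α] GA K α, ∀ q : ι, φ (r q) = if q = p then 1 else 0 := by
    rintro ⟨⟨x, t⟩, htT, hxt⟩
    simp only at htT hxt
    obtain ⟨D, hD1, hD, hDx⟩ := exists_D (K := K) (α := α) (M := GA K α ⧸ I) (L := GA K α)
      (fun y => if y = x then (LinearMap.toSpanSingleton K (GA K α) 1) ∘ₗ
        (Finsupp.lapply t) ∘ₗ ε else 0)
    obtain ⟨φ, hφ⟩ := exists_functional D hD (Submodule.Quotient.mk 1) I (by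
      intro f hf
      rw [← Submodule.Quotient.mk_smul, smul_eq_mul, mul_one]
      exact (Submodule.Quotient.mk_eq_zero I).2 hf)
    have hact : ∀ g, U g • (Submodule.Quotient.mk 1 : GA K α ⧸ I) = Submodule.Quotient.mk (U g) := by
      intro g
      rw [← Submodule.Quotient.mk_smul, smul_eq_mul, mul_one]
    have hψ : ∀ y s, s ∈ T → D (FreeGroup.of y) (Submodule.Quotient.mk (U s)) =
        if y = x ∧ s = t then 1 else 0 := by
      intro y s hs
      rw [hDx]
      by_cases hy : y = x
      · rw [if_pos hy]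
        simp only [LinearMap.comp_apply, hεT s hs, Finsupp.lapply_apply,
          LinearMap.toSpanSingleton_apply]
        by_cases hst : s = t
        · rw [if_pos ⟨hy, hst⟩, hst, Finsupp.single_eq_same, one_smul]
        · rw [if_neg (fun h => hst h.2), Finsupp.single_eq_of_ne' hst, zero_smul]
      · rw [if_neg hy, if_neg (fun h => hy h.1)]
        rfl
    have hD0 : ∀ (L : List (α × Bool)) (s : FreeGroup α), s.toWord = L → s ∈ T →
        D s (Submodule.Quotient.mk 1) = 0 := by
      intro L
      induction L with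
      | nil =>
        intro s hs _
        rw [FreeGroup.toWord_eq_nil_iff] at hs
        rw [hs, hD1]
        rfl
      | cons y L ih =>
        intro s hs hsT
        have hs' : FreeGroup.mk L ∈ T := hsuf s hsT y L hs
        have ih' := ih _ (hred L s y hs) hs'
        have hs2 : s = FreeGroup.mk (y :: L) := by rw [← hs, FreeGroup.mk_toWord]
        obtain ⟨a, b⟩ := y
        cases b with
        | true =>
          have h1 : s = FreeGroup.of a * FreeGroup.mk L := hs2
          rw [h1, hD, ih', smul_zero, zero_add]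
          change D (FreeGroup.of a) (U (FreeGroup.mk L) • _) = 0
          rw [hact, hψ a _ hs', if_neg]
          rintro ⟨rfl, h2⟩
          apply hxt
          rw [← h2, ← h1]
          exact hsT
        | false =>
          have h1 : s = (FreeGroup.of a)⁻¹ * FreeGroup.mk L := hs2
          have h2 : FreeGroup.mk L = FreeGroup.of a * s := by rw [h1, mul_inv_cancel_left]
          rw [h2, hD] at ih'
          have h3 : D (FreeGroup.of a) (MonoidAlgebra.of K (FreeGroup α) s •
              (Submodule.Quotient.mk 1 : GA K α ⧸ I)) = 0 := by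
            change D (FreeGroup.of a) (U s • _) = 0
            rw [hact, hψ a _ hsT, if_neg]
            rintro ⟨rfl, h4⟩
            apply hxt
            rw [← h4, ← h2]
            exact hs'
          rw [h3, add_zero] at ih'
          have h5 := congrArg (fun z => U (FreeGroup.of a)⁻¹ * z) ih'
          simp only [smul_eq_mul, mul_zero] at h5
          rw [← mul_assoc] at h5
          change U (FreeGroup.of a)⁻¹ * U (FreeGroup.of a) * _ = 0 at h5
          rw [hUinv, one_mul] at h5
          exact h5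
    refine ⟨φ, ?_⟩
    rintro ⟨⟨y, s⟩, hsT, hys⟩
    simp only at hsT hys
    rw [hφ]
    have h1 : ∀ c : FreeGroup α →₀ K, (c.sum fun g a => a • D g (Submodule.Quotient.mk 1)) =
        Finsupp.linearCombination K (fun g => D g (Submodule.Quotient.mk 1)) c := fun c =>
      (Finsupp.linearCombination_apply K c).symm
    rw [h1]
    have h2 : ((r ⟨(y, s), hsT, hys⟩ : I) : GA K α).coeff =
        Finsupp.single (FreeGroup.of y * s) 1 - ρ (FreeGroup.of y * s) := rfl
    rw [h2, map_sub, Finsupp.linearCombination_single, one_smul]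
    have h3 : Finsupp.linearCombination K (fun g => D g (Submodule.Quotient.mk 1))
        (ρ (FreeGroup.of y * s)) = 0 := by
      rw [Finsupp.linearCombination_apply]
      refine Finset.sum_eq_zero fun g hg => ?_
      simp only
      rw [hD0 _ g rfl (hρT _ hg), smul_zero]
    rw [h3, sub_zero, hD, hD0 _ s rfl hsT, smul_zero, zero_add]
    change D (FreeGroup.of y) (U s • _) = _
    rw [hact, hψ y s hsT]
    congr 1
    rw [Subtype.mk.injEq, Prod.mk.injEq]
  have hli : LinearIndependent (GA K α) r := by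
    rw [linearIndependent_iff]
    intro l hl
    ext1 p
    obtain ⟨φ, hφ⟩ := hfun p
    have h1 := congrArg φ hl
    rw [Finsupp.linearCombination_apply, Finsupp.sum, map_sum, map_zero] at h1
    simp only [map_smul, hφ, smul_eq_mul, mul_ite, mul_one, mul_zero] at h1
    rw [Finset.sum_ite_eq'] at h1
    by_cases hp : p ∈ l.support
    · rw [if_pos hp] at h1
      exact h1
    · exact Finsupp.notMem_support_iff.1 hp
  exact ⟨ι, ⟨Module.Basis.mk hli hsp⟩⟩

end PrimRank
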