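import Pool.Agent.Lib.MP_b8b21d_al.B3

/-!
PROOF. (→) Let `s, b` be the basis with `f ∈ s`; `φ = b.coord ⟨f, _⟩`.
(←) Let `φ f = 1` and `N = ker φ`, a submodule of `I`. Its image in `GA` is a left ideal, so by
`left_ideal_free` `N` has a basis `c : ι → N`. The family `Option ι → I`, `none ↦ f`, `some i ↦ c i` is a
basis of `I`: every `g = φ(g) f + (g - φ(g) f)` with the second term in `N`; independence: apply `φ`.
Take `s` = its range and reindex the basis by the range (`Module.Basis.reindexRange` or
`Equiv.ofInjective`); a basis is injective as `GA` is nontrivial.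
-/

namespace PrimRank

/-- An element of a left ideal is primitive if and only if it is unimodular. -/
theorem isPrimitiveIn_iff {K : Type*} [Field K] {α : Type} (I : Submodule (GA K α) (GA K α))
    (f : I) : IsPrimitiveIn (GA K α) f ↔ ∃ φ : I →ₗ[GA K α] GA K α, φ f = 1 := by
  constructor
  · rintro ⟨s, b, hb, hf⟩
    refine ⟨b.coord ⟨f, hf⟩, ?_⟩
    have h1 : b ⟨f, hf⟩ = f := hb ⟨f, hf⟩
    have h2 : b.coord ⟨f, hf⟩ (b ⟨f, hf⟩) = 1 := by
      rw [Module.Basis.coord_apply, Module.Basis.repr_self, Finsupp.single_eq_same]
    rwa [h1] at h2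
  · rintro ⟨φ, hφ⟩
    obtain ⟨ι, ⟨c'⟩⟩ := left_ideal_free ((LinearMap.ker φ).map I.subtype)
    let c : Module.Basis ι (GA K α) (LinearMap.ker φ) :=
      c'.map (Submodule.equivMapOfInjective I.subtype I.injective_subtype (LinearMap.ker φ)).symm
    have hk : ∀ g : I, g - φ g • f ∈ LinearMap.ker φ := by
      intro g
      rw [LinearMap.mem_ker, map_sub, map_smul, hφ, smul_eq_mul, mul_one, sub_self]
    let e : (GA K α × LinearMap.ker φ) ≃ₗ[GA K α] I :=
      { toFun := fun p => p.1 • f + (p.2 : I)
        invFun := fun g => (φ g, ⟨g - φ g • f, hk g⟩)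
        map_add' := by
          intro p q
          simp only [Prod.fst_add, Prod.snd_add, Submodule.coe_add, add_smul]
          abel
        map_smul' := by
          intro a p
          simp only [Prod.smul_fst, Prod.smul_snd, Submodule.coe_smul, smul_eq_mul, mul_smul,
            smul_add, RingHom.id_apply]
        left_inv := by
          rintro ⟨a, g, hg⟩
          have h1 : φ (a • f + g) = a := by
            rw [map_add, map_smul, hφ, LinearMap.mem_ker.1 hg, smul_eq_mul, mul_one, add_zero]
          refine Prod.ext h1 (Subtype.ext ?_)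
          show a • f + g - φ (a • f + g) • f = g
          rw [h1, add_sub_cancel_left]
        right_inv := by
          intro g
          show φ g • f + (g - φ g • f) = g
          rw [add_sub_cancel] }
    let b0 : Module.Basis (Unit ⊕ ι) (GA K α) I :=
      ((Module.Basis.singleton Unit (GA K α)).prod c).map e
    have hb0 : b0 (Sum.inl ()) = f := by
      show e (((Module.Basis.singleton Unit (GA K α)).prod c) (Sum.inl ())) = f
      have h2 : ((Module.Basis.singleton Unit (GA K α)).prod c) (Sum.inl ()) = (1, 0) := by
        refine Prod.ext ?_ ?_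
        · rw [Module.Basis.prod_apply_inl_fst, Module.Basis.singleton_apply]
        · rw [Module.Basis.prod_apply_inl_snd]
      rw [h2]
      show (1 : GA K α) • f + ((0 : LinearMap.ker φ) : I) = f
      rw [one_smul, Submodule.coe_zero, add_zero]
    exact ⟨Set.range b0, b0.reindexRange, fun x => b0.reindexRange_apply x,
      ⟨Sum.inl (), hb0⟩⟩

end PrimRank
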