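import Pool.Agent.Lib.MP_b8b21d_al.B1

/-!
PROOF. `M = GA ⧸ I`, `v0 = mkQ 1 ≠ 0` (as `I ≠ ⊤`). Write `ι₁ = gmap K (FreeGroup.map Sum.inl)` and
let `p₁ : GA K α →ₗ[K] M`, `p₁ f = ι₁ f • v0`; its kernel is `J₁`. Choose `K`-linear `s₁ : M → GA K α` with
`p₁ (s₁ (p₁ f)) = p₁ f` for all `f` (vector spaces) and `s₁ v0 = 1`: take any `s'` with the first property
and a linear `ε : M → K` with `ε v0 = 1`, and `s₁ m = s' m + ε m • (1 - s' v0)`; note `1 - s' v0 ∈ J₁`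
because `p₁ 1 = v0`. Let `q₁ = p₁ ∘ s₁ : M → M` (identity on the range of `p₁`, range in the range of
`p₁`). For a generator `x : α` put `ψ (inl x) m = φ₁ ⟨of x * s₁ (q₁ m) - s₁ (of (inl x) • q₁ m), _⟩`
(the element is in `J₁`: apply `p₁`: `x • q₁ m - x • q₁ m`). The same for `inr`. Take `D` from
`exists_D`, `Φ` from `exists_functional`. Claim: for all `g : FreeGroup α`
`D (map inl g) v0 = φ₁ ⟨of g - s₁ (of (map inl g) • v0), _⟩`. Induction on `g` (letters on the left):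
`g = 1`: `φ₁ (1 - s₁ v0) = 0`. `x g`: `D (x g) v0 = x • D g v0 + ψ x (g v0)`
`= x φ₁ (g - s₁ (g v0)) + φ₁ (x s₁ (g v0) - s₁ (x g v0)) = φ₁ (x g - s₁ (x g v0))` (semilinearity;
`q₁ (g v0) = g v0`). `x⁻¹ g`: put `g' = x⁻¹ g`, use `D g v0 = x • D g' v0 + ψ x (g' v0)` and solve.
By linearity, for `f ∈ J₁`: `Φ (ι₁ f) = ∑ f(g) D (map inl g) v0 = φ₁ ⟨f - s₁ (p₁ f), _⟩ = φ₁ ⟨f, _⟩`, as
`p₁ f = 0`. (Work with the additive extension of `φ₁` to be able to add up: e.g. the `K`-linear map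
`f ↦ φ₁ ⟨f - s₁ (p₁ f), _⟩` on `GA K α`, and compare the two linear maps on the basis `of g`.
`φ₁` is `K`-linear since `ι₁ (c • 1) = c • 1`.)
-/

namespace PrimRank

private theorem C1_map_of {K : Type*} [Field K] {α γ : Type} (j : FreeGroup α →* FreeGroup γ)
    (g : FreeGroup α) :
    gmap K j (MonoidAlgebra.of K _ g) = MonoidAlgebra.of K _ (j g) := by
  simp [gmap, MonoidAlgebra.of_apply]

private theorem C1_side {K : Type*} [Field K] {α γ : Type} (j : FreeGroup α →* FreeGroup γ)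
    (I : Submodule (GA K γ) (GA K γ)) (hI : I ≠ ⊤)
    (J : Submodule (GA K α) (GA K α)) (hJ : ∀ f, f ∈ J ↔ gmap K j f ∈ I)
    {L : Type*} [AddCommGroup L] [Module K L] [Module (GA K γ) L] [IsScalarTower K (GA K γ) L]
    (φ : J →ₛₗ[(gmap K j : GA K α →+* GA K γ)] L) :
    ∃ ψ : α → (GA K γ ⧸ I) →ₗ[K] L, ∀ D : FreeGroup γ → (GA K γ ⧸ I) →ₗ[K] L, D 1 = 0 →
      (∀ (g h : FreeGroup γ) (m : GA K γ ⧸ I), D (g * h) m =
        MonoidAlgebra.of K (FreeGroup γ) g • D h m +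
          D g (MonoidAlgebra.of K (FreeGroup γ) h • m)) →
      (∀ x, D (j (FreeGroup.of x)) = ψ x) →
      ∀ (f : GA K α) (hf : f ∈ J),
        (gmap K j f).coeff.sum (fun g c => c • D g (I.mkQ 1)) = φ ⟨f, hf⟩ := by
  classical
  have hv0ne : (I.mkQ 1 : GA K γ ⧸ I) ≠ 0 := by
    intro h
    apply hI
    rw [Ideal.eq_top_iff_one]
    exact (Submodule.Quotient.mk_eq_zero I).1 h
  generalize hv0 : (I.mkQ 1 : GA K γ ⧸ I) = v0 at hv0ne
  let p : GA K α →ₗ[K] GA K γ ⧸ I := (I.mkQ.restrictScalars K).comp (gmap K j).toLinearMap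
  have hp : ∀ f, p f = I.mkQ (gmap K j f) := fun f => rfl
  have hpmul : ∀ (a : FreeGroup α) (f : GA K α),
      p (MonoidAlgebra.of K _ a * f) = MonoidAlgebra.of K _ (j a) • p f := by
    intro a f
    rw [hp, map_mul, C1_map_of, ← smul_eq_mul, map_smul, hp]
  have hpJ : ∀ f, p f = 0 ↔ f ∈ J := fun f => by
    rw [hp, hJ]
    exact Submodule.Quotient.mk_eq_zero I
  have hp1 : p 1 = v0 := by rw [hp, map_one, hv0]
  have hpof : ∀ g, MonoidAlgebra.of K _ (j g) • v0 = p (MonoidAlgebra.of K _ g) := by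
    intro g
    rw [← hp1, ← hpmul, mul_one]
  obtain ⟨s', hs'⟩ : ∃ s' : GA K γ ⧸ I →ₗ[K] GA K α, ∀ f, p (s' (p f)) = p f := by
    obtain ⟨g0, hg0⟩ := p.rangeRestrict.exists_rightInverse_of_surjective p.range_rangeRestrict
    obtain ⟨g1, hg1⟩ := g0.exists_extend
    refine ⟨g1, fun f => ?_⟩
    have h1 : g1 (p f) = g0 ⟨p f, LinearMap.mem_range_self p f⟩ := by
      rw [← hg1]
      rfl
    have h2 := LinearMap.congr_fun hg0 ⟨p f, LinearMap.mem_range_self p f⟩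
    rw [h1]
    exact congrArg Subtype.val h2
  obtain ⟨ε, hε⟩ : ∃ ε : GA K γ ⧸ I →ₗ[K] K, ε v0 = 1 := by
    obtain ⟨g, hg⟩ := (LinearMap.toSpanSingleton K (GA K γ ⧸ I) v0).exists_leftInverse_of_injective
      (LinearMap.ker_toSpanSingleton K hv0ne)
    refine ⟨g, ?_⟩
    have := LinearMap.congr_fun hg 1
    simpa using this
  let s : GA K γ ⧸ I →ₗ[K] GA K α := s' + ε.smulRight (1 - s' v0)
  have hsdef : ∀ m, s m = s' m + ε m • (1 - s' v0) := fun m => rfl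
  have hs : ∀ f, p (s (p f)) = p f := by
    intro f
    have h0 : p (s' v0) = v0 := by rw [← hp1, hs']
    rw [hsdef, map_add, map_smul, map_sub, hs', hp1, h0, sub_self, smul_zero, add_zero]
  have hs1 : s v0 = 1 := by rw [hsdef, hε, one_smul]; abel
  have hsJ : ∀ f, f - s (p f) ∈ J := by
    intro f
    rw [← hpJ, map_sub, hs, sub_self]
  let φK : J.restrictScalars K →ₗ[K] L :=
    { toFun := fun f => φ ⟨f.1, f.2⟩
      map_add' := fun f g => φ.map_add ⟨f.1, f.2⟩ ⟨g.1, g.2⟩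
      map_smul' := fun c f => by
        have h1 : (⟨(c • f : J.restrictScalars K).1, (c • f : J.restrictScalars K).2⟩ : J) =
            (c • (1 : GA K α)) • (⟨f.1, f.2⟩ : J) := by
          apply Subtype.ext
          show c • f.1 = (c • (1 : GA K α)) • f.1
          rw [smul_assoc, one_smul]
        rw [h1, φ.map_smulₛₗ]
        show gmap K j (c • (1 : GA K α)) • φ ⟨f.1, f.2⟩ = c • φ ⟨f.1, f.2⟩
        rw [map_smul, map_one, smul_assoc, one_smul] }
  obtain ⟨Ψ, hΨ⟩ := φK.exists_extend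
  have hΨJ : ∀ (f : GA K α) (hf : f ∈ J), Ψ f = φ ⟨f, hf⟩ := by
    intro f hf
    have := LinearMap.congr_fun hΨ ⟨f, hf⟩
    exact this
  have hΨmul : ∀ (a : FreeGroup α) (f : GA K α), f ∈ J →
      Ψ (MonoidAlgebra.of K _ a * f) = MonoidAlgebra.of K _ (j a) • Ψ f := by
    intro a f hf
    have h1 : MonoidAlgebra.of K _ a * f ∈ J := J.smul_mem _ hf
    rw [hΨJ f hf, hΨJ _ h1, ← C1_map_of]
    exact φ.map_smulₛₗ (MonoidAlgebra.of K _ a) ⟨f, hf⟩
  let hh : α → ((GA K γ ⧸ I) →ₗ[K] GA K α) := fun x =>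
    (LinearMap.mulLeft K (MonoidAlgebra.of K _ (FreeGroup.of x))) ∘ₗ s ∘ₗ p ∘ₗ s -
      s ∘ₗ p ∘ₗ (LinearMap.mulLeft K (MonoidAlgebra.of K _ (FreeGroup.of x))) ∘ₗ s
  have hhp : ∀ (x : α) (f : GA K α), hh x (p f) =
      MonoidAlgebra.of K _ (FreeGroup.of x) * s (p f) -
        s (p (MonoidAlgebra.of K _ (FreeGroup.of x) * f)) := by
    intro x f
    show MonoidAlgebra.of K _ (FreeGroup.of x) * s (p (s (p f))) -
      s (p (MonoidAlgebra.of K _ (FreeGroup.of x) * s (p f))) = _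
    rw [hs, hpmul, hs, ← hpmul]
  refine ⟨fun x => Ψ ∘ₗ hh x, fun D hD1 hD hDx => ?_⟩
  -- the recursion
  let E : FreeGroup α → L := fun g => D (j g) v0
  let δ : FreeGroup α → L := fun g => Ψ (MonoidAlgebra.of K _ g - s (p (MonoidAlgebra.of K _ g)))
  have hEmul : ∀ u g, E (u * g) = MonoidAlgebra.of K _ (j u) • E g +
      D (j u) (p (MonoidAlgebra.of K _ g)) := by
    intro u g
    show D (j (u * g)) v0 = _
    rw [map_mul, hD, hpof]
  have hδx : ∀ (x : α) g, δ (FreeGroup.of x * g) = MonoidAlgebra.of K _ (j (FreeGroup.of x)) • δ g +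
      D (j (FreeGroup.of x)) (p (MonoidAlgebra.of K _ g)) := by
    intro x g
    rw [hDx]
    show Ψ (MonoidAlgebra.of K _ (FreeGroup.of x * g) -
      s (p (MonoidAlgebra.of K _ (FreeGroup.of x * g)))) = _ + Ψ (hh x (p (MonoidAlgebra.of K _ g)))
    rw [hhp]
    show _ = MonoidAlgebra.of K _ (j (FreeGroup.of x)) •
      Ψ (MonoidAlgebra.of K _ g - s (p (MonoidAlgebra.of K _ g))) + _
    rw [← hΨmul _ _ (hsJ _), ← map_add, map_mul (MonoidAlgebra.of K (FreeGroup α))]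
    congr 1
    rw [mul_sub]
    abel
  have key : ∀ u g : FreeGroup α, E (u * g) - δ (u * g) =
      MonoidAlgebra.of K _ (j u) • (E g - δ g) := by
    intro u
    induction u using FreeGroup.induction_on with
    | C1 =>
      intro g
      rw [one_mul, map_one, map_one, one_smul]
    | of x =>
      intro g
      rw [hEmul, hδx, smul_sub]
      abel
    | inv_of x ih =>
      intro g
      have h1 := ih ((FreeGroup.of x)⁻¹ * g)
      rw [mul_inv_cancel_left] at h1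
      rw [h1, ← mul_smul, ← map_mul, ← map_mul, inv_mul_cancel, map_one, map_one, one_smul]
    | mul u v hu hv =>
      intro g
      rw [mul_assoc, hu, hv, ← mul_smul, ← map_mul, ← map_mul]
  have hED : ∀ u : FreeGroup α, D (j u) v0 =
      Ψ (MonoidAlgebra.of K _ u - s (p (MonoidAlgebra.of K _ u))) := by
    intro u
    have h1 := key u 1
    have h2 : E 1 = 0 := by
      show D (j 1) v0 = 0
      rw [map_one, hD1]
      rfl
    have h3 : δ 1 = 0 := by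
      show Ψ (MonoidAlgebra.of K _ 1 - s (p (MonoidAlgebra.of K _ 1))) = 0
      rw [map_one, hp1, hs1, sub_self, map_zero]
    rw [h2, h3, sub_zero, smul_zero, mul_one] at h1
    exact sub_eq_zero.1 h1
  -- the linear functional
  let Λ : GA K γ →ₗ[K] L := (Finsupp.lsum K fun g => LinearMap.toSpanSingleton K L (D g v0)) ∘ₗ
    (MonoidAlgebra.coeffLinearEquiv K).toLinearMap
  have hΛ : ∀ h : GA K γ, Λ h = h.coeff.sum (fun g c => c • D g v0) := fun h => rfl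
  have hall : ∀ f : GA K α, Λ (gmap K j f) = Ψ (f - s (p f)) := by
    intro f
    induction f using MonoidAlgebra.induction_linear with
    | zero => simp
    | add f g hf hg =>
      rw [map_add, map_add, hf, hg, ← map_add]
      congr 1
      rw [map_add, map_add]
      abel
    | single g c =>
      have h1 : (MonoidAlgebra.single g c : GA K α) = c • MonoidAlgebra.of K _ g := by
        simp [MonoidAlgebra.of_apply]
      rw [h1, map_smul, map_smul, map_smul, map_smul, ← smul_sub, map_smul, ← hED, C1_map_of]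
      congr 1
      rw [hΛ]
      simp [MonoidAlgebra.of_apply]
  intro f hf
  rw [← hΛ, hall, (hpJ f).2 hf, map_zero, sub_zero, hΨJ f hf]

/-- Extension of functionals from the two factors of a free product. -/
theorem ext2 {K : Type*} [Field K] {α β : Type}
    (I : Submodule (GA K (α ⊕ β)) (GA K (α ⊕ β))) (hI : I ≠ ⊤)
    (J₁ : Submodule (GA K α) (GA K α)) (J₂ : Submodule (GA K β) (GA K β))
    (hJ₁ : ∀ f, f ∈ J₁ ↔ gmap K (FreeGroup.map Sum.inl) f ∈ I)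
    (hJ₂ : ∀ f, f ∈ J₂ ↔ gmap K (FreeGroup.map Sum.inr) f ∈ I)
    {L : Type*} [AddCommGroup L] [Module K L] [Module (GA K (α ⊕ β)) L]
    [IsScalarTower K (GA K (α ⊕ β)) L]
    (φ₁ : J₁ →ₛₗ[(gmap K (FreeGroup.map (Sum.inl : α → α ⊕ β)) : GA K α →+* GA K (α ⊕ β))] L)
    (φ₂ : J₂ →ₛₗ[(gmap K (FreeGroup.map (Sum.inr : β → α ⊕ β)) : GA K β →+* GA K (α ⊕ β))] L) :
    ∃ Φ : I →ₗ[GA K (α ⊕ β)] L,
      (∀ (f : GA K α) (hf : f ∈ J₁),
        Φ ⟨gmap K (FreeGroup.map Sum.inl) f, (hJ₁ f).1 hf⟩ = φ₁ ⟨f, hf⟩) ∧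
      (∀ (f : GA K β) (hf : f ∈ J₂),
        Φ ⟨gmap K (FreeGroup.map Sum.inr) f, (hJ₂ f).1 hf⟩ = φ₂ ⟨f, hf⟩) := by
  obtain ⟨ψ₁, h₁⟩ := C1_side (FreeGroup.map (Sum.inl : α → α ⊕ β)) I hI J₁ hJ₁ φ₁
  obtain ⟨ψ₂, h₂⟩ := C1_side (FreeGroup.map (Sum.inr : β → α ⊕ β)) I hI J₂ hJ₂ φ₂
  obtain ⟨D, hD1, hD, hDx⟩ := exists_D (K := K) (M := GA K (α ⊕ β) ⧸ I) (L := L) (Sum.elim ψ₁ ψ₂)
  obtain ⟨Φ, hΦ⟩ := exists_functional D hD (I.mkQ 1) I (fun f hf => by
    rw [← map_smul, smul_eq_mul, mul_one]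
    exact (Submodule.Quotient.mk_eq_zero I).2 hf)
  refine ⟨Φ, fun f hf => ?_, fun f hf => ?_⟩
  · rw [hΦ]
    exact h₁ D hD1 hD (fun x => by rw [FreeGroup.map.of, hDx]; rfl) f hf
  · rw [hΦ]
    exact h₂ D hD1 hD (fun x => by rw [FreeGroup.map.of, hDx]; rfl) f hf

end PrimRank
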