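import Pool.Agent.Lib.MP_b8b21d_al.B3
import Pool.Agent.Lib.MP_b8b21d_al.C1

/-!
PROOF. `J₁`, `J₂` are free by `left_ideal_free`: bases `b₁ : ι₁ → J₁`, `b₂ : ι₂ → J₂`. Let `S₁ ⊆ ι₁`,
`S₂ ⊆ ι₂` be finite subsets. Let `L = (S₁ ⊕ S₂) → GA K (α ⊕ β)` and let `φ₁ : J₁ →ₛₗ L` be
`f ↦` (the image under `gmap` of the `S₁`-coordinates of `f` in `b₁`, and `0` on `S₂`), same for `φ₂`.
`ext2` gives `Φ : I →ₗ L` which maps (the image of) `b₁ i`, `i ∈ S₁`, to the `i`-th unit vector, same for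
`b₂`. So `Φ` is surjective, and with `b` we get a surjection `(Fin m → A) →ₗ[A] (S₁ ⊕ S₂ → A)`,
`A = GA K (α ⊕ β)`. Then `card S₁ + card S₂ ≤ m`: `A` satisfies the rank condition, as it has a ring
homomorphism to the field `K` (augmentation `ε`, e.g. `MonoidAlgebra.lift K ...` of the trivial hom):
a surjection is given by vectors `z_i ∈ A^N` (i < m) which generate `A^N`; apply `ε`: the `m` vectors
`ε z_i` generate `K^N`, so `N ≤ m`. (Write unit vector `e_j = ∑ a_ji z_i` and apply `ε`.)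
Hence `ι₁`, `ι₂` are finite with `card ι₁ + card ι₂ ≤ m`; reindex by `Fin`.
-/

namespace PrimRank

/-- The rank condition from a ring homomorphism to a field. -/
theorem C2_card_le {A K : Type*} [Ring A] [Field K] (ε : A →+* K) {m : ℕ} {N : Type*} [Fintype N]
    [DecidableEq N] (F : (Fin m → A) →ₗ[A] (N → A)) (hF : ∀ y, ∃ x, F x = y) :
    Fintype.card N ≤ m := by
  choose a ha using fun j : N => hF (Pi.single j 1)
  let Z : Matrix (Fin m) N K := fun i n => ε (F (Pi.single i 1) n)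
  let Q : Matrix N (Fin m) K := fun j i => ε (a j i)
  have h1 : Q * Z = 1 := by
    ext j n
    rw [Matrix.mul_apply]
    have h2 : F (a j) n = ∑ i, a j i * F (Pi.single i 1) n := by
      conv_lhs => rw [pi_eq_sum_univ' (a j)]
      rw [map_sum, Finset.sum_apply]
      refine Finset.sum_congr rfl fun i _ => ?_
      rw [map_smul, Pi.smul_apply, smul_eq_mul]
    have h3 : ∑ i, Q j i * Z i n = ε (F (a j) n) := by
      rw [h2, map_sum]
      exact Finset.sum_congr rfl fun i _ => (map_mul ε _ _).symm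
    rw [h3, ha, Matrix.one_apply, Pi.single_apply]
    by_cases h : n = j
    · rw [if_pos h, if_pos h.symm, map_one]
    · rw [if_neg h, if_neg (Ne.symm h), map_zero]
  calc Fintype.card N = (1 : Matrix N N K).rank := Matrix.rank_one.symm
    _ = (Q * Z).rank := by rw [h1]
    _ ≤ Z.rank := Matrix.rank_mul_le_right Q Z
    _ ≤ Fintype.card (Fin m) := Z.rank_le_card_height
    _ = m := Fintype.card_fin m

/-- The first functional. -/
noncomputable def C2_phi1 (K : Type*) [Field K] {α β ι₁ ι₂ : Type}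
    (J₁ : Submodule (GA K α) (GA K α)) (b₁ : Module.Basis ι₁ (GA K α) J₁)
    (S₁ : Finset ι₁) (S₂ : Finset ι₂) :
    J₁ →ₛₗ[(gmap K (FreeGroup.map (Sum.inl : α → α ⊕ β)) : GA K α →+* GA K (α ⊕ β))]
      ((S₁ ⊕ S₂) → GA K (α ⊕ β)) where
  toFun f := Sum.elim (fun i => gmap K (FreeGroup.map Sum.inl) (b₁.repr f i)) fun _ => 0
  map_add' f g := by
    funext j
    rcases j with j | j
    · change gmap K (FreeGroup.map Sum.inl) (b₁.repr (f + g) j) =
        gmap K (FreeGroup.map Sum.inl) (b₁.repr f j) + gmap K (FreeGroup.map Sum.inl) (b₁.repr g j)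
      rw [map_add, Finsupp.add_apply, map_add]
    · simp
  map_smul' c f := by
    funext j
    rcases j with j | j
    · change gmap K (FreeGroup.map Sum.inl) (b₁.repr (c • f) j) =
        gmap K (FreeGroup.map Sum.inl) c * gmap K (FreeGroup.map Sum.inl) (b₁.repr f j)
      rw [map_smul, Finsupp.smul_apply, smul_eq_mul, map_mul]
    · simp

/-- The second functional. -/
noncomputable def C2_phi2 (K : Type*) [Field K] {α β ι₁ ι₂ : Type}
    (J₂ : Submodule (GA K β) (GA K β)) (b₂ : Module.Basis ι₂ (GA K β) J₂)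
    (S₁ : Finset ι₁) (S₂ : Finset ι₂) :
    J₂ →ₛₗ[(gmap K (FreeGroup.map (Sum.inr : β → α ⊕ β)) : GA K β →+* GA K (α ⊕ β))]
      ((S₁ ⊕ S₂) → GA K (α ⊕ β)) where
  toFun f := Sum.elim (fun _ => 0) fun i => gmap K (FreeGroup.map Sum.inr) (b₂.repr f i)
  map_add' f g := by
    funext j
    rcases j with j | j
    · simp
    · change gmap K (FreeGroup.map Sum.inr) (b₂.repr (f + g) j) =
        gmap K (FreeGroup.map Sum.inr) (b₂.repr f j) + gmap K (FreeGroup.map Sum.inr) (b₂.repr g j)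
      rw [map_add, Finsupp.add_apply, map_add]
  map_smul' c f := by
    funext j
    rcases j with j | j
    · simp
    · change gmap K (FreeGroup.map Sum.inr) (b₂.repr (c • f) j) =
        gmap K (FreeGroup.map Sum.inr) c * gmap K (FreeGroup.map Sum.inr) (b₂.repr f j)
      rw [map_smul, Finsupp.smul_apply, smul_eq_mul, map_mul]

theorem C2_phi1_basis (K : Type*) [Field K] {α β ι₁ ι₂ : Type} [DecidableEq ι₁] [DecidableEq ι₂]
    (J₁ : Submodule (GA K α) (GA K α)) (b₁ : Module.Basis ι₁ (GA K α) J₁)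
    (S₁ : Finset ι₁) (S₂ : Finset ι₂) (j : S₁) :
    C2_phi1 (β := β) K J₁ b₁ S₁ S₂ (b₁ j) = Pi.single (Sum.inl j) 1 := by
  funext l
  rcases l with l | l
  · by_cases h : l = j
    · subst h
      simp [C2_phi1]
    · have h3 : ¬ j = l := fun e => h e.symm
      simp [C2_phi1, h, h3, Finsupp.single_apply]
  · simp [C2_phi1]

theorem C2_phi2_basis (K : Type*) [Field K] {α β ι₁ ι₂ : Type} [DecidableEq ι₁] [DecidableEq ι₂]
    (J₂ : Submodule (GA K β) (GA K β)) (b₂ : Module.Basis ι₂ (GA K β) J₂)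
    (S₁ : Finset ι₁) (S₂ : Finset ι₂) (j : S₂) :
    C2_phi2 (α := α) K J₂ b₂ S₁ S₂ (b₂ j) = Pi.single (Sum.inr j) 1 := by
  funext l
  rcases l with l | l
  · simp [C2_phi2]
  · by_cases h : l = j
    · subst h
      simp [C2_phi2]
    · have h3 : ¬ j = l := fun e => h e.symm
      simp [C2_phi2, h, h3, Finsupp.single_apply]

/-- The ranks of the two contracted ideals add up to at most the rank of `I`. -/
theorem rank_add_le {K : Type*} [Field K] {α β : Type}
    (I : Submodule (GA K (α ⊕ β)) (GA K (α ⊕ β))) (hI : I ≠ ⊤)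
    (J₁ : Submodule (GA K α) (GA K α)) (J₂ : Submodule (GA K β) (GA K β))
    (hJ₁ : ∀ f, f ∈ J₁ ↔ gmap K (FreeGroup.map Sum.inl) f ∈ I)
    (hJ₂ : ∀ f, f ∈ J₂ ↔ gmap K (FreeGroup.map Sum.inr) f ∈ I)
    (m : ℕ) (b : Module.Basis (Fin m) (GA K (α ⊕ β)) I) :
    ∃ k₁ k₂ : ℕ, k₁ + k₂ ≤ m ∧ Nonempty (Module.Basis (Fin k₁) (GA K α) J₁) ∧
      Nonempty (Module.Basis (Fin k₂) (GA K β) J₂) := by
  classical
  obtain ⟨ι₁, ⟨b₁⟩⟩ := left_ideal_free J₁
  obtain ⟨ι₂, ⟨b₂⟩⟩ := left_ideal_free J₂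
  have key : ∀ (S₁ : Finset ι₁) (S₂ : Finset ι₂), S₁.card + S₂.card ≤ m := by
    intro S₁ S₂
    obtain ⟨Φ, hΦ₁, hΦ₂⟩ := ext2 I hI J₁ J₂ hJ₁ hJ₂ (C2_phi1 K J₁ b₁ S₁ S₂) (C2_phi2 K J₂ b₂ S₁ S₂)
    have hsurj : ∀ y : (S₁ ⊕ S₂) → GA K (α ⊕ β), ∃ x, Φ x = y := by
      have h1 : ∀ j : S₁ ⊕ S₂, ∃ x, Φ x = Pi.single j 1 := by
        rintro (j | j)
        · refine ⟨⟨gmap K (FreeGroup.map Sum.inl) (b₁ j : GA K α), (hJ₁ _).1 (b₁ j).2⟩, ?_⟩
          rw [hΦ₁ _ (b₁ j).2]
          exact C2_phi1_basis K J₁ b₁ S₁ S₂ j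
        · refine ⟨⟨gmap K (FreeGroup.map Sum.inr) (b₂ j : GA K β), (hJ₂ _).1 (b₂ j).2⟩, ?_⟩
          rw [hΦ₂ _ (b₂ j).2]
          exact C2_phi2_basis K J₂ b₂ S₁ S₂ j
      choose g hg using h1
      intro y
      refine ⟨∑ j, y j • g j, ?_⟩
      rw [map_sum]
      simp_rw [map_smul, hg]
      funext l
      rw [Finset.sum_apply]
      simp only [Pi.smul_apply, smul_eq_mul, Pi.single_apply, mul_ite, mul_one, mul_zero]
      rw [Finset.sum_ite_eq]
      simp
    have h2 := C2_card_le (MonoidAlgebra.lift K K (FreeGroup (α ⊕ β)) 1 :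
      GA K (α ⊕ β) →ₐ[K] K).toRingHom (Φ.comp b.equivFun.symm.toLinearMap) (by
        intro y
        obtain ⟨x, hx⟩ := hsurj y
        exact ⟨b.equivFun x, by simp [hx]⟩)
    simpa using h2
  have hf₁ : Finite ι₁ := by
    by_contra h
    rw [not_finite_iff_infinite] at h
    obtain ⟨S, hS⟩ := Infinite.exists_subset_card_eq ι₁ (m + 1)
    have := key S ∅
    simp at this
    omega
  have hf₂ : Finite ι₂ := by
    by_contra h
    rw [not_finite_iff_infinite] at h
    obtain ⟨S, hS⟩ := Infinite.exists_subset_card_eq ι₂ (m + 1)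
    have := key ∅ S
    simp at this
    omega
  have i₁ := Fintype.ofFinite ι₁
  have i₂ := Fintype.ofFinite ι₂
  refine ⟨Fintype.card ι₁, Fintype.card ι₂, ?_, ⟨b₁.reindex (Fintype.equivFin ι₁)⟩,
    ⟨b₂.reindex (Fintype.equivFin ι₂)⟩⟩
  exact key Finset.univ Finset.univ

end PrimRank
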