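import Pool.Agent.Lib.MP_b8b21d_al.C2

/-!
PROOF. Let `A = GA K (α ⊕ β)`, `c ≠ 0`, `I ≠ ⊤` with a basis on `Fin m`, `m < n₁ + n₂`,
`u v - c ∈ I` (write `u, v` also for their images). `M = A ⧸ I`, `v0 = mkQ 1 ≠ 0`, so `u v v0 = c v0`. Put
`z = v v0 ∈ M`, so `u z = c v0` and `z ≠ 0`.
CASE B: `z` is not a scalar multiple of `v0`. Choose `K`-linear `λ : M → A` with `λ v0 = 0`,
`λ z = - of u⁻¹`. Let `ψ (inl x) = 0`, `ψ (inr y) m = of y • λ m - λ (of y • m)`, `D` from `exists_D`,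
`φ` from `exists_functional`. By induction on `g : FreeGroup β`:
`D (map inr g) m = of g • λ m - λ (of g • m)` for all `m`, and on `g : FreeGroup α`: `D (map inl g) m = 0`.
So `φ (u v - c) = D (u v) v0 - c D 1 v0 = u • D v v0 + D u (v v0) = u (v λ(v0) - λ (z)) = 1`.
CASE A: `z = μ v0`, `μ ≠ 0`; then `u v0 = ν v0`, `ν = c μ⁻¹ ≠ 0`. Let `J₁ = {f | gmap inl f ∈ I}`
(`Submodule.comap` style), `J₂` likewise; they are proper (`1 ∉ I`), `u - ν ∈ J₁`, `v - μ ∈ J₂`.
`rank_add_le`: bases of sizes `k₁ + k₂ ≤ m < n₁ + n₂`, so `k₁ < n₁` or `k₂ < n₂`.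
If `k₁ < n₁`: `hu` gives `φ₀ : J₁ → GA K α` with `φ₀ (u - ν) = 1`; let `φ₁ = gmap inl ∘ φ₀` (semilinear),
`φ₂ = 0`, and `Φ` from `ext2` (`L = A`): `Φ (u v - c) = Φ (u (v - μ) + μ (u - ν)) = 0 + μ`; use
`μ⁻¹ • Φ` (multiply the functional by the scalar, i.e. compose with right multiplication by `μ⁻¹ • 1`).
If `k₂ < n₂`: `Φ (u v - c) = u`; compose `Φ` with right multiplication by `u⁻¹`.
-/

namespace PrimRank

private theorem C3_agree {γ δ : Type} {K : Type*} [Field K] {M L : Type*}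
    [AddCommGroup M] [Module (GA K δ) M] [AddCommGroup L] [Module (GA K δ) L]
    (j : FreeGroup γ →* FreeGroup δ) (D E : FreeGroup δ → M → L)
    (hD : ∀ (g h : FreeGroup δ) (m : M), D (g * h) m =
      MonoidAlgebra.of K (FreeGroup δ) g • D h m + D g (MonoidAlgebra.of K (FreeGroup δ) h • m))
    (hE : ∀ (g h : FreeGroup δ) (m : M), E (g * h) m =
      MonoidAlgebra.of K (FreeGroup δ) g • E h m + E g (MonoidAlgebra.of K (FreeGroup δ) h • m))
    (hgen : ∀ y m, D (j (FreeGroup.of y)) m = E (j (FreeGroup.of y)) m) :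
    ∀ g m, D (j g) m = E (j g) m := by
  have hone : ∀ (C : FreeGroup δ → M → L), (∀ (g h : FreeGroup δ) (m : M), C (g * h) m =
      MonoidAlgebra.of K (FreeGroup δ) g • C h m + C g (MonoidAlgebra.of K (FreeGroup δ) h • m)) →
      ∀ m, C 1 m = 0 := by
    intro C hC m
    have h := hC 1 1 m
    rw [mul_one, map_one, one_smul, one_smul] at h
    simpa using h
  intro g
  induction g using FreeGroup.induction_on with
  | C1 => intro m; rw [map_one, hone D hD, hone E hE]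
  | of y => exact hgen y
  | inv_of y ih =>
    intro m
    have key : ∀ (C : FreeGroup δ → M → L), (∀ (g h : FreeGroup δ) (m : M), C (g * h) m =
      MonoidAlgebra.of K (FreeGroup δ) g • C h m + C g (MonoidAlgebra.of K (FreeGroup δ) h • m)) →
      ∀ g m, C g⁻¹ m = - (MonoidAlgebra.of K (FreeGroup δ) g⁻¹ •
        C g (MonoidAlgebra.of K (FreeGroup δ) g⁻¹ • m)) := by
      intro C hC g m
      have h := hC g⁻¹ g (MonoidAlgebra.of K (FreeGroup δ) g⁻¹ • m)
      rw [inv_mul_cancel, hone C hC, smul_smul, ← map_mul, mul_inv_cancel, map_one, one_smul] at h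
      rw [eq_neg_iff_add_eq_zero, add_comm]
      exact h.symm
    rw [map_inv, key D hD, key E hE, ih]
  | mul x y hx hy =>
    intro m
    rw [map_mul, hD, hE, hx, hy]

private theorem C3_sum {K : Type*} [Field K] {δ : Type} {L : Type*}
    [AddCommGroup L] [Module K L] (F : FreeGroup δ → L) (g : FreeGroup δ) (c : K) :
    ((MonoidAlgebra.of K (FreeGroup δ) g - c • (1 : GA K δ)).coeff.sum fun g c => c • F g) =
      F g - c • F 1 := by
  have h1 : (MonoidAlgebra.of K (FreeGroup δ) g - c • (1 : GA K δ)).coeff =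
      Finsupp.single g 1 - Finsupp.single 1 c := by
    rw [MonoidAlgebra.coeff_sub, MonoidAlgebra.coeff_smul]
    congr 1
    · simp [MonoidAlgebra.one_def]
  rw [h1, Finsupp.sum_sub_index (fun a b₁ b₂ => sub_smul _ _ _), Finsupp.sum_single_index (by simp),
    Finsupp.sum_single_index (by simp), one_smul]

/-- The lower bounds add up in free products. -/
theorem LB_mul {K : Type*} [Field K] {α β : Type} {u : FreeGroup α} {v : FreeGroup β} {n₁ n₂ : ℕ}
    (hu : LB K u n₁) (hv : LB K v n₂) :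
    LB K (FreeGroup.map Sum.inl u * FreeGroup.map Sum.inr v : FreeGroup (α ⊕ β)) (n₁ + n₂) := by
  intro c hc I hI m hm ⟨b⟩ hw
  have hv0 : I.mkQ 1 ≠ 0 := by
    rw [Submodule.mkQ_apply, Ne, Submodule.Quotient.mk_eq_zero]
    intro h
    exact hI ((Ideal.eq_top_iff_one I).2 h)
  have hsm : ∀ f : GA K (α ⊕ β), f • I.mkQ 1 = I.mkQ f := by
    intro f
    rw [← map_smul, smul_eq_mul, mul_one]
  have hmem : ∀ f : GA K (α ⊕ β), f ∈ I ↔ f • I.mkQ 1 = 0 := by
    intro f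
    rw [hsm, Submodule.mkQ_apply, Submodule.Quotient.mk_eq_zero]
  have hKs : ∀ (c : K) (x : (GA K (α ⊕ β)) ⧸ I), (c • (1 : GA K (α ⊕ β))) • x = c • x := by
    intro c x
    rw [smul_assoc, one_smul]
  set v0 := I.mkQ 1 with hv0d
  set U : FreeGroup (α ⊕ β) := FreeGroup.map Sum.inl u with hU
  set V : FreeGroup (α ⊕ β) := FreeGroup.map Sum.inr v with hV
  have hUV : MonoidAlgebra.of K (FreeGroup (α ⊕ β)) U • MonoidAlgebra.of K (FreeGroup (α ⊕ β)) V • v0 =
      c • v0 := by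
    have h := (hmem _).1 hw
    rw [sub_smul, sub_eq_zero, hKs, map_mul, mul_smul] at h
    exact h
  have hinv : ∀ (g : FreeGroup (α ⊕ β)) (x : (GA K (α ⊕ β)) ⧸ I),
      MonoidAlgebra.of K (FreeGroup (α ⊕ β)) g⁻¹ • MonoidAlgebra.of K (FreeGroup (α ⊕ β)) g • x = x := by
    intro g x
    rw [smul_smul, ← map_mul, inv_mul_cancel, map_one, one_smul]
  by_cases hz : MonoidAlgebra.of K (FreeGroup (α ⊕ β)) V • v0 ∈ Submodule.span K {v0}
  · -- case A
    obtain ⟨μ, hμ⟩ := Submodule.mem_span_singleton.1 hz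
    have hμ0 : μ ≠ 0 := by
      rintro rfl
      rw [zero_smul] at hμ
      have := hinv V v0
      rw [← hμ, smul_zero] at this
      exact hv0 this.symm
    have hUv : MonoidAlgebra.of K (FreeGroup (α ⊕ β)) U • v0 = (c * μ⁻¹) • v0 := by
      rw [← hμ] at hUV
      rw [smul_comm] at hUV
      rw [mul_comm, mul_smul, ← hUV, smul_smul, inv_mul_cancel₀ hμ0, one_smul]
    have hν0 : c * μ⁻¹ ≠ 0 := mul_ne_zero hc (inv_ne_zero hμ0)
    let J₁ : Submodule (GA K α) (GA K α) :=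
      Ideal.comap (gmap K (FreeGroup.map (Sum.inl : α → α ⊕ β))) I
    let J₂ : Submodule (GA K β) (GA K β) :=
      Ideal.comap (gmap K (FreeGroup.map (Sum.inr : β → α ⊕ β))) I
    have hJ₁ : ∀ f, f ∈ J₁ ↔ gmap K (FreeGroup.map Sum.inl) f ∈ I := fun f => Iff.rfl
    have hJ₂ : ∀ f, f ∈ J₂ ↔ gmap K (FreeGroup.map Sum.inr) f ∈ I := fun f => Iff.rfl
    have h1I : (1 : GA K (α ⊕ β)) ∉ I := fun h => hI ((Ideal.eq_top_iff_one I).2 h)
    have hJ₁t : J₁ ≠ ⊤ := by
      intro h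
      have : (1 : GA K α) ∈ J₁ := by rw [h]; trivial
      rw [hJ₁, map_one] at this
      exact h1I this
    have hJ₂t : J₂ ≠ ⊤ := by
      intro h
      have : (1 : GA K β) ∈ J₂ := by rw [h]; trivial
      rw [hJ₂, map_one] at this
      exact h1I this
    have hg1 : ∀ g : FreeGroup α, gmap K (FreeGroup.map (Sum.inl : α → α ⊕ β))
        (MonoidAlgebra.of K (FreeGroup α) g) = MonoidAlgebra.of K _ (FreeGroup.map Sum.inl g) := by
      intro g
      simp [gmap]
    have hg2 : ∀ g : FreeGroup β, gmap K (FreeGroup.map (Sum.inr : β → α ⊕ β))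
        (MonoidAlgebra.of K (FreeGroup β) g) = MonoidAlgebra.of K _ (FreeGroup.map Sum.inr g) := by
      intro g
      simp [gmap]
    have hm1 : gmap K (FreeGroup.map (Sum.inl : α → α ⊕ β))
        (MonoidAlgebra.of K (FreeGroup α) u - (c * μ⁻¹) • (1 : GA K α)) =
        MonoidAlgebra.of K _ U - (c * μ⁻¹) • (1 : GA K (α ⊕ β)) := by
      rw [map_sub, map_smul, map_one, hg1]
    have hm2 : gmap K (FreeGroup.map (Sum.inr : β → α ⊕ β))
        (MonoidAlgebra.of K (FreeGroup β) v - μ • (1 : GA K β)) =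
        MonoidAlgebra.of K _ V - μ • (1 : GA K (α ⊕ β)) := by
      rw [map_sub, map_smul, map_one, hg2]
    have hw1' : MonoidAlgebra.of K _ U - (c * μ⁻¹) • (1 : GA K (α ⊕ β)) ∈ I := by
      rw [hmem, sub_smul, hKs, hUv, sub_self]
    have hw2' : MonoidAlgebra.of K _ V - μ • (1 : GA K (α ⊕ β)) ∈ I := by
      rw [hmem, sub_smul, hKs, ← hμ, sub_self]
    have hw1 : MonoidAlgebra.of K (FreeGroup α) u - (c * μ⁻¹) • (1 : GA K α) ∈ J₁ := by
      rw [hJ₁, hm1]; exact hw1'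
    have hw2 : MonoidAlgebra.of K (FreeGroup β) v - μ • (1 : GA K β) ∈ J₂ := by
      rw [hJ₂, hm2]; exact hw2'
    have hdec : (⟨MonoidAlgebra.of K (FreeGroup (α ⊕ β)) (U * V) - c • (1 : GA K (α ⊕ β)), hw⟩ : I) =
        MonoidAlgebra.of K (FreeGroup (α ⊕ β)) U • (⟨_, hw2'⟩ : I) +
          (μ • (1 : GA K (α ⊕ β))) • (⟨_, hw1'⟩ : I) := by
      apply Subtype.ext
      simp only [Submodule.coe_add, Submodule.coe_smul, smul_eq_mul, map_mul, mul_sub]
      rw [smul_mul_assoc, one_mul, smul_mul_assoc, one_mul, smul_smul, mul_smul_comm, mul_one,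
        show μ * (c * μ⁻¹) = c by field_simp]
      abel
    obtain ⟨k₁, k₂, hk, ⟨b₁⟩, ⟨b₂⟩⟩ := rank_add_le I hI J₁ J₂ hJ₁ hJ₂ m b
    rcases (by omega : k₁ < n₁ ∨ k₂ < n₂) with hlt | hlt
    · obtain ⟨φ₀, hφ₀⟩ := hu (c * μ⁻¹) hν0 J₁ hJ₁t k₁ hlt ⟨b₁⟩ hw1
      let φ₁ : J₁ →ₛₗ[(gmap K (FreeGroup.map (Sum.inl : α → α ⊕ β)) : GA K α →+* GA K (α ⊕ β))]
          GA K (α ⊕ β) :=
        { toFun := fun f => gmap K (FreeGroup.map (Sum.inl : α → α ⊕ β)) (φ₀ f)
          map_add' := fun f g => by rw [map_add, map_add]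
          map_smul' := fun a f => by rw [map_smul, smul_eq_mul, map_mul]; rfl }
      obtain ⟨Φ, hΦ1, hΦ2⟩ := ext2 I hI J₁ J₂ hJ₁ hJ₂ φ₁
        (0 : J₂ →ₛₗ[(gmap K (FreeGroup.map (Sum.inr : β → α ⊕ β)) : GA K β →+* GA K (α ⊕ β))]
          GA K (α ⊕ β))
      have e1 : Φ ⟨_, hw1'⟩ = 1 := by
        have h := hΦ1 _ hw1
        have h' : φ₁ ⟨_, hw1⟩ = 1 := by
          change gmap K (FreeGroup.map (Sum.inl : α → α ⊕ β)) (φ₀ ⟨_, hw1⟩) = 1
          rw [hφ₀, map_one]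
        rw [h'] at h
        exact (congrArg Φ (Subtype.ext hm1.symm)).trans h
      have e2 : Φ ⟨_, hw2'⟩ = 0 := by
        have h := hΦ2 _ hw2
        rw [LinearMap.zero_apply] at h
        rw [← h]
        congr 1
        exact Subtype.ext hm2.symm
      refine ⟨(LinearMap.toSpanSingleton (GA K (α ⊕ β)) (GA K (α ⊕ β))
        (μ⁻¹ • (1 : GA K (α ⊕ β)))).comp Φ, ?_⟩
      rw [hdec, LinearMap.comp_apply, map_add, map_smul, map_smul, e1, e2, smul_zero, zero_add,
        LinearMap.toSpanSingleton_apply, smul_eq_mul, smul_eq_mul, mul_one, smul_mul_assoc, one_mul,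
        smul_smul, mul_inv_cancel₀ hμ0, one_smul]
    · obtain ⟨φ₀, hφ₀⟩ := hv μ hμ0 J₂ hJ₂t k₂ hlt ⟨b₂⟩ hw2
      let φ₂ : J₂ →ₛₗ[(gmap K (FreeGroup.map (Sum.inr : β → α ⊕ β)) : GA K β →+* GA K (α ⊕ β))]
          GA K (α ⊕ β) :=
        { toFun := fun f => gmap K (FreeGroup.map (Sum.inr : β → α ⊕ β)) (φ₀ f)
          map_add' := fun f g => by rw [map_add, map_add]
          map_smul' := fun a f => by rw [map_smul, smul_eq_mul, map_mul]; rfl }
      obtain ⟨Φ, hΦ1, hΦ2⟩ := ext2 I hI J₁ J₂ hJ₁ hJ₂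
        (0 : J₁ →ₛₗ[(gmap K (FreeGroup.map (Sum.inl : α → α ⊕ β)) : GA K α →+* GA K (α ⊕ β))]
          GA K (α ⊕ β)) φ₂
      have e1 : Φ ⟨_, hw1'⟩ = 0 := by
        have h := hΦ1 _ hw1
        rw [LinearMap.zero_apply] at h
        rw [← h]
        congr 1
        exact Subtype.ext hm1.symm
      have e2 : Φ ⟨_, hw2'⟩ = 1 := by
        have h := hΦ2 _ hw2
        have h' : φ₂ ⟨_, hw2⟩ = 1 := by
          change gmap K (FreeGroup.map (Sum.inr : β → α ⊕ β)) (φ₀ ⟨_, hw2⟩) = 1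
          rw [hφ₀, map_one]
        rw [h'] at h
        exact (congrArg Φ (Subtype.ext hm2.symm)).trans h
      refine ⟨(LinearMap.toSpanSingleton (GA K (α ⊕ β)) (GA K (α ⊕ β))
        (MonoidAlgebra.of K (FreeGroup (α ⊕ β)) U⁻¹)).comp Φ, ?_⟩
      rw [hdec, LinearMap.comp_apply, map_add, map_smul, map_smul, e1, e2, smul_zero, add_zero,
        LinearMap.toSpanSingleton_apply, smul_eq_mul, smul_eq_mul, mul_one, ← map_mul,
        mul_inv_cancel, map_one]
  · -- case B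
    obtain ⟨f, hf1, hf2⟩ := Submodule.exists_dual_map_eq_bot_of_notMem hz inferInstance
    have hfv0 : f v0 = 0 := by
      have : f v0 ∈ (Submodule.span K {v0}).map f :=
        Submodule.mem_map_of_mem (Submodule.mem_span_singleton_self v0)
      rw [hf2] at this
      simpa using this
    let lam : ((GA K (α ⊕ β)) ⧸ I) →ₗ[K] GA K (α ⊕ β) :=
      (LinearMap.toSpanSingleton K (GA K (α ⊕ β))
        (-(f (MonoidAlgebra.of K (FreeGroup (α ⊕ β)) V • v0))⁻¹ •
          MonoidAlgebra.of K (FreeGroup (α ⊕ β)) U⁻¹)).comp f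
    have hlam0 : lam v0 = 0 := by
      simp [lam, hfv0]
    have hlamz : lam (MonoidAlgebra.of K (FreeGroup (α ⊕ β)) V • v0) =
        - MonoidAlgebra.of K (FreeGroup (α ⊕ β)) U⁻¹ := by
      simp only [lam, LinearMap.comp_apply, LinearMap.toSpanSingleton_apply]
      rw [smul_smul, mul_neg, mul_inv_cancel₀ hf1, neg_smul, one_smul]
    let act : GA K (α ⊕ β) → (((GA K (α ⊕ β)) ⧸ I) →ₗ[K] ((GA K (α ⊕ β)) ⧸ I)) := fun a =>
      { toFun := fun x => a • x
        map_add' := fun x y => smul_add a x y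
        map_smul' := fun c x => smul_comm a c x }
    let actA : GA K (α ⊕ β) → (GA K (α ⊕ β) →ₗ[K] GA K (α ⊕ β)) := fun a => LinearMap.mulLeft K a
    let E : FreeGroup (α ⊕ β) → (((GA K (α ⊕ β)) ⧸ I) →ₗ[K] GA K (α ⊕ β)) := fun g =>
      (actA (MonoidAlgebra.of K (FreeGroup (α ⊕ β)) g)).comp lam -
        lam.comp (act (MonoidAlgebra.of K (FreeGroup (α ⊕ β)) g))
    have hEa : ∀ g x, E g x = MonoidAlgebra.of K (FreeGroup (α ⊕ β)) g • lam x -
        lam (MonoidAlgebra.of K (FreeGroup (α ⊕ β)) g • x) := fun g x => rfl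
    obtain ⟨D, hD1, hD2, hD3⟩ := exists_D (K := K) (α := α ⊕ β) (M := (GA K (α ⊕ β)) ⧸ I)
      (L := GA K (α ⊕ β)) (fun s => Sum.elim (fun _ => 0) (fun y => E (FreeGroup.of (Sum.inr y))) s)
    have hDl : ∀ (g : FreeGroup α) (x : (GA K (α ⊕ β)) ⧸ I), D (FreeGroup.map Sum.inl g) x = 0 := by
      refine C3_agree (K := K) (FreeGroup.map Sum.inl) (fun g x => D g x) (fun _ _ => 0) hD2
        (fun g h x => by simp) (fun y x => ?_)
      rw [FreeGroup.map.of, hD3]
      rfl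
    have hDr : ∀ (g : FreeGroup β) (x : (GA K (α ⊕ β)) ⧸ I), D (FreeGroup.map Sum.inr g) x =
        E (FreeGroup.map Sum.inr g) x := by
      refine C3_agree (K := K) (FreeGroup.map Sum.inr) (fun g x => D g x) (fun g x => E g x) hD2
        (fun g h x => ?_) (fun y x => ?_)
      · simp only [hEa, map_mul, mul_smul, smul_sub]
        abel
      · simp only [FreeGroup.map.of, hD3]
        rfl
    obtain ⟨φ, hφ⟩ := exists_functional D hD2 v0 I (fun f hf => (hmem f).1 hf)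
    refine ⟨φ, ?_⟩
    rw [hφ]
    simp only
    rw [C3_sum (fun g => D g v0), hD1, LinearMap.zero_apply, smul_zero, sub_zero, hD2, hDr, hEa,
      hlam0, smul_zero, zero_sub, hlamz, neg_neg, hDl, add_zero, smul_eq_mul, ← map_mul,
      mul_inv_cancel, map_one]

end PrimRank
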