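import Pool.Agent.Lib.MP_b8b21d_al.A4
import Pool.Agent.Lib.MP_b8b21d_al.B1

/-!
PROOF of LB_of: `M = GA ⧸ I`, `v0 = mkQ 1 ≠ 0`, choose a `K`-linear `ψ x : M → GA` with `ψ x v0 = 1`
and `ψ y = 0` for `y ≠ x`; `φ (of x - c) = D (of x) v0 - c D 1 v0 = ψ x v0 = 1`. (`exists_functional`
applies: `f • v0 = mkQ f = 0` for `f ∈ I`.)
LB_one_of_ne: `m < 1` means a basis on `Fin 0`, so `I = ⊥` and `of u = c • 1`, so `u = 1` (compare
coefficients), contradiction.
LB_two: for `m = 0` as before; for `m = 1`: `I = GA * f` with `f = b 0`, and `u - c = g * f` for some `g`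
(coordinate). By `isUnit_or_isUnit_of_mul_eq` `g` or `f` is a unit. `f` a unit gives `I = ⊤`,
contradiction. If `g` is a unit, take the functional `φ = (b.coord 0)` followed by right multiplication by
the inverse of `g`: `b.coord 0 (u - c) = g`, so `φ (u - c) = g * g⁻¹ = 1`.
-/

namespace PrimRank

/-- Generators: every lower bound. -/
theorem LB_of {K : Type*} [Field K] {α : Type} (x : α) (n : ℕ) : LB K (FreeGroup.of x) n := by
  classical
  intro c _ I hI m _ _ hw
  have hv0 : (Submodule.Quotient.mk (1 : GA K α) : GA K α ⧸ I) ≠ 0 := by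
    intro h
    rw [Submodule.Quotient.mk_eq_zero] at h
    exact hI ((Ideal.eq_top_iff_one I).2 h)
  obtain ⟨l, hl⟩ : ∃ l : Module.Dual K (GA K α ⧸ I),
      l (Submodule.Quotient.mk (1 : GA K α)) ≠ 0 := by
    by_contra hcon
    push Not at hcon
    exact hv0 ((Module.forall_dual_apply_eq_zero_iff K _).1 hcon)
  let L : (GA K α ⧸ I) →ₗ[K] GA K α :=
    (LinearMap.toSpanSingleton K (GA K α)
      ((l (Submodule.Quotient.mk (1 : GA K α)))⁻¹ • (1 : GA K α))).comp l
  have hL : L (Submodule.Quotient.mk (1 : GA K α)) = 1 := by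
    change l (Submodule.Quotient.mk (1 : GA K α)) •
      ((l (Submodule.Quotient.mk (1 : GA K α)))⁻¹ • (1 : GA K α)) = 1
    rw [smul_smul, mul_inv_cancel₀ hl, one_smul]
  obtain ⟨D, hD1, hDm, hDx⟩ := exists_D (K := K) (α := α) (M := GA K α ⧸ I) (L := GA K α)
    (fun y => if y = x then L else 0)
  obtain ⟨φ, hφ⟩ := exists_functional D hDm (Submodule.Quotient.mk (1 : GA K α)) I (by
    intro f hf
    rw [← Submodule.Quotient.mk_smul, smul_eq_mul, mul_one, Submodule.Quotient.mk_eq_zero]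
    exact hf)
  refine ⟨φ, ?_⟩
  rw [hφ, ← Finsupp.linearCombination_apply K
    (v := fun g => D g (Submodule.Quotient.mk (1 : GA K α)))]
  have e1 : (MonoidAlgebra.of K (FreeGroup α) (FreeGroup.of x) - c • (1 : GA K α)).coeff =
      Finsupp.single (FreeGroup.of x) (1 : K) - c • Finsupp.single (1 : FreeGroup α) (1 : K) := rfl
  change (Finsupp.linearCombination K
    (fun g => D g (Submodule.Quotient.mk (1 : GA K α) : GA K α ⧸ I)))
    (MonoidAlgebra.of K (FreeGroup α) (FreeGroup.of x) - c • (1 : GA K α)).coeff = 1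
  rw [e1, map_sub, map_smul, Finsupp.linearCombination_single, Finsupp.linearCombination_single,
    hD1, hDx, if_pos rfl, hL]
  simp

private theorem C4_ne {K : Type*} [Field K] {α : Type} {u : FreeGroup α} (hu : u ≠ 1) (c : K) :
    MonoidAlgebra.of K (FreeGroup α) u - c • (1 : GA K α) ≠ 0 := by
  classical
  intro h
  have e1 : (MonoidAlgebra.of K (FreeGroup α) u - c • (1 : GA K α)).coeff =
      Finsupp.single u (1 : K) - c • Finsupp.single (1 : FreeGroup α) (1 : K) := rfl
  have h1 := congrArg (fun a : GA K α => a.coeff u) h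
  simp only [e1] at h1
  rw [Finsupp.sub_apply, Finsupp.smul_apply, Finsupp.single_eq_same,
    Finsupp.single_eq_of_ne hu] at h1
  simp at h1

private theorem C4_zero {K : Type*} [Field K] {α : Type} {u : FreeGroup α} (hu : u ≠ 1) {c : K}
    {I : Submodule (GA K α) (GA K α)} (b : Module.Basis (Fin 0) (GA K α) I)
    (hw : MonoidAlgebra.of K (FreeGroup α) u - c • (1 : GA K α) ∈ I) : False := by
  have h1 : (⟨_, hw⟩ : I) = 0 := b.ext_elem fun i => i.elim0
  exact C4_ne hu c (congrArg Subtype.val h1)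

theorem LB_one_of_ne {K : Type*} [Field K] {α : Type} {u : FreeGroup α} (hu : u ≠ 1) :
    LB K u 1 := by
  intro c _ I _ m hm hb hw
  obtain rfl : m = 0 := by omega
  obtain ⟨b⟩ := hb
  exact (C4_zero hu b hw).elim

theorem LB_two {K : Type*} [Field K] {α : Type} {u : FreeGroup α} (hu1 : u ≠ 1)
    (hu : ∀ (z : FreeGroup α) (k : ℤ), z ^ k = u → k.natAbs = 1) : LB K u 2 := by
  intro c hc I hI m hm hb hw
  obtain ⟨b⟩ := hb
  obtain rfl | rfl : m = 0 ∨ m = 1 := by omega
  · exact (C4_zero hu1 b hw).elim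
  · have h1 : (⟨_, hw⟩ : I) = b.repr ⟨_, hw⟩ 0 • b 0 := by
      have h2 := b.sum_repr ⟨_, hw⟩
      rw [Fin.sum_univ_one] at h2
      exact h2.symm
    have h3 : MonoidAlgebra.of K (FreeGroup α) u - c • (1 : GA K α) =
        b.repr ⟨_, hw⟩ 0 * (b 0 : GA K α) := congrArg Subtype.val h1
    rcases isUnit_or_isUnit_of_mul_eq hu1 hu hc h3 with h4 | h4
    · obtain ⟨w, hw'⟩ := h4
      refine ⟨(LinearMap.toSpanSingleton (GA K α) (GA K α) ((w⁻¹ : (GA K α)ˣ) : GA K α)).comp
        (b.coord 0), ?_⟩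
      change b.repr ⟨_, hw⟩ 0 * ((w⁻¹ : (GA K α)ˣ) : GA K α) = 1
      rw [← hw', Units.mul_inv]
    · exact (hI (Ideal.eq_top_of_isUnit_mem I (b 0).2 h4)).elim

end PrimRank
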