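import Pool.Agent.Lib.MP_b8b21d_al.C4

/-!
Invariance of the lower bounds under isomorphisms, and primitive elements.
-/

namespace PrimRank

/-- The preimage of a left ideal under an isomorphism. -/
private def C5_comap {K : Type*} [Field K] {α β : Type} (E : GA K α ≃ₐ[K] GA K β)
    (I : Submodule (GA K β) (GA K β)) : Submodule (GA K α) (GA K α) where
  carrier := {f | E f ∈ I}
  add_mem' := by
    intro f g hf hg
    show E (f + g) ∈ I
    rw [map_add]
    exact I.add_mem hf hg
  zero_mem' := by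
    show E 0 ∈ I
    rw [map_zero]
    exact I.zero_mem
  smul_mem' := by
    intro r f hf
    show E (r * f) ∈ I
    rw [map_mul]
    exact I.smul_mem (E r) hf

private theorem C5_mem {K : Type*} [Field K] {α β : Type} (E : GA K α ≃ₐ[K] GA K β)
    (I : Submodule (GA K β) (GA K β)) (f : GA K α) : f ∈ C5_comap E I ↔ E f ∈ I := Iff.rfl

private theorem C5_symm_mem {K : Type*} [Field K] {α β : Type} (E : GA K α ≃ₐ[K] GA K β)
    (I : Submodule (GA K β) (GA K β)) {f : GA K β} (hf : f ∈ I) : E.symm f ∈ C5_comap E I := by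
  rw [C5_mem, AlgEquiv.apply_symm_apply]
  exact hf

/-- The coordinates on the preimage. -/
private noncomputable def C5_repr {K : Type*} [Field K] {α β : Type} (E : GA K α ≃ₐ[K] GA K β)
    (I : Submodule (GA K β) (GA K β)) {m : ℕ} (b : Module.Basis (Fin m) (GA K β) I) :
    C5_comap E I ≃ₗ[GA K α] (Fin m →₀ GA K α) where
  toFun x := Finsupp.mapRange E.symm (map_zero _) (b.repr ⟨E x.1, x.2⟩)
  invFun y := ⟨E.symm (b.repr.symm (Finsupp.mapRange E (map_zero _) y)).1,
    C5_symm_mem E I (b.repr.symm (Finsupp.mapRange E (map_zero _) y)).2⟩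
  map_add' := by
    intro x y
    have h : (⟨E (x + y).1, (x + y).2⟩ : I) = ⟨E x.1, x.2⟩ + ⟨E y.1, y.2⟩ := by
      apply Subtype.ext
      exact map_add E x.1 y.1
    ext i : 1
    rw [h, map_add]
    simp only [Finsupp.mapRange_apply, Finsupp.add_apply, map_add]
  map_smul' := by
    intro r x
    have h : (⟨E (r • x).1, (r • x).2⟩ : I) = E r • (⟨E x.1, x.2⟩ : I) := by
      apply Subtype.ext
      exact map_mul E r x.1
    ext i : 1
    rw [h, map_smul]
    simp only [Finsupp.mapRange_apply, Finsupp.smul_apply, smul_eq_mul, map_mul,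
      AlgEquiv.symm_apply_apply, RingHom.id_apply]
  left_inv := by
    intro x
    apply Subtype.ext
    have h : Finsupp.mapRange E (map_zero _)
        (Finsupp.mapRange E.symm (map_zero _) (b.repr ⟨E x.1, x.2⟩)) = b.repr ⟨E x.1, x.2⟩ := by
      ext i : 1
      simp only [Finsupp.mapRange_apply, AlgEquiv.apply_symm_apply]
    show E.symm (b.repr.symm _).1 = x.1
    rw [h, LinearEquiv.symm_apply_apply, AlgEquiv.symm_apply_apply]
  right_inv := by
    intro y
    ext i : 1
    show E.symm (b.repr ⟨E (E.symm (b.repr.symm _).1), _⟩ i) = y i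
    have h : (⟨E (E.symm (b.repr.symm (Finsupp.mapRange E (map_zero _) y)).1),
        C5_symm_mem E I (b.repr.symm (Finsupp.mapRange E (map_zero _) y)).2⟩ : I) =
        b.repr.symm (Finsupp.mapRange E (map_zero _) y) := by
      apply Subtype.ext
      exact AlgEquiv.apply_symm_apply E _
    rw [h, LinearEquiv.apply_symm_apply, Finsupp.mapRange_apply, AlgEquiv.symm_apply_apply]

/-- The functional on the image. -/
private noncomputable def C5_fun {K : Type*} [Field K] {α β : Type} (E : GA K α ≃ₐ[K] GA K β)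
    (I : Submodule (GA K β) (GA K β)) (φ : C5_comap E I →ₗ[GA K α] GA K α) :
    I →ₗ[GA K β] GA K β where
  toFun x := E (φ ⟨E.symm x.1, C5_symm_mem E I x.2⟩)
  map_add' := by
    intro x y
    have h : (⟨E.symm (x + y).1, C5_symm_mem E I (x + y).2⟩ : C5_comap E I) =
        ⟨E.symm x.1, C5_symm_mem E I x.2⟩ + ⟨E.symm y.1, C5_symm_mem E I y.2⟩ := by
      apply Subtype.ext
      exact map_add E.symm x.1 y.1
    rw [h, map_add, map_add]
  map_smul' := by
    intro r x
    have h : (⟨E.symm (r • x).1, C5_symm_mem E I (r • x).2⟩ : C5_comap E I) =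
        E.symm r • (⟨E.symm x.1, C5_symm_mem E I x.2⟩ : C5_comap E I) := by
      apply Subtype.ext
      exact map_mul E.symm r x.1
    rw [h, map_smul, smul_eq_mul, map_mul, AlgEquiv.apply_symm_apply, RingHom.id_apply,
      smul_eq_mul]

/-- `LB` is invariant under isomorphisms. -/
theorem LB_mulEquiv {K : Type*} [Field K] {α β : Type} (e : FreeGroup α ≃* FreeGroup β)
    {w : FreeGroup α} {n : ℕ} (h : LB K w n) : LB K (e w) n := by
  rintro c hc I hI m hm ⟨b⟩ hw
  have hE : (MonoidAlgebra.domCongr K K e) (MonoidAlgebra.of K (FreeGroup α) w -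
      c • (1 : GA K α)) = MonoidAlgebra.of K (FreeGroup β) (e w) - c • (1 : GA K β) := by
    rw [map_sub, map_smul, map_one]
    congr 1
    simp [MonoidAlgebra.of_apply]
  set E : GA K α ≃ₐ[K] GA K β := MonoidAlgebra.domCongr K K e with hEdef
  have hI' : C5_comap E I ≠ ⊤ := by
    intro htop
    apply hI
    rw [Submodule.eq_top_iff']
    intro x
    have hx : E.symm x ∈ C5_comap E I := by
      rw [htop]
      exact Submodule.mem_top
    rw [C5_mem, AlgEquiv.apply_symm_apply] at hx
    exact hx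
  have hw' : MonoidAlgebra.of K (FreeGroup α) w - c • (1 : GA K α) ∈ C5_comap E I := by
    rw [C5_mem, hE]
    exact hw
  obtain ⟨φ, hφ⟩ := h c hc (C5_comap E I) hI' m hm ⟨Module.Basis.ofRepr (C5_repr E I b)⟩ hw'
  refine ⟨C5_fun E I φ, ?_⟩
  have h1 : (⟨E.symm (MonoidAlgebra.of K (FreeGroup β) (e w) - c • (1 : GA K β)),
      C5_symm_mem E I hw⟩ : C5_comap E I) = ⟨_, hw'⟩ := by
    apply Subtype.ext
    show E.symm _ = _
    rw [← hE, AlgEquiv.symm_apply_apply]
  show E (φ _) = 1
  rw [h1, hφ, map_one]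

theorem LB_of_isPrimitiveElt {K : Type*} [Field K] {α : Type} {w : FreeGroup α}
    (hw : IsPrimitiveElt w) (n : ℕ) : LB K w n := by
  obtain ⟨ι, b, i, rfl⟩ := hw
  have h := LB_mulEquiv b.repr.symm (LB_of (K := K) i n)
  have h2 : b.repr.symm (FreeGroup.of i) = b i := rfl
  rw [h2] at h
  exact h

end PrimRank
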