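import Pool.Agent.Lib.MP_b8b21d_al.DefsL

/-!
PROOF. Write `y⁻¹ = (y.1, !y.2)`, `L = w.toWord = [y_1, ..., y_k]`, indices cyclic. A turn is a pair
`(y_i⁻¹, y_{i+1})`; `y_i⁻¹ ≠ y_{i+1}` by cyclic reducedness.
(1) LEMMA. Let `a` be a letter, `A` a set of letters with `a ∈ A`, `a⁻¹ ∉ A`. Put `s y = 1` if `y ∈ A` and
`0` otherwise. Let `g_a = mk [a]` and let `τ` be the endomorphism with `τ x = x` if `x` is the letter of
`a` (`x = a.1`) and `τ x = g_a ^ s (x, true) * of x * (g_a ^ s (x, false))⁻¹` for the other generators. It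
is an automorphism (inverse: `x ↦ (g_a ^ s (x, true))⁻¹ * of x * g_a ^ s (x, false)`). For every letter `y`:
`τ (mk [y]) = g_a ^ s y * [y] * (g_a ^ s (y⁻¹))⁻¹` where `[y] = 1` if `y = a` or `y = a⁻¹` and
`[y] = mk [y]` otherwise. Hence `g_a ^ (- s y_1) * τ w * g_a ^ (s y_1)` is the product over `i = 1..k` of
`[y_i] * g_a ^ (s y_{i+1} - s (y_i⁻¹))` (cyclic), whose norm is at most `k - deg a + cap A`, where
`deg a` = number of `i` with `y_i = a` or `y_i = a⁻¹` and `cap A` = number of `i` such that exactly one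
of `y_i⁻¹`, `y_{i+1}` is in `A` (`FreeGroup.norm_mul_le`). So if `cap A < deg a` then `τ` followed by
conjugation (`MulAut.conj`) shortens `w`; `w.norm = k` is the length of the word.
(2) Exchange `P`, `P'` if necessary so that `y0⁻¹ ∉ P` (`y0⁻¹ ≠ y0` is in exactly one of them). Let
`A = P ∪ {y0}`, `a = y0`. A turn with exactly one member in `A` has one member in `P ∪ {y0}` and one in
`P'`, so (no turn between `P` and `P'`) it contains `y0` and a member of `P'`. The number of turns
containing `y0` is `deg y0` (`y_{i+1} = y0` or `y_i⁻¹ = y0`; not both). So if some turn joins `y0` with a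
member of `P`, `cap A < deg y0` and we are done by (1). So assume no turn joins `P` with a letter
outside `P`.
(3) If no letter of `P` occurs in `w` (neither `b` nor `b⁻¹`), take `x = b.1` for some `b ∈ P`.
(4) If some `b ∈ P` occurs in `w` (`b` or `b⁻¹` is some `y_i`) with `b⁻¹ ∉ P`: (1) with `A = P`, `a = b`:
`cap P = 0 < deg b`.
(5) Otherwise every `b ∈ P` which occurs has `b⁻¹ ∈ P`, and some `b ∈ P` occurs, so some `y_i ∈ P` and
`y_i⁻¹ ∈ P`; the turn `(y_i⁻¹, y_{i+1})` gives `y_{i+1} ∈ P` (and then `y_{i+1}⁻¹ ∈ P`), and going around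
all `y_j ∈ P`. As `y0 ∉ P` and `y0⁻¹ ∉ P`, the generator `x = y0.1` does not occur in `w`.
-/

namespace PrimRank

private noncomputable def D1_E {α : Type} [DecidableEq α] (a : α × Bool) (u v : α → ℤ) :
    FreeGroup α →* FreeGroup α :=
  FreeGroup.lift fun x => if x = a.1 then FreeGroup.of x else
    FreeGroup.mk [a] ^ u x * FreeGroup.of x * FreeGroup.mk [a] ^ v x

private theorem D1_mk1 {α : Type} (x : α) (b : Bool) :
    FreeGroup.mk [(x, b)] = cond b (FreeGroup.of x) (FreeGroup.of x)⁻¹ := by
  cases b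
  · rfl
  · rfl

private theorem D1_E_of {α : Type} [DecidableEq α] (a : α × Bool) (u v : α → ℤ) (x : α) :
    D1_E a u v (FreeGroup.of x) = if x = a.1 then FreeGroup.of x else
    FreeGroup.mk [a] ^ u x * FreeGroup.of x * FreeGroup.mk [a] ^ v x := by
  simp only [D1_E, FreeGroup.lift_apply_of]

private theorem D1_E_g {α : Type} [DecidableEq α] (a : α × Bool) (u v : α → ℤ) :
    D1_E a u v (FreeGroup.mk [a]) = FreeGroup.mk [a] := by
  obtain ⟨x, b⟩ := a
  rw [D1_mk1]
  cases b
  · simp only [cond_false, map_inv, D1_E_of, if_true]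
  · simp only [cond_true, D1_E_of, if_true]

private theorem D1_E_comp {α : Type} [DecidableEq α] (a : α × Bool) (u v : α → ℤ) :
    (D1_E a u v).comp (D1_E a (-u) (-v)) = MonoidHom.id _ := by
  apply FreeGroup.ext_hom
  intro x
  rw [MonoidHom.comp_apply, D1_E_of, MonoidHom.id_apply]
  by_cases hx : x = a.1
  · rw [if_pos hx, D1_E_of, if_pos hx]
  · rw [if_neg hx, map_mul, map_mul, map_zpow, map_zpow, D1_E_g, D1_E_of, if_neg hx]
    simp only [Pi.neg_apply, zpow_neg]
    group

private noncomputable def D1_equiv {α : Type} [DecidableEq α] (a : α × Bool) (u v : α → ℤ) :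
    FreeGroup α ≃* FreeGroup α :=
  MonoidHom.toMulEquiv (D1_E a u v) (D1_E a (-u) (-v))
    (by
      have h := D1_E_comp a (-u) (-v)
      rwa [neg_neg, neg_neg] at h)
    (D1_E_comp a u v)

open Classical in
private noncomputable def D1_s {α : Type} (A : Set (α × Bool)) (y : α × Bool) : ℤ :=
  if y ∈ A then 1 else 0

private noncomputable def D1_tau {α : Type} [DecidableEq α] (A : Set (α × Bool)) (a : α × Bool) :
    FreeGroup α ≃* FreeGroup α :=
  D1_equiv a (fun x => D1_s A (x, true)) (fun x => - D1_s A (x, false))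

private theorem D1_tau_mk {α : Type} [DecidableEq α] (A : Set (α × Bool)) (a : α × Bool)
    (ha : a ∈ A) (ha' : (a.1, !a.2) ∉ A) (y : α × Bool) :
    D1_tau A a (FreeGroup.mk [y]) = FreeGroup.mk [a] ^ D1_s A y *
      (if y.1 = a.1 then 1 else FreeGroup.mk [y]) *
      (FreeGroup.mk [a] ^ D1_s A (y.1, !y.2))⁻¹ := by
  have h0 : ∀ z, D1_tau A a z = D1_E a (fun x => D1_s A (x, true)) (fun x => - D1_s A (x, false)) z :=
    fun z => rfl
  have hsa : D1_s A a = 1 := by simp only [D1_s, if_pos ha]
  have hsa' : D1_s A (a.1, !a.2) = 0 := by simp only [D1_s, if_neg ha']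
  rw [h0]
  by_cases hy : y.1 = a.1
  · rw [if_pos hy]
    by_cases hy2 : y.2 = a.2
    · have hya : y = a := Prod.ext hy hy2
      rw [hya, D1_E_g, hsa, hsa']
      simp
    · have hya : y = (a.1, !a.2) := by
        refine Prod.ext hy ?_
        revert hy2
        cases y.2 <;> cases a.2 <;> simp
      have hinv : FreeGroup.mk [y] = (FreeGroup.mk [a])⁻¹ := by
        rw [hya]; rfl
      have h1 : ((y.1, !y.2) : α × Bool) = a := by
        rw [hya]; simp
      rw [hinv, map_inv, D1_E_g, h1, hsa, hya, hsa']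
      simp
  · rw [if_neg hy]
    obtain ⟨x, b⟩ := y
    simp only at hy
    cases b
    · rw [D1_mk1, cond_false, map_inv, D1_E_of, if_neg hy]
      simp only [Bool.not_false, zpow_neg]
      group
    · rw [D1_mk1, cond_true, D1_E_of, if_neg hy]
      simp only [Bool.not_true, zpow_neg]

open Classical in
private noncomputable def D1_N {α : Type} [DecidableEq α] (A : Set (α × Bool)) (a : α × Bool)
    (L : List (α × Bool)) (z : α × Bool) : ℕ :=
  L.countP (fun y => decide (y.1 ≠ a.1)) +
    (L.zip (L.tail ++ [z])).countP (fun p => decide (¬ ((p.1.1, !p.1.2) ∈ A ↔ p.2 ∈ A)))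

private theorem D1_zip {β : Type} (y z : β) (L : List β) :
    (y :: L).zip (L ++ [z]) = (y, L.headD z) :: L.zip (L.tail ++ [z]) := by
  cases L <;> simp

private theorem D1_norm_g {α : Type} [DecidableEq α] (a : α × Bool) (n : ℤ) (hn : n.natAbs ≤ 1) :
    (FreeGroup.mk [a] ^ n).norm ≤ n.natAbs := by
  have h : n = 0 ∨ n = 1 ∨ n = -1 := by omega
  rcases h with rfl | rfl | rfl
  · simp
  · rw [zpow_one]; exact FreeGroup.norm_mk_le
  · rw [zpow_neg, zpow_one, FreeGroup.norm_inv_eq]; exact FreeGroup.norm_mk_le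

open Classical in
private theorem D1_prod {α : Type} [DecidableEq α] (A : Set (α × Bool)) (a : α × Bool)
    (ha : a ∈ A) (ha' : (a.1, !a.2) ∉ A) (z : α × Bool) (L : List (α × Bool)) :
    ∃ f : FreeGroup α, D1_tau A a (FreeGroup.mk L) * FreeGroup.mk [a] ^ D1_s A z =
      FreeGroup.mk [a] ^ D1_s A (L.headD z) * f ∧ f.norm ≤ D1_N A a L z := by
  induction L with
  | nil =>
    refine ⟨1, ?_, ?_⟩
    · have : (FreeGroup.mk ([] : List (α × Bool))) = 1 := rfl
      rw [this, map_one]
      simp
    · simp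
  | cons y L ih =>
    obtain ⟨f, hf, hn⟩ := ih
    refine ⟨(if y.1 = a.1 then 1 else FreeGroup.mk [y]) *
      FreeGroup.mk [a] ^ (D1_s A (L.headD z) - D1_s A (y.1, !y.2)) * f, ?_, ?_⟩
    · have h1 : FreeGroup.mk (y :: L) = FreeGroup.mk [y] * FreeGroup.mk L := by
        rw [FreeGroup.mul_mk]; rfl
      rw [h1, map_mul, mul_assoc, hf, D1_tau_mk A a ha ha', List.headD_cons, zpow_sub]
      have hc : ∀ m n : ℤ, (FreeGroup.mk [a] ^ m) * (FreeGroup.mk [a] ^ n)⁻¹ =
          (FreeGroup.mk [a] ^ n)⁻¹ * (FreeGroup.mk [a] ^ m) := by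
        intro m n
        group
      rw [hc]
      simp only [mul_assoc]
    · refine (FreeGroup.norm_mul_le _ _).trans ?_
      refine (Nat.add_le_add (FreeGroup.norm_mul_le _ _) hn).trans ?_
      have hN : D1_N A a (y :: L) z = (if y.1 = a.1 then 0 else 1) +
          (D1_s A (L.headD z) - D1_s A (y.1, !y.2)).natAbs + D1_N A a L z := by
        have e1 : (y :: L).countP (fun y => decide (y.1 ≠ a.1)) =
            L.countP (fun y => decide (y.1 ≠ a.1)) + (if y.1 = a.1 then 0 else 1) := by
          rw [List.countP_cons]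
          congr 1
          by_cases h1 : y.1 = a.1
          · rw [if_pos h1, if_neg (by simp [h1])]
          · rw [if_neg h1, if_pos (by simp [h1])]
        have e2 : ((y :: L).zip ((y :: L).tail ++ [z])).countP
            (fun p => decide (¬ ((p.1.1, !p.1.2) ∈ A ↔ p.2 ∈ A))) =
            (L.zip (L.tail ++ [z])).countP
              (fun p => decide (¬ ((p.1.1, !p.1.2) ∈ A ↔ p.2 ∈ A))) +
            (D1_s A (L.headD z) - D1_s A (y.1, !y.2)).natAbs := by
          rw [List.tail_cons, D1_zip, List.countP_cons]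
          congr 1
          unfold D1_s
          by_cases h2 : (y.1, !y.2) ∈ A
          · by_cases h3 : L.headD z ∈ A
            · rw [if_neg (by simp only [decide_eq_true_eq]; tauto), if_pos h3, if_pos h2]; rfl
            · rw [if_pos (by simp only [decide_eq_true_eq]; tauto), if_neg h3, if_pos h2]; rfl
          · by_cases h3 : L.headD z ∈ A
            · rw [if_pos (by simp only [decide_eq_true_eq]; tauto), if_pos h3, if_neg h2]; rfl
            · rw [if_neg (by simp only [decide_eq_true_eq]; tauto), if_neg h3, if_neg h2]; rfl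
        unfold D1_N
        rw [e1, e2]
        omega
      rw [hN]
      have h1 : (if y.1 = a.1 then (1 : FreeGroup α) else FreeGroup.mk [y]).norm ≤
          (if y.1 = a.1 then 0 else 1) := by
        split_ifs
        · simp
        · exact FreeGroup.norm_mk_le
      have h2 := D1_norm_g a (D1_s A (L.headD z) - D1_s A (y.1, !y.2)) (by
        simp only [D1_s]
        split_ifs <;> simp)
      omega

private theorem D1_rotate {β : Type} (y : β) (L : List β) :
    (y :: L).rotate 1 = (y :: L).tail ++ [y] := by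
  simp

open Classical in
private theorem D1_shorten {α : Type} [DecidableEq α] (w : FreeGroup α) (hw : w ≠ 1)
    (A : Set (α × Bool)) (a : α × Bool) (ha : a ∈ A) (ha' : (a.1, !a.2) ∉ A)
    (hcap : (w.toWord.zip (w.toWord.rotate 1)).countP
      (fun p => decide (¬ ((p.1.1, !p.1.2) ∈ A ↔ p.2 ∈ A))) <
      w.toWord.countP (fun y => decide (y.1 = a.1))) :
    ∃ τ : FreeGroup α ≃* FreeGroup α, (τ w).norm < w.norm := by
  have hL : w.toWord ≠ [] := by
    intro h
    exact hw (FreeGroup.toWord_eq_nil_iff.1 h)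
  have hmk : FreeGroup.mk w.toWord = w := FreeGroup.mk_toWord
  obtain ⟨y, L, hyL⟩ := List.exists_cons_of_ne_nil hL
  obtain ⟨f, hf, hn⟩ := D1_prod A a ha ha' y w.toWord
  rw [hmk, hyL, List.headD_cons] at hf
  refine ⟨(D1_tau A a).trans (MulAut.conj ((FreeGroup.mk [a] ^ D1_s A y)⁻¹)), ?_⟩
  have h1 : ((D1_tau A a).trans (MulAut.conj ((FreeGroup.mk [a] ^ D1_s A y)⁻¹))) w = f := by
    rw [MulEquiv.trans_apply, MulAut.conj_apply, inv_inv, mul_assoc, hf]
    group
  rw [h1]
  refine lt_of_le_of_lt hn ?_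
  have h2 : w.norm = w.toWord.length := rfl
  rw [h2, List.length_eq_countP_add_countP (fun y => decide (y.1 = a.1))]
  rw [hyL, D1_rotate, ← hyL] at hcap
  have h3 : w.toWord.countP (fun y => decide (y.1 ≠ a.1)) =
      w.toWord.countP (fun y => decide (¬ (decide (y.1 = a.1)) = true)) := by
    apply List.countP_congr
    intro y _
    simp
  unfold D1_N
  rw [h3, add_comm]
  exact Nat.add_lt_add_right hcap _

private theorem D1_countP_lt {β : Type} (p q : β → Bool) (l : List β)
    (h : ∀ x ∈ l, p x = true → q x = true) (x : β) (hx : x ∈ l) (hqx : q x = true)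
    (hpx : p x = false) : l.countP p < l.countP q := by
  induction l with
  | nil => simp at hx
  | cons y l ih =>
    rw [List.countP_cons, List.countP_cons]
    have hle : l.countP p ≤ l.countP q :=
      List.countP_mono_left fun z hz => h z (List.mem_cons_of_mem _ hz)
    rcases List.mem_cons.1 hx with rfl | hx'
    · rw [if_pos hqx, if_neg (by rw [hpx]; exact Bool.false_ne_true)]
      omega
    · have h1 := ih (fun z hz => h z (List.mem_cons_of_mem _ hz)) hx'
      have h2 := h y List.mem_cons_self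
      by_cases hp : p y = true
      · rw [if_pos hp, if_pos (h2 hp)]; omega
      · rw [if_neg hp]; omega

open Classical in
/-- The number of turns containing the letter `y0` is at most the number of occurrences. -/
private theorem D1_deg {α : Type} [DecidableEq α] (L : List (α × Bool)) (y0 : α × Bool) :
    (L.zip (L.rotate 1)).countP (fun p => decide ((p.1.1, !p.1.2) = y0 ∨ p.2 = y0)) ≤
      L.countP (fun y => decide (y.1 = y0.1)) := by
  have h1 : (L.zip (L.rotate 1)).countP (fun p => decide ((p.1.1, !p.1.2) = y0 ∨ p.2 = y0)) ≤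
      (L.zip (L.rotate 1)).countP (fun p => decide ((p.1.1, !p.1.2) = y0)) +
      (L.zip (L.rotate 1)).countP (fun p => decide (p.2 = y0)) := by
    generalize L.zip (L.rotate 1) = M
    induction M with
    | nil => simp
    | cons p M ih =>
      simp only [List.countP_cons]
      by_cases h1 : (p.1.1, !p.1.2) = y0
      · rw [if_pos (by simp [h1]), if_pos (by simp [h1])]; omega
      · by_cases h2 : p.2 = y0
        · rw [if_pos (by simp [h2]), if_neg (by simp [h1]), if_pos (by simp [h2])]; omega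
        · rw [if_neg (by simp [h1, h2]), if_neg (by simp [h1]), if_neg (by simp [h2])]; omega
  have h2 : (L.zip (L.rotate 1)).countP (fun p => decide ((p.1.1, !p.1.2) = y0)) =
      L.countP (fun y => decide ((y.1, !y.2) = y0)) := by
    have e : L = (L.zip (L.rotate 1)).map Prod.fst := by
      rw [List.map_fst_zip]; simp
    conv_rhs => rw [e]
    rw [List.countP_map]
    rfl
  have h3 : (L.zip (L.rotate 1)).countP (fun p => decide (p.2 = y0)) =
      L.countP (fun y => decide (y = y0)) := by
    have e : L.rotate 1 = (L.zip (L.rotate 1)).map Prod.snd := by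
      rw [List.map_snd_zip]; simp
    rw [← (List.rotate_perm L 1).countP_eq]
    conv_rhs => rw [e]
    rw [List.countP_map]
    rfl
  rw [h2, h3] at h1
  refine h1.trans ?_
  clear h1 h2 h3
  induction L with
  | nil => simp
  | cons y L ih =>
    simp only [List.countP_cons]
    have k1 : ∀ (c : Prop) [Decidable c], c → (if decide c = true then 1 else 0) = 1 := by
      intro c _ hc
      rw [if_pos (decide_eq_true hc)]
    have k2 : ∀ (c : Prop) [Decidable c], ¬ c → (if decide c = true then 1 else 0) = 0 := by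
      intro c _ hc
      rw [if_neg (fun h => hc (of_decide_eq_true h))]
    by_cases h1 : y.1 = y0.1
    · have h2 : ¬ ((y.1, !y.2) = y0 ∧ y = y0) := by
        rintro ⟨h, h'⟩
        rw [h'] at h
        have := congrArg Prod.snd h
        simp at this
      rw [k1 _ h1]
      by_cases h3 : y = y0
      · rw [k2 _ (fun h => h2 ⟨h, h3⟩), k1 _ h3]; omega
      · rw [k2 _ h3]
        split_ifs <;> omega
    · have h2 : ¬ (y.1, !y.2) = y0 := fun h => h1 (congrArg Prod.fst h : _)
      have h3 : ¬ y = y0 := fun h => h1 (congrArg Prod.fst h : _)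
      rw [k2 _ h1, k2 _ h2, k2 _ h3]
      omega

private theorem D1_cyc {β : Type} (L : List β) (P : β → Prop)
    (h : ∀ p ∈ L.zip (L.rotate 1), P p.1 → P p.2) (x : β) (hx : x ∈ L) (hPx : P x) :
    ∀ y ∈ L, P y := by
  obtain ⟨i, hi, hix⟩ := List.mem_iff_getElem.1 hx
  have hn : 0 < L.length := by omega
  have key : ∀ j : ℕ, P (L[(i + j) % L.length]'(Nat.mod_lt _ hn)) := by
    intro j
    induction j with
    | zero =>
      have : (i + 0) % L.length = i := by rw [add_zero, Nat.mod_eq_of_lt hi]
      simp only [this, hix, hPx]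
    | succ j ih =>
      have hm : (L[(i + j) % L.length]'(Nat.mod_lt _ hn),
          L[(i + (j + 1)) % L.length]'(Nat.mod_lt _ hn)) ∈ L.zip (L.rotate 1) := by
        rw [List.mem_iff_getElem]
        refine ⟨(i + j) % L.length, by simp [Nat.mod_lt _ hn], ?_⟩
        rw [List.getElem_zip]
        congr 1
        rw [List.getElem_rotate]
        congr 1
        rw [Nat.mod_add_mod, add_assoc]
      exact h _ hm ih
  intro y hy
  obtain ⟨j, hj, hjy⟩ := List.mem_iff_getElem.1 hy
  have h1 := key (j + L.length - i)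
  have h2 : (i + (j + L.length - i)) % L.length = j := by
    have : i + (j + L.length - i) = j + L.length := by omega
    rw [this, Nat.add_mod_right, Nat.mod_eq_of_lt hj]
  simp only [h2, hjy] at h1
  exact h1

open Classical in
private theorem D1_main {α : Type} [DecidableEq α] (w : FreeGroup α) (hw : w ≠ 1)
    (y0 : α × Bool) (P P' : Set (α × Bool))
    (hP : P.Nonempty)
    (hun : ∀ y, y ≠ y0 → y ∈ P ∪ P') (hy0 : y0 ∉ P ∪ P') (hy0' : (y0.1, !y0.2) ∉ P)
    (hturn : ∀ p ∈ w.toWord.zip (w.toWord.rotate 1),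
      ¬ ((p.1.1, !p.1.2) ∈ P ∧ p.2 ∈ P') ∧ ¬ ((p.1.1, !p.1.2) ∈ P' ∧ p.2 ∈ P)) :
    (∃ x : α, ∀ p ∈ w.toWord, p.1 ≠ x) ∨
      ∃ τ : FreeGroup α ≃* FreeGroup α, (τ w).norm < w.norm := by
  have hy0P : y0 ∉ P := fun h => hy0 (Or.inl h)
  have hy0P' : y0 ∉ P' := fun h => hy0 (Or.inr h)
  have hne : ((y0.1, !y0.2) : α × Bool) ≠ y0 := by
    intro h
    have := congrArg Prod.snd h
    simp at this
  have hout : ∀ y, y ∉ P → y ≠ y0 → y ∈ P' := by
    intro y hy hyy
    rcases hun y hyy with h | h
    · exact absurd h hy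
    · exact h
  by_cases hA : ∃ p ∈ w.toWord.zip (w.toWord.rotate 1),
      ((p.1.1, !p.1.2) = y0 ∧ p.2 ∈ P) ∨ ((p.1.1, !p.1.2) ∈ P ∧ p.2 = y0)
  · right
    obtain ⟨p, hp, hpp⟩ := hA
    obtain ⟨A, hAm⟩ : ∃ A : Set (α × Bool), ∀ z, z ∈ A ↔ z = y0 ∨ z ∈ P :=
      ⟨insert y0 P, fun z => Iff.rfl⟩
    refine D1_shorten w hw A y0 ((hAm _).2 (Or.inl rfl)) ?_ ?_
    · rw [hAm]
      rintro (h | h)
      · exact hne h
      · exact hy0' h
    · refine lt_of_lt_of_le (D1_countP_lt _ _ _ ?_ p hp ?_ ?_) (D1_deg w.toWord y0)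
      · intro q hq hq1
        rw [decide_eq_true_eq] at hq1 ⊢
        rw [hAm, hAm] at hq1
        by_contra hcon
        have hc1 : (q.1.1, !q.1.2) ≠ y0 := fun h => hcon (Or.inl h)
        have hc2 : q.2 ≠ y0 := fun h => hcon (Or.inr h)
        have ht := hturn q hq
        by_cases k1 : (q.1.1, !q.1.2) ∈ P
        · by_cases k2 : q.2 ∈ P
          · exact hq1 ⟨fun _ => Or.inr k2, fun _ => Or.inr k1⟩
          · exact ht.1 ⟨k1, hout _ k2 hc2⟩
        · by_cases k2 : q.2 ∈ P
          · exact ht.2 ⟨hout _ k1 hc1, k2⟩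
          · exact hq1 ⟨fun h => by rcases h with h | h <;> contradiction,
              fun h => by rcases h with h | h <;> contradiction⟩
      · rw [decide_eq_true_eq]
        rcases hpp with h | h
        · exact Or.inl h.1
        · exact Or.inr h.2
      · rw [decide_eq_false_iff_not, not_not, hAm, hAm]
        rcases hpp with h | h
        · exact ⟨fun _ => Or.inr h.2, fun _ => Or.inl h.1⟩
        · exact ⟨fun _ => Or.inl h.2, fun _ => Or.inr h.1⟩
  · have hclosed : ∀ p ∈ w.toWord.zip (w.toWord.rotate 1),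
        ((p.1.1, !p.1.2) ∈ P ↔ p.2 ∈ P) := by
      intro p hp
      have ht := hturn p hp
      constructor
      · intro h1
        by_contra h2
        by_cases h3 : p.2 = y0
        · exact hA ⟨p, hp, Or.inr ⟨h1, h3⟩⟩
        · exact ht.1 ⟨h1, hout _ h2 h3⟩
      · intro h1
        by_contra h2
        by_cases h3 : (p.1.1, !p.1.2) = y0
        · exact hA ⟨p, hp, Or.inl ⟨h3, h1⟩⟩
        · exact ht.2 ⟨hout _ h2 h3, h1⟩
    by_cases hocc : ∃ b ∈ P, ∃ y ∈ w.toWord, y.1 = b.1
    · by_cases hB : ∃ b ∈ P, (∃ y ∈ w.toWord, y.1 = b.1) ∧ (b.1, !b.2) ∉ P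
      · right
        obtain ⟨b, hb, ⟨y, hy, hyb⟩, hb'⟩ := hB
        refine D1_shorten w hw P b hb hb' ?_
        have h0 : (w.toWord.zip (w.toWord.rotate 1)).countP
            (fun p => decide (¬ ((p.1.1, !p.1.2) ∈ P ↔ p.2 ∈ P))) = 0 := by
          rw [List.countP_eq_zero]
          intro p hp
          rw [decide_eq_true_eq, not_not]
          exact hclosed p hp
        rw [h0, List.countP_pos_iff]
        exact ⟨y, hy, by rw [decide_eq_true_eq]; exact hyb⟩
      · left
        refine ⟨y0.1, ?_⟩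
        have hinv : ∀ y ∈ w.toWord, y ∈ P → (y.1, !y.2) ∈ P := by
          intro y hy hyP
          by_contra h
          exact hB ⟨y, hyP, ⟨y, hy, rfl⟩, h⟩
        obtain ⟨b, hb, y, hy, hyb⟩ := hocc
        have hyP : y ∈ P := by
          by_cases h : y = b
          · rw [h]; exact hb
          · have h1 : y = (b.1, !b.2) := by
              refine Prod.ext hyb ?_
              have h2 : y.2 ≠ b.2 := fun h2 => h (Prod.ext hyb h2)
              revert h2
              cases y.2 <;> cases b.2 <;> simp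
            rw [h1]
            by_contra h2
            exact hB ⟨b, hb, ⟨y, hy, hyb⟩, h2⟩
        have hall := D1_cyc w.toWord (fun z => z ∈ P ∧ (z.1, !z.2) ∈ P ∨ z ∉ w.toWord) (by
          intro p hp h
          have hp1 : p.1 ∈ w.toWord := (List.of_mem_zip hp).1
          have hp2 : p.2 ∈ w.toWord := List.mem_rotate.1 (List.of_mem_zip hp).2
          rcases h with h | h
          · have h2 := (hclosed p hp).1 h.2
            exact Or.inl ⟨h2, hinv _ hp2 h2⟩
          · exact absurd hp1 h) y hy (Or.inl ⟨hyP, hinv y hy hyP⟩)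
        intro p hp hpy
        rcases hall p hp with h | h
        · by_cases h3 : p = y0
          · rw [h3] at h; exact hy0P h.1
          · have h1 : p = (y0.1, !y0.2) := by
              refine Prod.ext hpy ?_
              have h2 : p.2 ≠ y0.2 := fun h2 => h3 (Prod.ext hpy h2)
              revert h2
              cases p.2 <;> cases y0.2 <;> simp
            rw [h1] at h
            exact hy0' h.1
        · exact h hp
    · left
      obtain ⟨b, hb⟩ := hP
      refine ⟨b.1, fun p hp hpb => hocc ⟨b, hb, p, hp, hpb⟩⟩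

/-- Whitehead's reduction: if a letter `y0` separates the remaining letters into two nonempty parts
which are not joined by a turn of the cyclically reduced word `w`, then `w` misses a letter or can
be shortened by an automorphism. -/
theorem whitehead_step {α : Type} [DecidableEq α] (w : FreeGroup α) (hw : w ≠ 1)
    (hcr : FreeGroup.IsCyclicallyReduced w.toWord) (y0 : α × Bool) (P P' : Set (α × Bool))
    (hP : P.Nonempty) (hP' : P'.Nonempty) (hdisj : Disjoint P P')
    (hun : ∀ y, y ≠ y0 → y ∈ P ∪ P') (hy0 : y0 ∉ P ∪ P')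
    (hturn : ∀ p ∈ w.toWord.zip (w.toWord.rotate 1),
      ¬ ((p.1.1, !p.1.2) ∈ P ∧ p.2 ∈ P') ∧ ¬ ((p.1.1, !p.1.2) ∈ P' ∧ p.2 ∈ P)) :
    (∃ x : α, ∀ p ∈ w.toWord, p.1 ≠ x) ∨
      ∃ τ : FreeGroup α ≃* FreeGroup α, (τ w).norm < w.norm := by
  have _ := hcr
  by_cases h : (y0.1, !y0.2) ∈ P
  · refine D1_main w hw y0 P' P hP' (fun y hy => ?_) (fun hh => ?_) (fun hh => ?_)
      (fun p hp => ?_)
    · rw [Set.union_comm]; exact hun y hy
    · rw [Set.union_comm] at hh; exact hy0 hh
    · exact Set.disjoint_left.1 hdisj h hh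
    · exact ⟨(hturn p hp).2, (hturn p hp).1⟩
  · exact D1_main w hw y0 P P' hP hun hy0 h hturn

end PrimRank
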