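import Pool.Agent.Lib.MP_b8b21d_al.DefsL

/-!
PROOF. For letters write `y⁻¹ = (y.1, !y.2)`, `[y] = FreeGroup.mk [y]`. An edge `(g, y)` is cut if
`a (g * [y]) ≠ a g`. By `hfin` and `Finite α` the set of cut pairs `(g, y)` (all letters) is finite, and
it is not empty by `hnc`. Left translation: replace `a` by `g ↦ a (h * g)`; all hypotheses stay true and
cut pairs are translated by `h⁻¹`. `FreeGroup α` is infinite (`w ≠ 1`), so we may choose `h` such that
no cut pair has `g = 1`. Among the cut pairs `(g, y)` with `norm (g * [y]) = norm g + 1` (each cut edge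
gives one such pair, in one of its two directions) choose one with `norm g` maximal; call it `(v, y1)`.
`v ≠ 1`. Let `y0` be the inverse of the last letter of `v` (so `norm (v [y0]) = norm v - 1`, and
`norm (v t) = norm v + norm t` if the reduced word `t` does not start with `y0`). `y1 ≠ y0`.
(1) For `y ≠ y0` and every `t` whose reduced word starts with `y`: `a (v t) = a (v [y])` (induction on
`t`, since an edge from `v t` outwards, `norm (v t) ≥ norm v + 1`, is not cut by maximality).
(2) `P = {y ≠ y0 | a (v [y]) = a v}`, `P' = {y ≠ y0 | a (v [y]) ≠ a v}`. `y1 ∈ P'`.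
Let `w = y_1 ... y_k` (reduced word, k ≥ 1). `hinv` gives `a (v w) = a v = a (v w⁻¹)`. `w` starts
with `y_1`, `w⁻¹` starts with `y_k⁻¹`, and `y_1 ≠ y_k⁻¹` (cyclically reduced; for `k = 1` clear), so one
of them is `≠ y0` and lies in `P` by (1).
(3) Turns. For `1 ≤ i < k`, `p = y_i⁻¹`, `q = y_{i+1}`, both `≠ y0`: `g = v (y_1...y_i)⁻¹` is `v t` with `t`
starting with `p`, `g w = v y_{i+1}...y_k` is `v t'` with `t'` starting with `q`; `a (g w) = a g` so
`a (v [p]) = a (v [q])`: both in `P` or both in `P'`. For `i = k`: `p = y_k⁻¹`, `q = y_1`: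
`a (v [p]) = a (v w⁻¹) = a v = a (v w) = a (v [q])` by (1). So no turn joins `P` and `P'`.
-/

namespace PrimRank

section d2

open FreeGroup

variable {α : Type} [DecidableEq α]

omit [DecidableEq α] in
private theorem d2_left {L M : List (α × Bool)} (h : IsReduced (L ++ M)) : IsReduced L :=
  List.IsChain.left_of_append h

omit [DecidableEq α] in
private theorem d2_right {L M : List (α × Bool)} (h : IsReduced (L ++ M)) : IsReduced M :=
  List.IsChain.right_of_append h

private theorem d2_norm_mk {L : List (α × Bool)} (h : IsReduced L) : norm (mk L) = L.length := by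
  show (mk L).toWord.length = _
  rw [toWord_mk, h.reduce_eq]

omit [DecidableEq α] in
private theorem d2_red {V T : List (α × Bool)} {y : α × Bool} (hV : IsReduced V)
    (hT : IsReduced (y :: T)) (h : ∀ l ∈ V.getLast?, l.1 = y.1 → l.2 = y.2) :
    IsReduced (V ++ y :: T) := by
  refine List.isChain_append.2 ⟨hV, hT, fun l hl z hz => ?_⟩
  rw [List.head?_cons, Option.mem_def, Option.some.injEq] at hz
  subst hz
  exact h l hl

private theorem d2_invRev {L : List (α × Bool)} (h : IsReduced L) : IsReduced (invRev L) := by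
  apply IsReduced.of_reduce_eq
  rw [reduce_invRev, h.reduce_eq]

omit [DecidableEq α] in
private theorem d2_letter {l y : α × Bool} (h : ¬ (l.1 = y.1 → l.2 = y.2)) : l = (y.1, !y.2) := by
  obtain ⟨l1, l2⟩ := l
  obtain ⟨y1, y2⟩ := y
  simp only [Classical.not_imp] at h
  obtain ⟨h1, h2⟩ := h
  subst h1
  cases l2 <;> cases y2 <;> simp_all

omit [DecidableEq α] in
private theorem d2_cancel (V : List (α × Bool)) (l : α × Bool) :
    mk (V ++ [l]) * mk [(l.1, !l.2)] = mk V := by
  have h : mk [(l.1, !l.2)] = (mk [l])⁻¹ := by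
    rw [inv_mk]
    rfl
  rw [h, ← mul_mk, mul_assoc, mul_inv_cancel, mul_one]

private theorem d2_outward {K : Type*} (a : FreeGroup α → K)
    (hnc : ∃ p : FreeGroup α × (α × Bool), a (p.1 * mk [p.2]) ≠ a p.1) :
    ∃ p : FreeGroup α × (α × Bool), a (p.1 * mk [p.2]) ≠ a p.1 ∧
      norm (p.1 * mk [p.2]) = norm p.1 + 1 := by
  obtain ⟨⟨g, y⟩, hp⟩ := hnc
  simp only at hp
  by_cases hc : ∀ l ∈ g.toWord.getLast?, l.1 = y.1 → l.2 = y.2
  · refine ⟨(g, y), hp, ?_⟩
    have h1 : g * mk [y] = mk (g.toWord ++ [y]) := by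
      rw [← mul_mk, mk_toWord]
    show norm (g * mk [y]) = norm g + 1
    rw [h1, d2_norm_mk (d2_red isReduced_toWord IsReduced.singleton hc), List.length_append,
      List.length_singleton]
    rfl
  · push Not at hc
    obtain ⟨l, hl, hl1, hl2⟩ := hc
    obtain ⟨V, hV⟩ : ∃ V, g.toWord = V ++ [l] := by
      rw [Option.mem_def, List.getLast?_eq_some_iff] at hl
      exact hl
    have hly : l = (y.1, !y.2) := d2_letter (fun h => hl2 (h hl1))
    have hyl : y = (l.1, !l.2) := by
      rw [hly]
      simp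
    have hg : g = mk (V ++ [l]) := by rw [← hV, mk_toWord]
    have hgy : g * mk [y] = mk V := by
      rw [hg, hyl]
      exact d2_cancel V l
    have hVr : IsReduced (V ++ [l]) := by
      rw [← hV]
      exact isReduced_toWord
    have hg2 : mk V * mk [l] = g := by rw [mul_mk, hg]
    refine ⟨(mk V, l), ?_, ?_⟩
    · show a (mk V * mk [l]) ≠ a (mk V)
      rw [hg2, ← hgy]
      exact hp.symm
    · show norm (mk V * mk [l]) = norm (mk V) + 1
      rw [hg2, hg, d2_norm_mk hVr, d2_norm_mk (d2_left hVr), List.length_append,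
        List.length_singleton]

private theorem d2_main {K : Type*} (a : FreeGroup α → K)
    (w : FreeGroup α) (hw : w ≠ 1) (hcr : IsCyclicallyReduced w.toWord)
    (hcut : {p : FreeGroup α × (α × Bool) | a (p.1 * mk [p.2]) ≠ a p.1}.Finite)
    (hinv : ∀ g, a (g * w) = a g)
    (hnc : ∃ p : FreeGroup α × (α × Bool), a (p.1 * mk [p.2]) ≠ a p.1)
    (h1 : ∀ y, a (mk [y]) = a 1) :
    ∃ (y0 : α × Bool) (P P' : Set (α × Bool)), P.Nonempty ∧ P'.Nonempty ∧ Disjoint P P' ∧
      (∀ y, y ≠ y0 → y ∈ P ∪ P') ∧ y0 ∉ P ∪ P' ∧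
      ∀ p ∈ w.toWord.zip (w.toWord.rotate 1),
        ¬ ((p.1.1, !p.1.2) ∈ P ∧ p.2 ∈ P') ∧ ¬ ((p.1.1, !p.1.2) ∈ P' ∧ p.2 ∈ P) := by
  -- a maximal outward cut pair
  set C : Set (FreeGroup α × (α × Bool)) :=
    {p | a (p.1 * mk [p.2]) ≠ a p.1 ∧ norm (p.1 * mk [p.2]) = norm p.1 + 1} with hC
  have hCfin : C.Finite := hcut.subset fun p hp => hp.1
  have hCne : C.Nonempty := d2_outward a hnc
  obtain ⟨⟨v, y1⟩, ⟨hv1, hv2⟩, hmax⟩ := Set.exists_max_image C (fun p => norm p.1) hCfin hCne
  simp only at hv1 hv2 hmax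
  have hvne : v.toWord ≠ [] := by
    intro h
    rw [toWord_eq_nil_iff] at h
    rw [h, one_mul] at hv1
    exact hv1 (h1 y1)
  obtain ⟨V, l, hVl⟩ : ∃ V l, v.toWord = V ++ [l] := by
    rcases List.eq_nil_or_concat v.toWord with h | ⟨V, l, h⟩
    · exact absurd h hvne
    · exact ⟨V, l, by rw [h, List.concat_eq_append]⟩
  set y0 : α × Bool := (l.1, !l.2) with hy0
  have hv : v = mk (V ++ [l]) := by rw [← hVl, mk_toWord]
  have hVr : IsReduced (V ++ [l]) := by
    rw [← hVl]
    exact isReduced_toWord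
  have hcompat : ∀ y : α × Bool, y ≠ y0 → ∀ l' ∈ (V ++ [l]).getLast?, l'.1 = y.1 → l'.2 = y.2 := by
    intro y hy l' hl'
    rw [List.getLast?_concat, Option.mem_def, Option.some.injEq] at hl'
    subst hl'
    by_contra hcon
    apply hy
    have := d2_letter hcon
    rw [hy0, this]
    simp
  have hnv : norm v = V.length + 1 := by
    rw [hv, d2_norm_mk hVr, List.length_append, List.length_singleton]
  have hy1 : y1 ≠ y0 := by
    intro h
    rw [h, hv, hy0, d2_cancel, ← hv, hnv, d2_norm_mk (d2_left hVr)] at hv2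
    omega
  -- (1)
  have key : ∀ (y : α × Bool) (T : List (α × Bool)), y ≠ y0 → IsReduced (y :: T) →
      a (v * mk (y :: T)) = a (v * mk [y]) := by
    intro y T hy
    induction T using List.reverseRecOn with
    | nil => exact fun _ => rfl
    | append_singleton T z ih =>
      intro hT
      have hT' : IsReduced (y :: T) := d2_left (L := y :: T) (M := [z]) hT
      have e1 : v * mk (y :: (T ++ [z])) = v * mk (y :: T) * mk [z] := by
        rw [mul_assoc, mul_mk]
        rfl
      have e2 : v * mk (y :: T) = mk ((V ++ [l]) ++ y :: T) := by rw [hv, mul_mk]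
      have e3 : v * mk (y :: (T ++ [z])) = mk ((V ++ [l]) ++ y :: (T ++ [z])) := by rw [hv, mul_mk]
      rw [← ih hT']
      by_contra hcon
      have hmem : ((v * mk (y :: T), z) : FreeGroup α × (α × Bool)) ∈ C := by
        refine ⟨?_, ?_⟩
        · show a (v * mk (y :: T) * mk [z]) ≠ a (v * mk (y :: T))
          rw [← e1]
          exact hcon
        · show norm (v * mk (y :: T) * mk [z]) = norm (v * mk (y :: T)) + 1
          rw [← e1, e2, e3, d2_norm_mk (d2_red hVr hT (hcompat y hy)),
            d2_norm_mk (d2_red hVr hT' (hcompat y hy))]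
          simp only [List.length_append, List.length_cons, List.length_nil]
          omega
      have h2 : norm (v * mk (y :: T)) ≤ norm v := hmax _ hmem
      rw [e2, d2_norm_mk (d2_red hVr hT' (hcompat y hy)), hnv] at h2
      simp only [List.length_append, List.length_cons, List.length_nil] at h2
      omega
  -- the word
  have hW : w = mk w.toWord := mk_toWord.symm
  have hWr : IsReduced w.toWord := isReduced_toWord
  have hWne : w.toWord ≠ [] := fun h => hw (toWord_eq_nil_iff.1 h)
  have hwinv : a (v * w⁻¹) = a v := by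
    have h2 := hinv (v * w⁻¹)
    rw [inv_mul_cancel_right] at h2
    exact h2.symm
  have hhead : ∀ (y : α × Bool) (T : List (α × Bool)), w.toWord = y :: T → y ≠ y0 →
      a (v * mk [y]) = a v := by
    intro y T hT hy
    rw [← key y T hy (hT ▸ hWr), ← hT, ← hW, hinv]
  have hlast : ∀ (z : α × Bool) (S : List (α × Bool)), w.toWord = S ++ [z] →
      ((z.1, !z.2) : α × Bool) ≠ y0 → a (v * mk [(z.1, !z.2)]) = a v := by
    intro z S hS hz
    have e1 : invRev w.toWord = (z.1, !z.2) :: invRev S := by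
      rw [hS, invRev_append]
      rfl
    have h2 := key (z.1, !z.2) (invRev S) hz (e1 ▸ d2_invRev hWr)
    rw [← h2, ← e1, ← inv_mk, ← hW, hwinv]
  have hturn : ∀ p ∈ w.toWord.zip (w.toWord.rotate 1), ((p.1.1, !p.1.2) : α × Bool) ≠ y0 →
      p.2 ≠ y0 → a (v * mk [(p.1.1, !p.1.2)]) = a (v * mk [p.2]) := by
    intro p hp hp1 hp2
    obtain ⟨i, hi, hpi⟩ := List.mem_iff_getElem.1 hp
    rw [List.getElem_zip] at hpi
    have hi' : i < w.toWord.length := by
      rw [List.length_zip] at hi
      omega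
    rw [List.getElem_rotate] at hpi
    have hpa : p.1 = w.toWord[i] := by rw [← hpi]
    have hpb : p.2 = w.toWord[(i + 1) % w.toWord.length]'(Nat.mod_lt _ (by omega)) := by rw [← hpi]
    by_cases hik : i + 1 < w.toWord.length
    · have hpb' : p.2 = w.toWord[i + 1] := by
        rw [hpb]
        congr 1
        exact Nat.mod_eq_of_lt hik
      have hdec : w.toWord = w.toWord.take i ++ [p.1] ++ (p.2 :: w.toWord.drop (i + 2)) := by
        rw [hpa, hpb', List.append_assoc, List.singleton_append, ← List.drop_eq_getElem_cons hik,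
          ← List.drop_eq_getElem_cons hi', List.take_append_drop]
      set A := w.toWord.take i with hA
      set B := w.toWord.drop (i + 2) with hB
      have hr1 : IsReduced (invRev (A ++ [p.1])) := by
        apply d2_invRev
        refine d2_left (M := p.2 :: B) ?_
        rw [← hdec]
        exact hWr
      have hr2 : IsReduced (p.2 :: B) := by
        refine d2_right (L := A ++ [p.1]) ?_
        rw [← hdec]
        exact hWr
      have e1 : invRev (A ++ [p.1]) = (p.1.1, !p.1.2) :: invRev A := by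
        rw [invRev_append]
        rfl
      have e2 : v * mk (invRev (A ++ [p.1])) * w = v * mk (p.2 :: B) := by
        have e3 : w = mk (A ++ [p.1]) * mk (p.2 :: B) := by
          rw [mul_mk, ← hdec, mk_toWord]
        rw [← inv_mk]
        conv_lhs => rw [e3]
        group
      have h2 := key (p.1.1, !p.1.2) (invRev A) hp1 (e1 ▸ hr1)
      have h3 := key p.2 B hp2 hr2
      rw [← h2, ← h3, ← e1, ← e2, hinv]
    · have hik' : i + 1 = w.toWord.length := by omega
      have hS : w.toWord = w.toWord.take i ++ [p.1] := by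
        have h2 : w.toWord.drop i = [p.1] := by
          rw [List.drop_eq_getElem_cons hi', hpa, List.drop_eq_nil_of_le (by omega)]
        rw [← h2, List.take_append_drop]
      obtain ⟨y, T, hyT⟩ : ∃ y T, w.toWord = y :: T := List.exists_cons_of_ne_nil hWne
      have hpy : p.2 = y := by
        rw [hpb]
        have h2 : (i + 1) % w.toWord.length = 0 := by rw [hik', Nat.mod_self]
        simp only [h2]
        simp only [hyT, List.getElem_cons_zero]
      rw [hlast p.1 _ hS hp1, hhead p.2 T (by rw [hpy]; exact hyT) hp2]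
  refine ⟨y0, {y | y ≠ y0 ∧ a (v * mk [y]) = a v}, {y | y ≠ y0 ∧ a (v * mk [y]) ≠ a v}, ?_,
    ⟨y1, hy1, hv1⟩, ?_, ?_, ?_, ?_⟩
  · obtain ⟨y, T, hyT⟩ : ∃ y T, w.toWord = y :: T := List.exists_cons_of_ne_nil hWne
    by_cases hy : y = y0
    · obtain ⟨S, z, hSz⟩ : ∃ S z, w.toWord = S ++ [z] := by
        rcases List.eq_nil_or_concat w.toWord with h | ⟨S, z, h⟩
        · exact absurd h hWne
        · exact ⟨S, z, by rw [h, List.concat_eq_append]⟩
      have hz : ((z.1, !z.2) : α × Bool) ≠ y0 := by
        intro h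
        have h2 := hcr.2 z (by rw [hSz, List.getLast?_concat]; rfl) y
          (by rw [hyT, List.head?_cons]; rfl)
        rw [hy, ← h] at h2
        have h3 := h2 rfl
        simp at h3
      exact ⟨_, hz, hlast z S hSz hz⟩
    · exact ⟨y, hy, hhead y T hyT hy⟩
  · rw [Set.disjoint_left]
    rintro y ⟨-, hy⟩ ⟨-, hy'⟩
    exact hy' hy
  · intro y hy
    by_cases h : a (v * mk [y]) = a v
    · exact Or.inl ⟨hy, h⟩
    · exact Or.inr ⟨hy, h⟩
  · rintro (⟨h, -⟩ | ⟨h, -⟩)
    · exact h rfl
    · exact h rfl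
  · intro p hp
    constructor
    · rintro ⟨⟨h2, h3⟩, ⟨h4, h5⟩⟩
      apply h5
      rw [← hturn p hp h2 h4, h3]
    · rintro ⟨⟨h2, h3⟩, ⟨h4, h5⟩⟩
      apply h3
      rw [hturn p hp h2 h4, h5]

end d2

/-- A nonconstant almost invariant function which is invariant under right multiplication by the
cyclically reduced word `w` gives a separation of the letters without turns of `w`. -/
theorem exists_partition {α : Type} [DecidableEq α] [Finite α] {K : Type*} (a : FreeGroup α → K)
    (w : FreeGroup α) (hw : w ≠ 1) (hcr : FreeGroup.IsCyclicallyReduced w.toWord)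
    (hfin : ∀ x : α, {g | a (g * FreeGroup.of x) ≠ a g}.Finite)
    (hinv : ∀ g, a (g * w) = a g) (hnc : ∃ g h, a g ≠ a h) :
    ∃ (y0 : α × Bool) (P P' : Set (α × Bool)), P.Nonempty ∧ P'.Nonempty ∧ Disjoint P P' ∧
      (∀ y, y ≠ y0 → y ∈ P ∪ P') ∧ y0 ∉ P ∪ P' ∧
      ∀ p ∈ w.toWord.zip (w.toWord.rotate 1),
        ¬ ((p.1.1, !p.1.2) ∈ P ∧ p.2 ∈ P') ∧ ¬ ((p.1.1, !p.1.2) ∈ P' ∧ p.2 ∈ P) := by
  classical
  have hmem : ∀ y : α × Bool, {g | a (g * FreeGroup.mk [y]) ≠ a g}.Finite := by
    rintro ⟨x, b⟩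
    cases b
    · have h1 : (FreeGroup.mk [(x, false)] : FreeGroup α) = (FreeGroup.of x)⁻¹ := by
        show _ = (FreeGroup.mk [(x, true)])⁻¹
        rw [FreeGroup.inv_mk]
        rfl
      rw [h1]
      have h2 : {g : FreeGroup α | a (g * (FreeGroup.of x)⁻¹) ≠ a g} ⊆
          (fun g => g * (FreeGroup.of x)⁻¹) ⁻¹' {g | a (g * FreeGroup.of x) ≠ a g} := by
        intro g hg
        show a (g * (FreeGroup.of x)⁻¹ * FreeGroup.of x) ≠ a (g * (FreeGroup.of x)⁻¹)
        rw [inv_mul_cancel_right]
        exact Ne.symm hg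
      exact ((hfin x).preimage (mul_left_injective _).injOn).subset h2
    · exact hfin x
  have hcut : {p : FreeGroup α × (α × Bool) | a (p.1 * FreeGroup.mk [p.2]) ≠ a p.1}.Finite := by
    refine (Set.finite_iUnion fun y : α × Bool => (hmem y).image fun g => (g, y)).subset ?_
    rintro ⟨g, y⟩ hp
    rw [Set.mem_iUnion]
    exact ⟨y, g, hp, rfl⟩
  have hex : ∃ p : FreeGroup α × (α × Bool), a (p.1 * FreeGroup.mk [p.2]) ≠ a p.1 := by
    by_contra hcon
    push Not at hcon
    have h1 : ∀ (L : List (α × Bool)) (g : FreeGroup α), a (g * FreeGroup.mk L) = a g := by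
      intro L
      induction L with
      | nil =>
        intro g
        rw [← FreeGroup.one_eq_mk, mul_one]
      | cons y L ih =>
        intro g
        have h2 : (FreeGroup.mk (y :: L) : FreeGroup α) = FreeGroup.mk [y] * FreeGroup.mk L := by
          rw [FreeGroup.mul_mk]
          rfl
        rw [h2, ← mul_assoc, ih]
        exact hcon (g, y)
    obtain ⟨g, h, hgh⟩ := hnc
    apply hgh
    have h2 := h1 (g⁻¹ * h).toWord g
    rw [FreeGroup.mk_toWord, mul_inv_cancel_left] at h2
    exact h2.symm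
  have hne : Nonempty α := by
    by_contra hcon
    have : IsEmpty α := not_nonempty_iff.1 hcon
    exact hw (Subsingleton.elim _ _)
  have hinf : Infinite (FreeGroup α) :=
    Infinite.of_surjective FreeGroup.norm FreeGroup.norm_surjective
  obtain ⟨h, hh⟩ := (hcut.image Prod.fst).exists_notMem
  have hh' : ∀ y : α × Bool, a (h * FreeGroup.mk [y]) = a h := by
    intro y
    by_contra hcon
    exact hh ⟨(h, y), hcon, rfl⟩
  refine d2_main (fun g => a (h * g)) w hw hcr ?_ ?_ ?_ ?_
  · have h1 : {p : FreeGroup α × (α × Bool) | a (h * (p.1 * FreeGroup.mk [p.2])) ≠ a (h * p.1)} ⊆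
        (fun p : FreeGroup α × (α × Bool) => ((h * p.1, p.2) : FreeGroup α × (α × Bool))) ⁻¹'
          {p : FreeGroup α × (α × Bool) | a (p.1 * FreeGroup.mk [p.2]) ≠ a p.1} := by
      intro p hp
      show a (h * p.1 * FreeGroup.mk [p.2]) ≠ a (h * p.1)
      rw [mul_assoc]
      exact hp
    refine (hcut.preimage ?_).subset h1
    intro p _ q _ hpq
    have h2 := congrArg Prod.fst hpq
    have h3 := congrArg Prod.snd hpq
    simp only [mul_right_inj] at h2
    exact Prod.ext h2 h3
  · intro g
    show a (h * (g * w)) = a (h * g)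
    rw [← mul_assoc, hinv]
  · obtain ⟨⟨g, y⟩, hp⟩ := hex
    refine ⟨(h⁻¹ * g, y), ?_⟩
    show a (h * (h⁻¹ * g * FreeGroup.mk [y])) ≠ a (h * (h⁻¹ * g))
    rw [← mul_assoc, mul_inv_cancel_left]
    exact hp
  · intro y
    show a (h * FreeGroup.mk [y]) = a (h * 1)
    rw [mul_one]
    exact hh' y

end PrimRank
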