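import Pool.Agent.Lib.MP_b8b21d_al.A1

/-!
PROOF of exists_der: like affine maps: `Φ : FreeGroup α →* (MonoidAlgebra K G ≃+ MonoidAlgebra K G)`-like
group of pairs: use the semidirect product `Multiplicative (MonoidAlgebra K G) ⋊[..] G` (left
multiplication action) or the group of permutations `Equiv.Perm (MonoidAlgebra K G)`:
`x ↦ (l ↦ of (f x) * l + c x)`; `d g = Φ g 0`; by induction `Φ g l = of (f g) * l + d g`.
der_ext: `d 1 = 0`, `d (x⁻¹) = - of (f x)⁻¹ * d x`, induction.
PROOF of exists_invariant. `NoZeroDivisors (GA K α)` by `uniqueProds_freeGroup`. For derivations `d2`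
and `b ∈ GA` the maps `g ↦ d g * b` and `d2 - d * b` are derivations. Let `∂₁, ∂₂` be the derivations
(`exists_der` with `f = id`) with `∂_i x_i = 1` and `∂_i y = 0` for the other generators `y`.
`e_i = ∂_i - d * (∂_i w)`: `e_i w = ∂_i w - 1 * ∂_i w = 0`. One of `e_1, e_2` is nonzero: otherwise
`∂_i g = d g * ∂_i w` for all `g`: `1 = d x₁ * ∂₁ w`, `0 = ∂₁ x₂ = d x₂ * ∂₁ w`, so `∂₁ w ≠ 0`, `d x₂ = 0`,
but `1 = ∂₂ x₂ = d x₂ * ∂₂ w = 0`. Let `e` be this nonzero derivation with `e w = 0` and
`a g = (e g).coeff 1`. `e (g h) = e g + of g * e h` gives `a (g h) - a g = (e h).coeff g⁻¹`. So for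
`h = of x` this is nonzero for finitely many `g` only; `a (g w) = a g`; and `e ≠ 0`, say
`(e h).coeff k ≠ 0`, gives `a (k⁻¹ h) ≠ a (k⁻¹)`.
-/

namespace PrimRank

/-- the affine permutation of a generator -/
private noncomputable def d3Perm {K : Type*} [Field K] {G : Type} [Group G] (g : G)
    (c : MonoidAlgebra K G) : Equiv.Perm (MonoidAlgebra K G) where
  toFun l := MonoidAlgebra.of K G g * l + c
  invFun l := MonoidAlgebra.of K G g⁻¹ * (l - c)
  left_inv l := by
    show MonoidAlgebra.of K G g⁻¹ * (MonoidAlgebra.of K G g * l + c - c) = l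
    rw [add_sub_cancel_right, ← mul_assoc, ← map_mul, inv_mul_cancel, map_one, one_mul]
  right_inv l := by
    show MonoidAlgebra.of K G g * (MonoidAlgebra.of K G g⁻¹ * (l - c)) + c = l
    rw [← mul_assoc, ← map_mul, mul_inv_cancel, map_one, one_mul, sub_add_cancel]

private theorem d3_affine {K : Type*} [Field K] {α : Type} {G : Type} [Group G]
    (f : FreeGroup α →* G) (c : α → MonoidAlgebra K G) (g : FreeGroup α) (l : MonoidAlgebra K G) :
    FreeGroup.lift (fun x => d3Perm (f (FreeGroup.of x)) (c x)) g l =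
      MonoidAlgebra.of K G (f g) * l +
        FreeGroup.lift (fun x => d3Perm (f (FreeGroup.of x)) (c x)) g 0 := by
  induction g using FreeGroup.induction_on generalizing l with
  | C1 => rw [map_one, map_one, map_one, one_mul, Equiv.Perm.one_apply, Equiv.Perm.one_apply, add_zero]
  | of x =>
    rw [FreeGroup.lift_apply_of]
    show MonoidAlgebra.of K G (f (FreeGroup.of x)) * l + c x =
      MonoidAlgebra.of K G (f (FreeGroup.of x)) * l +
        (MonoidAlgebra.of K G (f (FreeGroup.of x)) * 0 + c x)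
    rw [mul_zero, zero_add]
  | inv_of x _ =>
    rw [map_inv, map_inv, FreeGroup.lift_apply_of]
    show MonoidAlgebra.of K G (f (FreeGroup.of x))⁻¹ * (l - c x) =
      MonoidAlgebra.of K G (f (FreeGroup.of x))⁻¹ * l +
        (MonoidAlgebra.of K G (f (FreeGroup.of x))⁻¹ * (0 - c x))
    rw [← mul_add, zero_sub, sub_eq_add_neg]
  | mul g h ihg ihh =>
    rw [map_mul, map_mul, Equiv.Perm.mul_apply, Equiv.Perm.mul_apply, ihh l, ihg, map_mul,
      ihg (FreeGroup.lift (fun x => d3Perm (f (FreeGroup.of x)) (c x)) h 0), mul_add, mul_assoc,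
      add_assoc]

/-- Derivations of a free group in a group algebra along a homomorphism, with prescribed values. -/
theorem exists_der {K : Type*} [Field K] {α : Type} {G : Type} [Group G] (f : FreeGroup α →* G)
    (c : α → MonoidAlgebra K G) :
    ∃ d : FreeGroup α → MonoidAlgebra K G,
      (∀ g h, d (g * h) = d g + MonoidAlgebra.of K G (f g) * d h) ∧
      ∀ x, d (FreeGroup.of x) = c x := by
  refine ⟨fun g => FreeGroup.lift (fun x => d3Perm (f (FreeGroup.of x)) (c x)) g 0,
    fun g h => ?_, fun x => ?_⟩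
  · show FreeGroup.lift (fun x => d3Perm (f (FreeGroup.of x)) (c x)) (g * h) 0 = _
    rw [map_mul, Equiv.Perm.mul_apply, d3_affine, add_comm]
  · show FreeGroup.lift (fun x => d3Perm (f (FreeGroup.of x)) (c x)) (FreeGroup.of x) 0 = c x
    rw [FreeGroup.lift_apply_of]
    show MonoidAlgebra.of K G (f (FreeGroup.of x)) * 0 + c x = c x
    rw [mul_zero, zero_add]

private theorem d3_one {K : Type*} [Field K] {α : Type} {G : Type} [Group G] (f : FreeGroup α →* G)
    {d : FreeGroup α → MonoidAlgebra K G}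
    (hd : ∀ g h, d (g * h) = d g + MonoidAlgebra.of K G (f g) * d h) : d 1 = 0 := by
  have h1 := hd 1 1
  rw [mul_one, map_one, map_one, one_mul] at h1
  exact left_eq_add.1 h1

private theorem d3_inv {K : Type*} [Field K] {α : Type} {G : Type} [Group G] (f : FreeGroup α →* G)
    {d : FreeGroup α → MonoidAlgebra K G}
    (hd : ∀ g h, d (g * h) = d g + MonoidAlgebra.of K G (f g) * d h) (x : FreeGroup α) :
    d x⁻¹ = -(MonoidAlgebra.of K G (f x⁻¹) * d x) := by
  have h1 := hd x⁻¹ x
  rw [inv_mul_cancel, d3_one f hd] at h1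
  exact eq_neg_of_add_eq_zero_left h1.symm

/-- Two derivations along `f` which agree on the generators are equal. -/
theorem der_ext {K : Type*} [Field K] {α : Type} {G : Type} [Group G] (f : FreeGroup α →* G)
    {d d' : FreeGroup α → MonoidAlgebra K G}
    (hd : ∀ g h, d (g * h) = d g + MonoidAlgebra.of K G (f g) * d h)
    (hd' : ∀ g h, d' (g * h) = d' g + MonoidAlgebra.of K G (f g) * d' h)
    (h : ∀ x, d (FreeGroup.of x) = d' (FreeGroup.of x)) : d = d' := by
  funext g
  induction g using FreeGroup.induction_on with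
  | C1 => rw [d3_one f hd, d3_one f hd']
  | of x => exact h x
  | inv_of x _ => rw [d3_inv f hd, d3_inv f hd', h x]
  | mul g k ihg ihk => rw [hd, hd', ihg, ihk]

private theorem d3_exists_e {K : Type*} [Field K] {α : Type} (d : FreeGroup α → GA K α)
    (hd : IsDer d) (w : FreeGroup α) (hw : d w = 1) (x₁ x₂ : α) (hx : x₁ ≠ x₂) :
    ∃ e : FreeGroup α → GA K α, IsDer e ∧ e w = 0 ∧ ∃ h, e h ≠ 0 := by
  classical
  have := uniqueProds_freeGroup α
  have : NoZeroDivisors (GA K α) := inferInstance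
  obtain ⟨p, hp, hpx⟩ := exists_der (K := K) (MonoidHom.id (FreeGroup α))
    fun y => if y = x₁ then 1 else 0
  obtain ⟨q, hq, hqx⟩ := exists_der (K := K) (MonoidHom.id (FreeGroup α))
    fun y => if y = x₂ then 1 else 0
  have key : ∀ r : FreeGroup α → GA K α,
      (∀ g h, r (g * h) = r g + MonoidAlgebra.of K _ (MonoidHom.id (FreeGroup α) g) * r h) →
      IsDer (fun g => r g - d g * r w) ∧ (fun g => r g - d g * r w) w = 0 := by
    intro r hr
    constructor
    · intro g h
      show r (g * h) - d (g * h) * r w = (r g - d g * r w) +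
        MonoidAlgebra.of K _ g * (r h - d h * r w)
      rw [hr, hd, MonoidHom.id_apply, add_mul, mul_sub, mul_assoc]
      abel
    · show r w - d w * r w = 0
      rw [hw, one_mul, sub_self]
  by_contra hcon
  push Not at hcon
  have h1 := hcon _ (key p hp).1 (key p hp).2
  have h2 := hcon _ (key q hq).1 (key q hq).2
  have h3 : p (FreeGroup.of x₁) = d (FreeGroup.of x₁) * p w := sub_eq_zero.1 (h1 _)
  have h4 : p (FreeGroup.of x₂) = d (FreeGroup.of x₂) * p w := sub_eq_zero.1 (h1 _)
  have h5 : q (FreeGroup.of x₂) = d (FreeGroup.of x₂) * q w := sub_eq_zero.1 (h2 _)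
  rw [hpx, if_pos rfl] at h3
  rw [hpx, if_neg hx.symm] at h4
  rw [hqx, if_pos rfl] at h5
  rcases mul_eq_zero.1 h4.symm with h6 | h6
  · rw [h6, zero_mul] at h5
    exact one_ne_zero h5
  · rw [h6, mul_zero] at h3
    exact one_ne_zero h3

/-- From a derivation with `d w = 1` in rank at least two: a nonconstant almost invariant
function which is invariant under right multiplication by `w`. -/
theorem exists_invariant {K : Type*} [Field K] {α : Type} (d : FreeGroup α → GA K α)
    (hd : IsDer d) (w : FreeGroup α) (hw : d w = 1) (x₁ x₂ : α) (hx : x₁ ≠ x₂) :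
    ∃ a : FreeGroup α → K, (∀ x, {g | a (g * FreeGroup.of x) ≠ a g}.Finite) ∧
      (∀ g, a (g * w) = a g) ∧ ∃ g h, a g ≠ a h := by
  obtain ⟨e, he, hew, h₀, hh₀⟩ := d3_exists_e d hd w hw x₁ x₂ hx
  have key : ∀ g h, (e (g * h)).coeff 1 = (e g).coeff 1 + (e h).coeff g⁻¹ := by
    intro g h
    rw [he, MonoidAlgebra.coeff_add, Finsupp.add_apply, MonoidAlgebra.of_apply,
      MonoidAlgebra.coeff_single_mul_apply, one_mul, mul_one]
  refine ⟨fun g => (e g).coeff 1, fun x => ?_, fun g => ?_, ?_⟩
  · have h1 : {g : FreeGroup α | (e (g * FreeGroup.of x)).coeff 1 ≠ (e g).coeff 1} ⊆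
        (fun g => g⁻¹) ⁻¹' ((e (FreeGroup.of x)).coeff.support : Set (FreeGroup α)) := by
      intro g hg
      rw [Set.mem_preimage, Finset.mem_coe, Finsupp.mem_support_iff]
      intro h2
      apply hg
      rw [key, h2, add_zero]
    exact ((Finset.finite_toSet _).preimage inv_injective.injOn).subset h1
  · show (e (g * w)).coeff 1 = (e g).coeff 1
    rw [key, hew, MonoidAlgebra.coeff_zero, Finsupp.zero_apply, add_zero]
  · have h1 : (e h₀).coeff ≠ 0 := fun h2 => hh₀ (MonoidAlgebra.coeff_eq_zero.1 h2)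
    obtain ⟨k, hk⟩ := Finsupp.ne_iff.1 h1
    refine ⟨k⁻¹ * h₀, k⁻¹, ?_⟩
    show (e (k⁻¹ * h₀)).coeff 1 ≠ (e k⁻¹).coeff 1
    rw [key, inv_inv]
    intro h2
    exact hk (add_eq_left.1 h2)

end PrimRank
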