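import Pool.Agent.Lib.MP_b8b21d_al.A2
import Pool.Agent.Lib.MP_b8b21d_al.D3

/-!
PROOFS. der_mulEquiv: `d' h = E (d (e⁻¹ h))` with `E = MonoidAlgebra.domCongr K K e`.
der_restrict: `d' g` = the element with coefficients `h ↦ (d (j g)).coeff (j h)` (`Finsupp.comapDomain`,
`j` injective). `of (j g) * x` restricted to the range of `j` is `of g * (x restricted)`: compare
coefficients, `(of g * x).coeff h = x.coeff (g⁻¹ h)`. `d' w` = restriction of `1` is `1`.
exists_map_val: by induction on the word, `w = mk w.toWord` and each letter comes from the subtype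
(`w' = mk (w.toWord.attach.map ...)` or prove: closure/`FreeGroup.lift` argument).
isPrimitiveElt_map_val: `e' : FreeGroup {y // y ≠ x} ≃* FreeGroup ι` with `e' w = of i`. The map
`FreeGroup α →* FreeGroup (ι ⊕ Unit)`, `y ≠ x ↦ map inl (e' (of y))`, `x ↦ of (inr ())` is an
isomorphism, with inverse `inl j ↦ map val (e'.symm (of j))`, `inr () ↦ of x`; it maps `map val w` to
`of (inl i)`. isPrimitiveElt_mulEquiv: `FreeGroupBasis.map`.
Rank one: if `α` is empty, `w = 1`, `d 1 = 0 ≠ 1`. Otherwise `α = {x}`, `w = x^m`. Replacing `w` by `w⁻¹`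
(derivation `g ↦ - d g * of w`, value at `w⁻¹`: `d w⁻¹ = - of w⁻¹ * d w`) we may assume `m ≥ 0`; `m = 0`
impossible; `1 = d (x^m) = (1 + x + ... + x^(m-1)) * d x`. `NoZeroDivisors` (or commutativity: the group
is commutative) gives that `1 + ... + x^(m-1)` is a unit, so it is a `single` by
`isUnit_exists_single`, so `m = 1`. `x` and `x⁻¹` are primitive.
-/

namespace PrimRank

/-- Transport of a derivation along an isomorphism. -/
theorem der_mulEquiv {K : Type*} [Field K] {G H : Type} [Group G] [Group H] (e : G ≃* H)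
    (d : G → MonoidAlgebra K G) (hd : IsDer d) (w : G) (hw : d w = 1) :
    ∃ d' : H → MonoidAlgebra K H, IsDer d' ∧ d' (e w) = 1 := by
  refine ⟨fun h => MonoidAlgebra.mapDomainAlgHom K K (e : G →* H) (d (e.symm h)), ?_, ?_⟩
  · intro g h
    show MonoidAlgebra.mapDomainAlgHom K K (e : G →* H) (d (e.symm (g * h))) =
      MonoidAlgebra.mapDomainAlgHom K K (e : G →* H) (d (e.symm g)) + MonoidAlgebra.of K H g *
        MonoidAlgebra.mapDomainAlgHom K K (e : G →* H) (d (e.symm h))
    rw [map_mul, hd, map_add, map_mul]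
    congr 2
    rw [MonoidAlgebra.of_apply, MonoidAlgebra.of_apply, MonoidAlgebra.mapDomainAlgHom_apply,
      MonoidAlgebra.mapDomain_single]
    simp
  · show MonoidAlgebra.mapDomainAlgHom K K (e : G →* H) (d (e.symm (e w))) = 1
    rw [MulEquiv.symm_apply_apply, hw, map_one]

/-- Restriction of a derivation along an injective homomorphism. -/
theorem der_restrict {K : Type*} [Field K] {G H : Type} [Group G] [Group H] (j : G →* H)
    (hj : Function.Injective j) (d : H → MonoidAlgebra K H) (hd : IsDer d) (w : G)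
    (hw : d (j w) = 1) :
    ∃ d' : G → MonoidAlgebra K G, IsDer d' ∧ d' w = 1 := by
  refine ⟨fun g => MonoidAlgebra.ofCoeff ((d (j g)).coeff.comapDomain j hj.injOn), ?_, ?_⟩
  · intro g h
    ext k
    show (d (j (g * h))).coeff (j k) = _
    rw [map_mul, hd, MonoidAlgebra.coeff_add, Finsupp.add_apply, MonoidAlgebra.of_apply,
      MonoidAlgebra.coeff_single_mul_apply, MonoidAlgebra.coeff_add, Finsupp.add_apply,
      MonoidAlgebra.of_apply, MonoidAlgebra.coeff_single_mul_apply, one_mul, one_mul]
    show (d (j g)).coeff (j k) + (d (j h)).coeff ((j g)⁻¹ * j k) =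
      (d (j g)).coeff (j k) + (d (j h)).coeff (j (g⁻¹ * k))
    rw [map_mul j g⁻¹ k, map_inv j g]
  · ext k
    show (d (j w)).coeff (j k) = (1 : MonoidAlgebra K G).coeff k
    classical
    rw [hw, MonoidAlgebra.one_def, MonoidAlgebra.one_def, MonoidAlgebra.coeff_single,
      MonoidAlgebra.coeff_single, Finsupp.single_apply, Finsupp.single_apply]
    by_cases hk : k = 1
    · subst hk
      simp
    · rw [if_neg, if_neg (fun h => hk h.symm)]
      intro h
      apply hk
      apply hj
      rw [← h, map_one]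

/-- A word without the letter `x` comes from the free group on the other letters. -/
theorem exists_map_val {α : Type} [DecidableEq α] (w : FreeGroup α) (x : α)
    (h : ∀ p ∈ w.toWord, p.1 ≠ x) :
    ∃ w' : FreeGroup {y : α // y ≠ x}, FreeGroup.map Subtype.val w' = w := by
  have key : ∀ L : List (α × Bool), (∀ p ∈ L, p.1 ≠ x) →
      ∃ w' : FreeGroup {y : α // y ≠ x}, FreeGroup.map Subtype.val w' = FreeGroup.mk L := by
    intro L
    induction L with
    | nil => exact fun _ => ⟨1, by rw [map_one]; rfl⟩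
    | cons p L ih =>
      intro hL
      obtain ⟨w', hw'⟩ := ih (fun q hq => hL q (List.mem_cons_of_mem _ hq))
      refine ⟨FreeGroup.mk [(⟨p.1, hL p List.mem_cons_self⟩, p.2)] * w', ?_⟩
      rw [map_mul, hw', FreeGroup.map.mk, FreeGroup.mul_mk]
      rfl
  obtain ⟨w', hw'⟩ := key w.toWord h
  exact ⟨w', by rw [hw', FreeGroup.mk_toWord]⟩

/-- Primitive elements of the free factor on the letters different from `x` are primitive. -/
theorem isPrimitiveElt_map_val {α : Type} (x : α) (w : FreeGroup {y : α // y ≠ x})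
    (h : IsPrimitiveElt w) : IsPrimitiveElt (FreeGroup.map Subtype.val w : FreeGroup α) := by
  classical
  obtain ⟨ι, b, i, hbi⟩ := h
  set φ : FreeGroup α →* FreeGroup (ι ⊕ Unit) := FreeGroup.lift fun y =>
    if h : y ≠ x then FreeGroup.map Sum.inl (b.repr (FreeGroup.of ⟨y, h⟩))
    else FreeGroup.of (Sum.inr ()) with hφ
  set ψ : FreeGroup (ι ⊕ Unit) →* FreeGroup α := FreeGroup.lift (Sum.elim
    (fun k => FreeGroup.map Subtype.val (b k)) (fun _ => FreeGroup.of x)) with hψ
  have e1 : ψ.comp (FreeGroup.map Sum.inl) =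
      (FreeGroup.map Subtype.val).comp (b.repr.symm : FreeGroup ι →* FreeGroup {y : α // y ≠ x}) := by
    ext k
    rw [MonoidHom.comp_apply, MonoidHom.comp_apply, FreeGroup.map.of, hψ, FreeGroup.lift_apply_of]
    rfl
  have e2 : φ.comp (FreeGroup.map Subtype.val) =
      (FreeGroup.map Sum.inl).comp (b.repr : FreeGroup {y : α // y ≠ x} →* FreeGroup ι) := by
    ext k
    rw [MonoidHom.comp_apply, MonoidHom.comp_apply, FreeGroup.map.of, hφ, FreeGroup.lift_apply_of,
      dif_pos k.2]
    rfl
  have h1 : ψ.comp φ = MonoidHom.id _ := by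
    ext y
    rw [MonoidHom.comp_apply, MonoidHom.id_apply, hφ, FreeGroup.lift_apply_of]
    by_cases hy : y ≠ x
    · rw [dif_pos hy]
      have h2 := DFunLike.congr_fun e1 (b.repr (FreeGroup.of ⟨y, hy⟩))
      rw [MonoidHom.comp_apply, MonoidHom.comp_apply] at h2
      rw [h2]
      show FreeGroup.map Subtype.val (b.repr.symm (b.repr (FreeGroup.of ⟨y, hy⟩))) = _
      rw [MulEquiv.symm_apply_apply, FreeGroup.map.of]
    · rw [dif_neg hy, hψ, FreeGroup.lift_apply_of]
      show FreeGroup.of x = FreeGroup.of y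
      rw [not_not.1 hy]
  have h2 : φ.comp ψ = MonoidHom.id _ := by
    ext y
    rw [MonoidHom.comp_apply, MonoidHom.id_apply, hψ, FreeGroup.lift_apply_of]
    rcases y with k | u
    · show φ (FreeGroup.map Subtype.val (b k)) = _
      have h3 := DFunLike.congr_fun e2 (b k)
      rw [MonoidHom.comp_apply, MonoidHom.comp_apply] at h3
      rw [h3]
      show FreeGroup.map Sum.inl (b.repr (b k)) = _
      rw [FreeGroupBasis.repr_apply_coe, FreeGroup.map.of]
    · show φ (FreeGroup.of x) = _
      rw [hφ, FreeGroup.lift_apply_of, dif_neg (by simp)]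
  let e : FreeGroup α ≃* FreeGroup (ι ⊕ Unit) := MonoidHom.toMulEquiv φ ψ h1 h2
  refine ⟨ι ⊕ Unit, FreeGroupBasis.ofRepr e, Sum.inl i, ?_⟩
  show e.symm (FreeGroup.of (Sum.inl i)) = _
  show ψ (FreeGroup.of (Sum.inl i)) = _
  rw [hψ, FreeGroup.lift_apply_of]
  show FreeGroup.map Subtype.val (b i) = _
  rw [hbi]

theorem isPrimitiveElt_mulEquiv {G H : Type} [Group G] [Group H] (e : G ≃* H) {g : G}
    (h : IsPrimitiveElt g) : IsPrimitiveElt (e g) := by
  obtain ⟨ι, b, i, hbi⟩ := h
  exact ⟨ι, b.map e, i, by rw [FreeGroupBasis.map_apply, hbi]⟩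

private theorem d4_one {K : Type*} [Field K] {G : Type} [Group G] {d : G → MonoidAlgebra K G}
    (hd : IsDer d) : d 1 = 0 := by
  have h1 := hd 1 1
  rw [mul_one, map_one, one_mul] at h1
  exact left_eq_add.1 h1

private theorem d4_pow {K : Type*} [Field K] {G : Type} [Group G] {d : G → MonoidAlgebra K G}
    (hd : IsDer d) (x : G) (m : ℕ) :
    d (x ^ m) = (∑ i ∈ Finset.range m, MonoidAlgebra.of K G (x ^ i)) * d x := by
  induction m with
  | zero => rw [pow_zero, d4_one hd, Finset.sum_range_zero, zero_mul]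
  | succ m ih => rw [pow_succ, hd, ih, Finset.sum_range_succ, add_mul]

/-- a unit sum `1 + x + ... + x^(m-1)` has one term -/
private theorem d4_unit {K : Type*} [Field K] {α : Type} (x : α) (m : ℕ) (t : GA K α)
    (h : (∑ i ∈ Finset.range m, MonoidAlgebra.of K (FreeGroup α) (FreeGroup.of x ^ i)) * t = 1) :
    m = 1 := by
  classical
  have := uniqueProds_freeGroup α
  have : NoZeroDivisors (GA K α) := inferInstance
  set s : GA K α := ∑ i ∈ Finset.range m, MonoidAlgebra.of K (FreeGroup α) (FreeGroup.of x ^ i)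
    with hs
  have hinj : ∀ i k : ℕ, (FreeGroup.of x : FreeGroup α) ^ i = FreeGroup.of x ^ k → i = k := by
    intro i k hik
    have h1 := congrArg (FreeGroup.lift fun _ : α => Multiplicative.ofAdd (1 : ℤ)) hik
    rw [map_pow, map_pow, FreeGroup.lift_apply_of, ← ofAdd_nsmul, ← ofAdd_nsmul] at h1
    have h2 := Multiplicative.ofAdd.injective h1
    simpa using h2
  have hcoef : ∀ k : ℕ, k < m → s.coeff (FreeGroup.of x ^ k) = 1 := by
    intro k hk
    rw [hs, MonoidAlgebra.coeff_sum, Finsupp.finsetSum_apply, Finset.sum_eq_single k]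
    · rw [MonoidAlgebra.of_apply, MonoidAlgebra.coeff_single, Finsupp.single_eq_same]
    · intro i _ hik
      rw [MonoidAlgebra.of_apply, MonoidAlgebra.coeff_single, Finsupp.single_apply, if_neg]
      intro h1
      exact hik (hinj i k h1)
    · intro h1
      exact absurd (Finset.mem_range.2 hk) h1
  have hts : t * s = 1 := by
    have ht : t ≠ 0 := by
      rintro rfl
      rw [mul_zero] at h
      exact zero_ne_one h
    have h1 : (t * s - 1) * t = 0 := by
      rw [sub_mul, mul_assoc, h, mul_one, one_mul, sub_self]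
    rcases mul_eq_zero.1 h1 with h2 | h2
    · exact sub_eq_zero.1 h2
    · exact absurd h2 ht
  have hu : IsUnit s := ⟨⟨s, t, h, hts⟩, rfl⟩
  obtain ⟨c, g, hc, hg⟩ := isUnit_exists_single hu
  have hone : ∀ k : ℕ, k < m → (FreeGroup.of x : FreeGroup α) ^ k = g := by
    intro k hk
    have h1 := hcoef k hk
    rw [hg, MonoidAlgebra.coeff_single, Finsupp.single_apply] at h1
    by_contra hne
    rw [if_neg (fun h2 => hne h2.symm)] at h1
    exact zero_ne_one h1
  rcases m with _ | m
  · exfalso
    rw [hs, Finset.sum_range_zero, zero_mul] at h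
    exact zero_ne_one h
  · rcases m with _ | m
    · rfl
    · exfalso
      have h1 := hinj 0 1 ((hone 0 (by omega)).trans (hone 1 (by omega)).symm)
      exact absurd h1 (by norm_num)

/-- Rank at most one. -/
theorem isPrimitiveElt_of_der_subsingleton {K : Type*} [Field K] {α : Type} [Subsingleton α]
    (w : FreeGroup α) (d : FreeGroup α → GA K α) (hd : IsDer d) (hw : d w = 1) :
    IsPrimitiveElt w := by
  classical
  have h10 : (1 : GA K α) ≠ 0 := one_ne_zero
  by_cases hne : Nonempty α
  · obtain ⟨x⟩ := hne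
    have hprim : IsPrimitiveElt (FreeGroup.of x : FreeGroup α) :=
      ⟨α, FreeGroupBasis.ofFreeGroup α, x, FreeGroupBasis.ofFreeGroup_apply x⟩
    have hcyc : ∀ v : FreeGroup α, ∃ m : ℤ, v = FreeGroup.of x ^ m := by
      intro v
      induction v using FreeGroup.induction_on with
      | C1 => exact ⟨0, by simp⟩
      | of y => exact ⟨1, by rw [Subsingleton.elim y x, zpow_one]⟩
      | inv_of y _ => exact ⟨-1, by rw [Subsingleton.elim y x, zpow_neg_one]⟩
      | mul g h ihg ihh =>
        obtain ⟨a, rfl⟩ := ihg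
        obtain ⟨b, rfl⟩ := ihh
        exact ⟨a + b, (zpow_add _ _ _).symm⟩
    obtain ⟨m, rfl⟩ := hcyc w
    rcases Int.eq_nat_or_neg m with ⟨n, rfl | rfl⟩
    · rw [zpow_natCast] at hw ⊢
      rw [d4_pow hd] at hw
      rw [d4_unit x n _ hw, pow_one]
      exact hprim
    · rw [zpow_neg, zpow_natCast] at hw ⊢
      have h1 := hd (FreeGroup.of x ^ n)⁻¹ (FreeGroup.of x ^ n)
      rw [inv_mul_cancel, d4_one hd, hw] at h1
      have h2 : MonoidAlgebra.of K (FreeGroup α) (FreeGroup.of x ^ n) *
          (1 + MonoidAlgebra.of K (FreeGroup α) (FreeGroup.of x ^ n)⁻¹ *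
            d (FreeGroup.of x ^ n)) = 0 := by
        rw [← h1, mul_zero]
      rw [mul_add, mul_one, ← mul_assoc, ← map_mul, mul_inv_cancel, map_one, one_mul,
        d4_pow hd] at h2
      have h3 : (∑ i ∈ Finset.range n, MonoidAlgebra.of K (FreeGroup α) (FreeGroup.of x ^ i)) *
          (d (FreeGroup.of x) * (-MonoidAlgebra.of K (FreeGroup α) (FreeGroup.of x ^ n)⁻¹)) = 1 := by
        rw [← mul_assoc, eq_neg_of_add_eq_zero_right h2, neg_mul_neg, ← map_mul, mul_inv_cancel,
          map_one]
      rw [d4_unit x n _ h3, pow_one]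
      let σ : FreeGroup α →* FreeGroup α := FreeGroup.lift fun y => (FreeGroup.of y)⁻¹
      have hσ : σ.comp σ = MonoidHom.id _ := by
        ext y
        rw [MonoidHom.comp_apply]
        show σ (FreeGroup.lift (fun y => (FreeGroup.of y)⁻¹) (FreeGroup.of y)) = _
        rw [FreeGroup.lift_apply_of, map_inv]
        show (FreeGroup.lift (fun y => (FreeGroup.of y)⁻¹) (FreeGroup.of y))⁻¹ = _
        rw [FreeGroup.lift_apply_of, inv_inv]
        rfl
      have h4 := isPrimitiveElt_mulEquiv (MonoidHom.toMulEquiv σ σ hσ hσ) hprim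
      have h5 : (MonoidHom.toMulEquiv σ σ hσ hσ) (FreeGroup.of x) = (FreeGroup.of x)⁻¹ := by
        show FreeGroup.lift (fun y => (FreeGroup.of y)⁻¹) (FreeGroup.of x) = _
        rw [FreeGroup.lift_apply_of]
      rw [h5] at h4
      exact h4
  · exfalso
    have he : IsEmpty α := not_nonempty_iff.1 hne
    have h1 : w = 1 := Subsingleton.elim _ _
    rw [h1, d4_one hd] at hw
    exact h10 hw.symm

end PrimRank
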