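import Pool.Agent.Lib.MP_b8b21d_al.D1
import Pool.Agent.Lib.MP_b8b21d_al.D2
import Pool.Agent.Lib.MP_b8b21d_al.D4

/-!
PROOF of isPrimitiveElt_of_der. Induction on `Nat.card α` (statement for all finite `α`, `w`, `d`).
If `α` is a subsingleton: `isPrimitiveElt_of_der_subsingleton`. Let `x₁ ≠ x₂`. Among all `τ w`, `τ` an
automorphism of `FreeGroup α`, choose one with minimal norm; by `der_mulEquiv` and
`isPrimitiveElt_mulEquiv` we may replace `w` by it: so `w.norm ≤ (τ w).norm` for all `τ`. `w ≠ 1` as
`d 1 = 0`. `w.toWord` is cyclically reduced: otherwise `w.toWord = y :: L ++ [y⁻¹]` and conjugation by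
`[y]` shortens `w` (`FreeGroup.IsCyclicallyReduced`, `reduceCyclically`, `conj_conjugator_reduceCyclically`
in Mathlib/GroupTheory/FreeGroup/CyclicallyReduced.lean). `exists_invariant`, `exists_partition` and
`whitehead_step` give a generator `x` which does not occur in `w`. `exists_map_val`: `w = map val w'`;
`der_restrict` (`j = FreeGroup.map Subtype.val`, injective) gives a derivation for `w'`; the induction
hypothesis for `{y // y ≠ x}` and `isPrimitiveElt_map_val` finish.
exists_der_of_isPrimitiveElt: `g = b i`; `exists_der` on `FreeGroup ι` with `f = id`, `c = Pi.single i 1`,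
transported by `der_mulEquiv` with `b.repr.symm`.
-/

namespace PrimRank

private theorem d5_map_val_injective {α : Type} (x : α) :
    Function.Injective (FreeGroup.map (Subtype.val : {y : α // y ≠ x} → α)) := by
  classical
  intro g h hgh
  set σ : FreeGroup α →* FreeGroup {y : α // y ≠ x} := FreeGroup.lift fun y =>
    if hy : y ≠ x then FreeGroup.of ⟨y, hy⟩ else 1 with hσ
  have key : σ.comp (FreeGroup.map Subtype.val) = MonoidHom.id _ := by
    ext y
    rw [MonoidHom.comp_apply, FreeGroup.map.of, MonoidHom.id_apply, hσ, FreeGroup.lift_apply_of,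
      dif_pos y.2]
  have h1 := DFunLike.congr_fun key g
  have h2 := DFunLike.congr_fun key h
  rw [MonoidHom.comp_apply, MonoidHom.id_apply] at h1 h2
  rw [← h1, ← h2, hgh]

/-- A word of minimal length among its images under automorphisms is cyclically reduced. -/
private theorem d5_cyc {α : Type} [DecidableEq α] (w : FreeGroup α)
    (hmin : ∀ σ : FreeGroup α ≃* FreeGroup α, w.norm ≤ (σ w).norm) :
    FreeGroup.IsCyclicallyReduced w.toWord := by
  set C := FreeGroup.reduceCyclically.conjugator w.toWord with hC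
  set R := FreeGroup.reduceCyclically w.toWord with hR
  have h1 : C ++ R ++ FreeGroup.invRev C = w.toWord :=
    FreeGroup.reduceCyclically.conj_conjugator_reduceCyclically w.toWord
  have h2 : w = FreeGroup.mk C * FreeGroup.mk R * (FreeGroup.mk C)⁻¹ := by
    rw [FreeGroup.inv_mk, FreeGroup.mul_mk, FreeGroup.mul_mk, h1, FreeGroup.mk_toWord]
  have h3 : MulAut.conj (FreeGroup.mk C)⁻¹ w = FreeGroup.mk R := by
    rw [MulAut.conj_apply, inv_inv]
    conv_lhs => rw [h2]
    group
  have h4 : w.norm ≤ (FreeGroup.mk R).norm := by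
    have := hmin (MulAut.conj (FreeGroup.mk C)⁻¹)
    rwa [h3] at this
  have h5 : (FreeGroup.mk R).norm ≤ R.length := FreeGroup.norm_mk_le
  have h6 : w.norm = C.length + R.length + C.length := by
    show w.toWord.length = _
    rw [← h1, List.length_append, List.length_append, FreeGroup.invRev_length]
  have h7 : C = [] := List.length_eq_zero_iff.1 (by omega)
  have h8 : R = w.toWord := by
    rw [← h1, h7]
    simp
  rw [← h8]
  exact FreeGroup.reduceCyclically.isCyclicallyReduced FreeGroup.isReduced_toWord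

/-- If `w - 1` is unimodular in the augmentation ideal of `K[F]`, `F` free of finite rank, then `w`
is primitive in `F`. -/
theorem isPrimitiveElt_of_der {K : Type*} [Field K] {α : Type} [Finite α]
    (w : FreeGroup α) (d : FreeGroup α → GA K α) (hd : IsDer d) (hw : d w = 1) :
    IsPrimitiveElt w := by
  obtain ⟨n, hn⟩ : ∃ n, Nat.card α = n := ⟨_, rfl⟩
  induction n using Nat.strong_induction_on generalizing α with
  | _ n ih =>
  classical
  by_cases hs : Subsingleton α
  · exact isPrimitiveElt_of_der_subsingleton w d hd hw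
  have : Nontrivial α := not_subsingleton_iff_nontrivial.1 hs
  obtain ⟨x₁, x₂, hx⟩ := exists_pair_ne α
  obtain ⟨τ, hτ⟩ : ∃ τ : FreeGroup α ≃* FreeGroup α, ∀ τ' : FreeGroup α ≃* FreeGroup α,
      (τ w).norm ≤ (τ' w).norm := by
    have hex : ∃ m, ∃ τ : FreeGroup α ≃* FreeGroup α, (τ w).norm = m :=
      ⟨_, MulEquiv.refl _, rfl⟩
    obtain ⟨τ, hτ⟩ := Nat.find_spec hex
    exact ⟨τ, fun τ' => by rw [hτ]; exact Nat.find_min' hex ⟨τ', rfl⟩⟩
  obtain ⟨d', hd', hw'⟩ := der_mulEquiv τ d hd w hw
  have hback : IsPrimitiveElt (τ w) → IsPrimitiveElt w := by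
    intro h
    have h1 := isPrimitiveElt_mulEquiv τ.symm h
    rwa [MulEquiv.symm_apply_apply] at h1
  apply hback
  have hmin : ∀ σ : FreeGroup α ≃* FreeGroup α, (τ w).norm ≤ (σ (τ w)).norm := fun σ =>
    hτ (τ.trans σ)
  generalize τ w = w' at hw' hmin ⊢
  have hne : w' ≠ 1 := by
    rintro rfl
    have h1 := hd' 1 1
    rw [mul_one, map_one, one_mul, hw'] at h1
    exact one_ne_zero (left_eq_add.1 h1)
  have hcr := d5_cyc w' hmin
  obtain ⟨a, ha1, ha2, ha3⟩ := exists_invariant d' hd' w' hw' x₁ x₂ hx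
  obtain ⟨y0, P, P', p1, p2, p3, p4, p5, p6⟩ := exists_partition a w' hne hcr ha1 ha2 ha3
  rcases whitehead_step w' hne hcr y0 P P' p1 p2 p3 p4 p5 p6 with ⟨x, hxw⟩ | ⟨σ, hσ⟩
  · obtain ⟨w'', hw''⟩ := exists_map_val w' x hxw
    obtain ⟨d'', hd'', h''⟩ := der_restrict (FreeGroup.map (Subtype.val : {y : α // y ≠ x} → α))
      (d5_map_val_injective x) d' hd' w'' (by rw [hw'']; exact hw')
    have hlt : Nat.card {y : α // y ≠ x} < n := by
      rw [← hn]
      exact Finite.card_subtype_lt (x := x) (by simp)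
    have h1 := ih _ hlt w'' d'' hd'' h'' rfl
    rw [← hw'']
    exact isPrimitiveElt_map_val x w'' h1
  · exact absurd (hmin σ) (not_le.2 hσ)

/-- Primitive elements have a derivation with value `1`. -/
theorem exists_der_of_isPrimitiveElt (K : Type*) [Field K] {G : Type} [Group G] {g : G}
    (hg : IsPrimitiveElt g) : ∃ d : G → MonoidAlgebra K G, IsDer d ∧ d g = 1 := by
  classical
  obtain ⟨ι, b, i, rfl⟩ := hg
  obtain ⟨d, hd, hdx⟩ := exists_der (K := K) (MonoidHom.id (FreeGroup ι))
    (fun j => if j = i then 1 else 0)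
  exact der_mulEquiv b.repr.symm d hd (FreeGroup.of i) (by rw [hdx, if_pos rfl])

end PrimRank
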