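import Mathlib

/-!
Definitions for MP_b8b21d_al (primitivity rank in free group algebras over arbitrary fields).
-/

namespace PrimRank

/-- `g` belongs to some free basis of the group `G`. -/
def IsPrimitiveElt {G : Type} [Group G] (g : G) : Prop :=
  ∃ (ι : Type) (b : FreeGroupBasis ι G) (i : ι), b i = g

/-- The primitivity rank `π(w)`: the least rank of a (finitely generated) subgroup `H` of the free
group that contains `w` as a non-primitive element (`⊤` if there is none). -/
noncomputable def primRank {α : Type} (w : FreeGroup α) : ℕ∞ :=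
  sInf {n : ℕ∞ | ∃ (H : Subgroup (FreeGroup α)) (hw : w ∈ H) (m : ℕ),
    n = m ∧ Nonempty (FreeGroupBasis (Fin m) H) ∧ ¬ IsPrimitiveElt (⟨w, hw⟩ : H)}

/-- `f` belongs to some basis of the module `I` over the ring `R`. -/
def IsPrimitiveIn (R : Type*) {I : Type*} [Semiring R] [AddCommMonoid I] [Module R I]
    (f : I) : Prop :=
  ∃ (s : Set I) (b : Module.Basis s R I), (∀ x : s, b x = x) ∧ f ∈ s

/-- The `K`-primitivity rank `π_K(w)`: the least rank of a proper right ideal `I` of the group
algebra `K[F]` that contains `w - 1` as a non-primitive element (`⊤` if there is none).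
Right ideals are the submodules of `K[F]` over the opposite ring. -/
noncomputable def kPrimRank (K : Type*) [Field K] {α : Type} (w : FreeGroup α) : ℕ∞ :=
  sInf {n : ℕ∞ | ∃ (I : Submodule (MonoidAlgebra K (FreeGroup α))ᵐᵒᵖ (MonoidAlgebra K (FreeGroup α)))
    (hw : MonoidAlgebra.of K (FreeGroup α) w - 1 ∈ I) (m : ℕ),
    n = m ∧ I ≠ ⊤ ∧ Nonempty (Module.Basis (Fin m) (MonoidAlgebra K (FreeGroup α))ᵐᵒᵖ I) ∧
    ¬ IsPrimitiveIn (MonoidAlgebra K (FreeGroup α))ᵐᵒᵖ
      (⟨MonoidAlgebra.of K (FreeGroup α) w - 1, hw⟩ : I)}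

/-- The product `u_0 u_1 ... u_(s-1)` in the free product of the free groups of ranks `r i`. -/
def blockProd {s : ℕ} {r : Fin s → ℕ} (u : ∀ i, FreeGroup (Fin (r i))) :
    FreeGroup (Σ i : Fin s, Fin (r i)) :=
  (List.ofFn fun i => FreeGroup.map (Sigma.mk i) (u i)).prod

end PrimRank
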