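import Pool.Agent.Lib.MP_b8b21d_al.Defs

/-!
Left-handed auxiliary definitions for MP_b8b21d_al.
-/

namespace PrimRank

/-- The group algebra of the free group on `α`. -/
abbrev GA (K : Type*) [Field K] (α : Type) := MonoidAlgebra K (FreeGroup α)

/-- The algebra map induced by a group homomorphism. -/
noncomputable abbrev gmap (K : Type*) [Field K] {α β : Type}
    (f : FreeGroup α →* FreeGroup β) : GA K α →ₐ[K] GA K β :=
  MonoidAlgebra.mapDomainAlgHom K K f

/-- The left-handed `K`-primitivity rank, with unimodularity in place of primitivity. -/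
noncomputable def kPrimRankL (K : Type*) [Field K] {α : Type} (w : FreeGroup α) : ℕ∞ :=
  sInf {n : ℕ∞ | ∃ (I : Submodule (GA K α) (GA K α))
    (hw : MonoidAlgebra.of K (FreeGroup α) w - 1 ∈ I) (m : ℕ),
    n = m ∧ I ≠ ⊤ ∧ Nonempty (Module.Basis (Fin m) (GA K α) I) ∧
    ¬ ∃ φ : I →ₗ[GA K α] GA K α, φ ⟨MonoidAlgebra.of K (FreeGroup α) w - 1, hw⟩ = 1}

/-- `LB K w n`: for every scalar `c ≠ 0`, `w - c` is unimodular in every proper left ideal of rank
less than `n` which contains it. -/
def LB (K : Type*) [Field K] {α : Type} (w : FreeGroup α) (n : ℕ) : Prop :=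
  ∀ (c : K), c ≠ 0 → ∀ (I : Submodule (GA K α) (GA K α)), I ≠ ⊤ → ∀ m : ℕ, m < n →
    Nonempty (Module.Basis (Fin m) (GA K α) I) →
    ∀ hw : MonoidAlgebra.of K (FreeGroup α) w - c • (1 : GA K α) ∈ I,
      ∃ φ : I →ₗ[GA K α] GA K α, φ ⟨_, hw⟩ = 1

/-- Derivations (crossed homomorphisms) of a group `G` in its group algebra. -/
def IsDer {K : Type*} [Field K] {G : Type} [Group G] (d : G → MonoidAlgebra K G) : Prop :=
  ∀ g h : G, d (g * h) = d g + MonoidAlgebra.of K G g * d h

end PrimRank
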