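import Pool.Agent.Lib.MP_b8b21d_al.D5

/-!
PROOFS. `A = K[G]`. subIdeal_ne_top: the augmentation `A → K` is a ring hom which kills all `h - 1`.
Restriction maps: for `g : G` and `a ∈ A` let `p_g a ∈ K[H]` have the coefficients
`h ↦ a.coeff (g * h)`. Then `p_g (a * ι b) = p_g a * b` for `b ∈ K[H]`, `ι : K[H] → K[G]` the
inclusion. Also `p_1 (ι b * a) = b * p_1 a`.
nonempty_basis_subIdeal: basis elements `b i - 1`. Generation: `h h' - 1 = h (h' - 1) + (h - 1)`,
`h⁻¹ - 1 = - h⁻¹ (h - 1)`, and `H` is generated by the `b i`. Independence: if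
`∑ a_i (b i - 1) = 0` in `A` then for all `g`: `∑ p_g(a_i) (b i - 1) = 0` in `K[H]`, and in
`K[H] ≅ K[FreeGroup ι]` the `x_i - 1` are left independent: for a derivation `∂_j` of the free group with
`∂_j x_i = δ_ij` (`exists_der`) the additive map `f ↦ ∑ f(g) ∂_j g` satisfies
`∂ (c * (x_i - 1)) = c * ∂ x_i`; so `p_g(a_j) = 0` for all `g`, hence `a_j = 0`.
exists_der_of_functional: `d h = p_1 (φ ⟨h - 1, _⟩)`; `h h' - 1 = (h - 1) + h (h' - 1)`, `φ` is linear,
`p_1 (of h * a) = of h * p_1 a`; `d w = p_1 1 = 1`.
kPrimRankL_le_primRank: let `H, m, b` be in the set defining `primRank w`. Then `I = subIdeal K H` with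
its basis is in the set defining `kPrimRankL`: if `φ (w - 1) = 1` then the derivation of `H` with
`d w = 1`, transported to `FreeGroup (Fin m)` by `b.repr` (`der_mulEquiv`), shows that `b.repr w` is
primitive (`isPrimitiveElt_of_der`), so `w` is primitive in `H`, contradiction. (`sInf_le_sInf`.)
-/

namespace PrimRank

/-- The left ideal of `K[G]` generated by the `h - 1`, `h` in the subgroup `H`. -/
noncomputable def subIdeal (K : Type*) [Field K] {G : Type} [Group G] (H : Subgroup G) :
    Submodule (MonoidAlgebra K G) (MonoidAlgebra K G) :=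
  Submodule.span (MonoidAlgebra K G) {f | ∃ h ∈ H, f = MonoidAlgebra.of K G h - 1}

private theorem E1_aug (K : Type*) [Field K] {G : Type} [Group G] (H : Subgroup G)
    (x : MonoidAlgebra K G) (hx : x ∈ subIdeal K H) :
    MonoidAlgebra.lift K K G (1 : G →* K) x = 0 := by
  unfold subIdeal at hx
  induction hx using Submodule.span_induction with
  | mem y hy =>
    obtain ⟨h, _, rfl⟩ := hy
    rw [map_sub, MonoidAlgebra.lift_of, map_one (MonoidAlgebra.lift K K G (1 : G →* K))]
    simp
  | zero => simp
  | add y z _ _ hy hz => rw [map_add, hy, hz, add_zero]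
  | smul a y _ hy => rw [smul_eq_mul, map_mul, hy, mul_zero]

theorem subIdeal_ne_top (K : Type*) [Field K] {G : Type} [Group G] (H : Subgroup G) :
    subIdeal K H ≠ ⊤ := by
  intro h
  have h1 : (1 : MonoidAlgebra K G) ∈ subIdeal K H := by rw [h]; trivial
  have h2 := E1_aug K H 1 h1
  rw [map_one (MonoidAlgebra.lift K K G (1 : G →* K))] at h2
  exact one_ne_zero h2

/-- restriction of the coefficients to the coset `g H` -/
private noncomputable def E1_res (K : Type*) [Field K] {G : Type} [Group G] (H : Subgroup G) (g : G)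
    (a : MonoidAlgebra K G) : MonoidAlgebra K H :=
  MonoidAlgebra.ofCoeff (Finsupp.comapDomain (fun h : H => g * (h : G)) a.coeff
    (fun _ _ _ _ hxy => Subtype.ext (mul_left_cancel hxy)))

private theorem E1_res_coeff (K : Type*) [Field K] {G : Type} [Group G] (H : Subgroup G) (g : G)
    (a : MonoidAlgebra K G) (h : H) : (E1_res K H g a).coeff h = a.coeff (g * h) := rfl

private theorem E1_res_add (K : Type*) [Field K] {G : Type} [Group G] (H : Subgroup G) (g : G)
    (a b : MonoidAlgebra K G) : E1_res K H g (a + b) = E1_res K H g a + E1_res K H g b := by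
  ext h
  rw [E1_res_coeff, MonoidAlgebra.coeff_add, MonoidAlgebra.coeff_add, Finsupp.add_apply,
    Finsupp.add_apply, E1_res_coeff, E1_res_coeff]

private theorem E1_res_sub (K : Type*) [Field K] {G : Type} [Group G] (H : Subgroup G) (g : G)
    (a b : MonoidAlgebra K G) : E1_res K H g (a - b) = E1_res K H g a - E1_res K H g b := by
  ext h
  rw [E1_res_coeff, MonoidAlgebra.coeff_sub, MonoidAlgebra.coeff_sub, Finsupp.sub_apply,
    Finsupp.sub_apply, E1_res_coeff, E1_res_coeff]

private theorem E1_res_zero (K : Type*) [Field K] {G : Type} [Group G] (H : Subgroup G) (g : G) :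
    E1_res K H g 0 = 0 := by
  ext h
  rw [E1_res_coeff]
  rfl

private theorem E1_res_sum (K : Type*) [Field K] {G : Type} [Group G] (H : Subgroup G) (g : G)
    {ι : Type*} (s : Finset ι) (a : ι → MonoidAlgebra K G) :
    E1_res K H g (∑ i ∈ s, a i) = ∑ i ∈ s, E1_res K H g (a i) := by
  classical
  induction s using Finset.induction_on with
  | empty => simp [E1_res_zero]
  | insert i s hi ih => rw [Finset.sum_insert hi, Finset.sum_insert hi, E1_res_add, ih]

private theorem E1_res_mul_of (K : Type*) [Field K] {G : Type} [Group G] (H : Subgroup G) (g : G)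
    (a : MonoidAlgebra K G) (k : H) :
    E1_res K H g (a * MonoidAlgebra.of K G (k : G)) = E1_res K H g a * MonoidAlgebra.of K H k := by
  ext h
  rw [E1_res_coeff, MonoidAlgebra.of_apply, MonoidAlgebra.of_apply,
    MonoidAlgebra.coeff_mul_single_apply, MonoidAlgebra.coeff_mul_single_apply, E1_res_coeff]
  simp [mul_assoc]

private theorem E1_res_of_mul (K : Type*) [Field K] {G : Type} [Group G] (H : Subgroup G)
    (a : MonoidAlgebra K G) (k : H) :
    E1_res K H 1 (MonoidAlgebra.of K G (k : G) * a) = MonoidAlgebra.of K H k * E1_res K H 1 a := by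
  ext h
  rw [E1_res_coeff, MonoidAlgebra.of_apply, MonoidAlgebra.of_apply,
    MonoidAlgebra.coeff_single_mul_apply, MonoidAlgebra.coeff_single_mul_apply, E1_res_coeff]
  simp

private theorem E1_res_one (K : Type*) [Field K] {G : Type} [Group G] (H : Subgroup G) :
    E1_res K H 1 1 = 1 := by
  classical
  ext h
  rw [E1_res_coeff, MonoidAlgebra.one_def, MonoidAlgebra.one_def, MonoidAlgebra.coeff_single,
    MonoidAlgebra.coeff_single, Finsupp.single_apply, Finsupp.single_apply]
  simp [eq_comm]

private theorem E1_of_mem (K : Type*) [Field K] {G : Type} [Group G] (H : Subgroup G) (h : H) :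
    MonoidAlgebra.of K G (h : G) - 1 ∈ subIdeal K H :=
  Submodule.subset_span ⟨h, h.2, rfl⟩

/-- The `K`-linear extension of a map `H → K[H]`. -/
private noncomputable def E1_ext (K : Type*) [Field K] {H : Type} [Group H]
    (d : H → MonoidAlgebra K H) (f : MonoidAlgebra K H) : MonoidAlgebra K H :=
  f.coeff.sum fun h c => c • d h

private theorem E1_ext_add (K : Type*) [Field K] {H : Type} [Group H]
    (d : H → MonoidAlgebra K H) (f g : MonoidAlgebra K H) :
    E1_ext K d (f + g) = E1_ext K d f + E1_ext K d g := by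
  unfold E1_ext
  rw [MonoidAlgebra.coeff_add]
  exact Finsupp.sum_add_index' (fun h => zero_smul _ _) (fun h a b => add_smul _ _ _)

private theorem E1_ext_zero (K : Type*) [Field K] {H : Type} [Group H]
    (d : H → MonoidAlgebra K H) : E1_ext K d 0 = 0 := by
  unfold E1_ext
  simp

private theorem E1_ext_sum (K : Type*) [Field K] {H : Type} [Group H]
    (d : H → MonoidAlgebra K H) {ι : Type*} (s : Finset ι) (a : ι → MonoidAlgebra K H) :
    E1_ext K d (∑ i ∈ s, a i) = ∑ i ∈ s, E1_ext K d (a i) := by
  classical
  induction s using Finset.induction_on with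
  | empty => simp [E1_ext_zero]
  | insert i s hi ih => rw [Finset.sum_insert hi, Finset.sum_insert hi, E1_ext_add, ih]

private theorem E1_ext_single (K : Type*) [Field K] {H : Type} [Group H]
    (d : H → MonoidAlgebra K H) (h : H) (c : K) :
    E1_ext K d (MonoidAlgebra.single h c) = c • d h := by
  unfold E1_ext
  rw [MonoidAlgebra.coeff_single]
  exact Finsupp.sum_single_index (zero_smul _ _)

private theorem E1_ext_mul (K : Type*) [Field K] {H : Type} [Group H]
    (d : H → MonoidAlgebra K H) (hd : IsDer d) (c : MonoidAlgebra K H) (k : H) :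
    E1_ext K d (c * (MonoidAlgebra.of K H k - 1)) = c * d k := by
  induction c using MonoidAlgebra.induction_linear with
  | zero => simp [E1_ext_zero]
  | add f g hf hg => rw [add_mul, E1_ext_add, hf, hg, add_mul]
  | single h r =>
    have h1 : (MonoidAlgebra.single h r : MonoidAlgebra K H) * (MonoidAlgebra.of K H k - 1) =
        MonoidAlgebra.single (h * k) r + MonoidAlgebra.single h (-r) := by
      rw [mul_sub, mul_one, MonoidAlgebra.of_apply, MonoidAlgebra.single_mul_single, mul_one,
        MonoidAlgebra.single_neg, sub_eq_add_neg]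
    rw [h1, E1_ext_add, E1_ext_single, E1_ext_single, hd h k, smul_add, MonoidAlgebra.of_apply]
    have h2 : (MonoidAlgebra.single h r : MonoidAlgebra K H) =
        r • MonoidAlgebra.single h (1 : K) := by
      rw [MonoidAlgebra.smul_single, smul_eq_mul, mul_one]
    rw [h2, smul_mul_assoc, neg_smul]
    abel

/-- A free basis of `H` gives a basis of the ideal. -/
theorem nonempty_basis_subIdeal (K : Type*) [Field K] {G : Type} [Group G] (H : Subgroup G)
    {ι : Type} (b : FreeGroupBasis ι H) :
    Nonempty (Module.Basis ι (MonoidAlgebra K G) (subIdeal K H)) := by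
  classical
  set v : ι → subIdeal K H := fun i => ⟨MonoidAlgebra.of K G (b i : G) - 1, E1_of_mem K H (b i)⟩
    with hv
  have hli : LinearIndependent (MonoidAlgebra K G) v := by
    rw [linearIndependent_iff']
    intro s a ha j hj
    have h0 : ∑ i ∈ s, a i * (MonoidAlgebra.of K G (b i : G) - 1) = 0 := by
      have := congrArg (Subtype.val) ha
      simpa [hv, smul_eq_mul] using this
    obtain ⟨d, hd1, hd2⟩ := exists_der (K := K) (b.repr.symm : FreeGroup ι →* H)
      (Pi.single j (1 : MonoidAlgebra K H))
    set D : H → MonoidAlgebra K H := fun h => d (b.repr h) with hD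
    have hDer : IsDer D := by
      intro g h
      simp only [hD, map_mul, hd1]
      simp
    have hDb : ∀ i, D (b i) = Pi.single (M := fun _ => MonoidAlgebra K H) j 1 i := by
      intro i
      simp only [hD]
      rw [FreeGroupBasis.repr_apply_coe, hd2]
    have key : ∀ g : G, E1_res K H g (a j) = 0 := by
      intro g
      have h1 := congrArg (E1_res K H g) h0
      rw [E1_res_sum, E1_res_zero] at h1
      have h2 : ∀ i ∈ s, E1_res K H g (a i * (MonoidAlgebra.of K G (b i : G) - 1)) =
          E1_res K H g (a i) * (MonoidAlgebra.of K H (b i) - 1) := by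
        intro i _
        rw [mul_sub, mul_one, E1_res_sub, E1_res_mul_of, mul_sub, mul_one]
      rw [Finset.sum_congr rfl h2] at h1
      have h3 := congrArg (E1_ext K D) h1
      rw [E1_ext_sum, E1_ext_zero] at h3
      rw [Finset.sum_congr rfl fun i _ => E1_ext_mul K D hDer _ (b i)] at h3
      simp only [hDb] at h3
      rw [Finset.sum_eq_single j] at h3
      · simpa using h3
      · intro i _ hij
        rw [Pi.single_eq_of_ne hij, mul_zero]
      · intro h
        exact absurd hj h
    ext g
    have := congrArg (fun x => x.coeff (1 : H)) (key g)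
    simpa [E1_res_coeff] using this
  have hsp : ⊤ ≤ Submodule.span (MonoidAlgebra K G) (Set.range v) := by
    have hS : ∀ x : FreeGroup ι, MonoidAlgebra.of K G ((b.repr.symm x : H) : G) - 1 ∈
        Submodule.span (MonoidAlgebra K G)
          (Set.range fun i => MonoidAlgebra.of K G (b i : G) - 1) := by
      set S := Submodule.span (MonoidAlgebra K G)
          (Set.range fun i => MonoidAlgebra.of K G (b i : G) - 1) with hSd
      have hmul : ∀ g h : G, MonoidAlgebra.of K G g - 1 ∈ S → MonoidAlgebra.of K G h - 1 ∈ S →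
          MonoidAlgebra.of K G (g * h) - 1 ∈ S := by
        intro g h hg hh
        have : MonoidAlgebra.of K G (g * h) - 1 =
            MonoidAlgebra.of K G g • (MonoidAlgebra.of K G h - 1) + (MonoidAlgebra.of K G g - 1) := by
          rw [smul_eq_mul, map_mul, mul_sub, mul_one]
          abel
        rw [this]
        exact S.add_mem (S.smul_mem _ hh) hg
      have hinv : ∀ g : G, MonoidAlgebra.of K G g - 1 ∈ S → MonoidAlgebra.of K G g⁻¹ - 1 ∈ S := by
        intro g hg
        have : MonoidAlgebra.of K G g⁻¹ - 1 =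
            (-MonoidAlgebra.of K G g⁻¹) • (MonoidAlgebra.of K G g - 1) := by
          rw [smul_eq_mul, neg_mul, mul_sub, mul_one, ← map_mul, inv_mul_cancel, map_one]
          abel
        rw [this]
        exact S.smul_mem _ hg
      intro x
      induction x using FreeGroup.induction_on with
      | C1 =>
        rw [map_one, Subgroup.coe_one, map_one, sub_self]
        exact S.zero_mem
      | of i =>
        have h1 : (b.repr.symm (FreeGroup.of i) : H) = b i := by
          rw [MulEquiv.symm_apply_eq, FreeGroupBasis.repr_apply_coe]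
        change MonoidAlgebra.of K G ((b.repr.symm (FreeGroup.of i) : H) : G) - 1 ∈ S
        rw [h1]
        exact Submodule.subset_span ⟨i, rfl⟩
      | inv_of i hi =>
        rw [map_inv]
        exact hinv _ hi
      | mul x y hx hy =>
        rw [map_mul]
        exact hmul _ _ hx hy
    rintro ⟨x, hx⟩ -
    have h1 : subIdeal K H ≤ Submodule.span (MonoidAlgebra K G)
          (Set.range fun i => MonoidAlgebra.of K G (b i : G) - 1) := by
      unfold subIdeal
      rw [Submodule.span_le]
      rintro f ⟨h, hh, rfl⟩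
      have := hS (b.repr ⟨h, hh⟩)
      simpa using this
    have h2 : (Set.range fun i => MonoidAlgebra.of K G (b i : G) - 1) =
        (subIdeal K H).subtype '' (Set.range v) := by
      rw [← Set.range_comp]
      rfl
    have h3 := h1 hx
    rw [h2, Submodule.span_image] at h3
    obtain ⟨y, hy, hyx⟩ := h3
    have : y = ⟨x, hx⟩ := Subtype.ext hyx
    rwa [← this]
  exact ⟨Module.Basis.mk hli hsp⟩

/-- A functional on the ideal gives a derivation of `H`. -/
theorem exists_der_of_functional (K : Type*) [Field K] {G : Type} [Group G] (H : Subgroup G)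
    (w : G) (hwH : w ∈ H) (hw : MonoidAlgebra.of K G w - 1 ∈ subIdeal K H)
    (φ : subIdeal K H →ₗ[MonoidAlgebra K G] MonoidAlgebra K G) (hφ : φ ⟨_, hw⟩ = 1) :
    ∃ d : H → MonoidAlgebra K H, IsDer d ∧ d ⟨w, hwH⟩ = 1 := by
  refine ⟨fun h => E1_res K H 1 (φ ⟨_, E1_of_mem K H h⟩), ?_, ?_⟩
  · intro g h
    have h1 : (⟨_, E1_of_mem K H (g * h)⟩ : subIdeal K H) =
        ⟨_, E1_of_mem K H g⟩ + MonoidAlgebra.of K G (g : G) • ⟨_, E1_of_mem K H h⟩ := by
      apply Subtype.ext
      simp only [Submodule.coe_add, Submodule.coe_smul, smul_eq_mul, Subgroup.coe_mul, map_mul]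
      rw [mul_sub, mul_one]
      abel
    simp only [h1, map_add, map_smul, smul_eq_mul]
    rw [E1_res_add, E1_res_of_mul]
  · simp only [hφ]
    exact E1_res_one K H

theorem kPrimRankL_le_primRank (K : Type*) [Field K] {α : Type} (w : FreeGroup α) :
    kPrimRankL K w ≤ primRank w := by
  unfold kPrimRankL primRank
  refine sInf_le_sInf ?_
  rintro n ⟨H, hw, m, rfl, ⟨b⟩, hnp⟩
  refine ⟨subIdeal K H, E1_of_mem K H ⟨w, hw⟩, m, rfl, subIdeal_ne_top K H,
    nonempty_basis_subIdeal K H b, ?_⟩
  rintro ⟨φ, hφ⟩
  obtain ⟨d, hd, hd1⟩ := exists_der_of_functional K H w hw (E1_of_mem K H ⟨w, hw⟩) φ hφ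
  obtain ⟨d', hd', hd1'⟩ := der_mulEquiv b.repr d hd ⟨w, hw⟩ hd1
  have h1 := isPrimitiveElt_of_der _ d' hd' hd1'
  have h2 := isPrimitiveElt_mulEquiv b.repr.symm h1
  rw [MulEquiv.symm_apply_apply] at h2
  exact hnp h2

end PrimRank
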