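import Pool.Agent.Lib.MP_b8b21d_al.B4

/-!
PROOF. `A = GA K α`. The anti-automorphism `σ : A ≃+* Aᵐᵒᵖ` induced by inversion (`σ (of g) = op (of g⁻¹)`;
e.g. `MonoidAlgebra.opRingEquiv` and `MulEquiv.inv'`; write `a* = unop (σ a)`, so `(a b)* = b* a*`,
`a** = a`). For a right ideal `I` (a submodule over `Aᵐᵒᵖ`) let `I* = {a* | a ∈ I}`, a left ideal; this is a
bijection between right and left ideals which preserves `≠ ⊤`, bases (with the same index type) and
sends primitive elements to primitive elements. `(w - 1)* = w⁻¹ - 1 = - w⁻¹ (w - 1)`: so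
`w - 1 ∈ I` iff `w⁻¹ - 1 ∈ I*` iff `w - 1 ∈ I*`, and `w⁻¹ - 1` is primitive in `I*` iff it is unimodular
in `I*` (`isPrimitiveIn_iff`) iff `w - 1` is unimodular in `I*` (compose the functional with right
multiplication: `φ (w⁻¹ - 1) = - w⁻¹ φ (w - 1)`; if `φ (w - 1) = 1` then `φ (w⁻¹ - 1) = - w⁻¹`, so use
`a ↦ φ a * (- w)`; similarly for the converse). So the two sets of natural numbers are equal.
-/

namespace PrimRank

section E2aux

/-! ### Transfer along semilinear bijections -/

variable {R S M N : Type*} [Ring R] [Ring S] [AddCommGroup M] [AddCommGroup N] [Module R M]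
  [Module S N]

/-- a basis over `S` gives a basis over `R` -/
private noncomputable def e2_basis (e : R ≃+* S) (f : M ≃+ N) (hf : ∀ (r : R) (m : M), f (r • m) = e r • f m)
    {ι : Type*} (b : Module.Basis ι S N) : Module.Basis ι R M :=
  Module.Basis.ofRepr
    { toFun := fun m => Finsupp.mapRange e.symm (map_zero _) (b.repr (f m))
      invFun := fun c => f.symm (b.repr.symm (Finsupp.mapRange e (map_zero _) c))
      map_add' := by
        intro x y
        rw [map_add, map_add, Finsupp.mapRange_add (by intro x y; exact map_add _ _ _)]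
      map_smul' := by
        intro r x
        rw [hf, map_smul]
        ext i
        simp
      left_inv := by
        intro m
        have h : Finsupp.mapRange e (map_zero _) (Finsupp.mapRange e.symm (map_zero _) (b.repr (f m)))
            = b.repr (f m) := by
          ext i
          simp
        simp only [h]
        simp
      right_inv := by
        intro c
        ext i
        simp }

private theorem e2_basis_apply (e : R ≃+* S) (f : M ≃+ N)
    (hf : ∀ (r : R) (m : M), f (r • m) = e r • f m)
    {ι : Type*} (b : Module.Basis ι S N) (i : ι) : e2_basis e f hf b i = f.symm (b i) := by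
  classical
  have h : Finsupp.mapRange e (map_zero _) (Finsupp.single i (1 : R)) = Finsupp.single i (1 : S) := by
    rw [Finsupp.mapRange_single, map_one]
  have h2 : e2_basis e f hf b i =
      f.symm (b.repr.symm (Finsupp.mapRange e (map_zero _) (Finsupp.single i (1 : R)))) := rfl
  rw [h2, h, Module.Basis.repr_symm_single_one]

private theorem e2_prim (e : R ≃+* S) (f : M ≃+ N) (hf : ∀ (r : R) (m : M), f (r • m) = e r • f m)
    (m : M) (h : IsPrimitiveIn S (f m)) : IsPrimitiveIn R m := by
  obtain ⟨s, b, hb, hs⟩ := h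
  let b0 := e2_basis e f hf b
  let g : s ≃ (f ⁻¹' s : Set M) :=
    { toFun := fun x => ⟨f.symm x, by show f (f.symm x) ∈ s; rw [f.apply_symm_apply]; exact x.2⟩
      invFun := fun y => ⟨f y, y.2⟩
      left_inv := fun x => Subtype.ext (f.apply_symm_apply x)
      right_inv := fun y => Subtype.ext (f.symm_apply_apply y) }
  refine ⟨f ⁻¹' s, b0.reindex g, ?_, hs⟩
  intro y
  rw [Module.Basis.reindex_apply]
  have h1 : b0 (g.symm y) = f.symm (b (g.symm y)) := e2_basis_apply e f hf b _
  rw [h1, hb]
  exact f.symm_apply_apply y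

private theorem e2_prim_iff (e : R ≃+* S) (f : M ≃+ N)
    (hf : ∀ (r : R) (m : M), f (r • m) = e r • f m)
    (m : M) : IsPrimitiveIn R m ↔ IsPrimitiveIn S (f m) := by
  constructor
  · intro h
    have hf' : ∀ (s : S) (n : N), f.symm (s • n) = e.symm s • f.symm n := by
      intro s n
      apply f.injective
      rw [hf, f.apply_symm_apply, f.apply_symm_apply, e.apply_symm_apply]
    refine e2_prim e.symm f.symm hf' (f m) ?_
    rwa [f.symm_apply_apply]
  · exact e2_prim e f hf m

/-! ### The anti-automorphism -/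

variable {K : Type*} [Field K] {α : Type}

/-- the homomorphism to the opposite algebra -/
private noncomputable def e2_hom (K : Type*) [Field K] (α : Type) : GA K α →ₐ[K] (GA K α)ᵐᵒᵖ :=
  MonoidAlgebra.lift K (GA K α)ᵐᵒᵖ (FreeGroup α)
    { toFun := fun g => MulOpposite.op (MonoidAlgebra.of K (FreeGroup α) g⁻¹)
      map_one' := by rw [inv_one, map_one, MulOpposite.op_one]
      map_mul' := by
        intro g h
        rw [mul_inv_rev, map_mul, MulOpposite.op_mul] }

private noncomputable def e2_star (a : GA K α) : GA K α := MulOpposite.unop (e2_hom K α a)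

private theorem e2_star_of (g : FreeGroup α) :
    e2_star (MonoidAlgebra.of K (FreeGroup α) g) = MonoidAlgebra.of K (FreeGroup α) g⁻¹ := by
  unfold e2_star e2_hom
  rw [MonoidAlgebra.lift_of]
  rfl

private theorem e2_star_add (a b : GA K α) : e2_star (a + b) = e2_star a + e2_star b := by
  unfold e2_star
  rw [map_add, MulOpposite.unop_add]

private theorem e2_star_mul (a b : GA K α) : e2_star (a * b) = e2_star b * e2_star a := by
  unfold e2_star
  rw [map_mul, MulOpposite.unop_mul]

private theorem e2_star_smul (c : K) (a : GA K α) : e2_star (c • a) = c • e2_star a := by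
  unfold e2_star
  rw [map_smul, MulOpposite.unop_smul]

private theorem e2_star_one : e2_star (1 : GA K α) = 1 := by
  unfold e2_star
  rw [map_one, MulOpposite.unop_one]

private theorem e2_star_sub (a b : GA K α) : e2_star (a - b) = e2_star a - e2_star b := by
  unfold e2_star
  rw [map_sub, MulOpposite.unop_sub]

private theorem e2_star_star (a : GA K α) : e2_star (e2_star a) = a := by
  let F : GA K α →ₗ[K] GA K α :=
    { toFun := fun a => e2_star (e2_star a)
      map_add' := by intro x y; rw [e2_star_add, e2_star_add]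
      map_smul' := by intro c x; rw [e2_star_smul, e2_star_smul]; rfl }
  suffices h : F.toAddMonoidHom = AddMonoidHom.id (GA K α) by
    have := DFunLike.congr_fun h a
    exact this
  apply MonoidAlgebra.addMonoidHom_ext
  intro g c
  have h1 : (MonoidAlgebra.single g c : GA K α) = c • MonoidAlgebra.of K (FreeGroup α) g := by
    rw [MonoidAlgebra.of_apply, MonoidAlgebra.smul_single, smul_eq_mul, mul_one]
  show F (MonoidAlgebra.single g c) = MonoidAlgebra.single g c
  rw [h1, map_smul]
  congr 1
  show e2_star (e2_star (MonoidAlgebra.of K (FreeGroup α) g)) = _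
  rw [e2_star_of, e2_star_of, inv_inv]

private noncomputable def e2_ring (K : Type*) [Field K] (α : Type) : GA K α ≃+* (GA K α)ᵐᵒᵖ :=
  { toFun := fun a => MulOpposite.op (e2_star a)
    invFun := fun c => e2_star (MulOpposite.unop c)
    left_inv := fun a => e2_star_star a
    right_inv := fun c => by
      show MulOpposite.op (e2_star (e2_star (MulOpposite.unop c))) = c
      rw [e2_star_star, MulOpposite.op_unop]
    map_mul' := by
      intro a b
      show MulOpposite.op (e2_star (a * b)) = _
      rw [e2_star_mul, MulOpposite.op_mul]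
    map_add' := by
      intro a b
      show MulOpposite.op (e2_star (a + b)) = _
      rw [e2_star_add, MulOpposite.op_add] }

/-- the left ideal of a right ideal -/
private noncomputable def e2_left (I : Submodule (GA K α)ᵐᵒᵖ (GA K α)) : Submodule (GA K α) (GA K α) :=
  { carrier := {a | e2_star a ∈ I}
    zero_mem' := by
      show e2_star (0 : GA K α) ∈ I
      have : e2_star (0 : GA K α) = 0 := by
        unfold e2_star
        rw [map_zero, MulOpposite.unop_zero]
      rw [this]
      exact I.zero_mem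
    add_mem' := by
      intro a b ha hb
      show e2_star (a + b) ∈ I
      rw [e2_star_add]
      exact I.add_mem ha hb
    smul_mem' := by
      intro c a ha
      show e2_star (c • a) ∈ I
      rw [smul_eq_mul, e2_star_mul, ← op_smul_eq_mul]
      exact I.smul_mem _ ha }

/-- the right ideal of a left ideal -/
private noncomputable def e2_right (J : Submodule (GA K α) (GA K α)) : Submodule (GA K α)ᵐᵒᵖ (GA K α) :=
  { carrier := {a | e2_star a ∈ J}
    zero_mem' := by
      show e2_star (0 : GA K α) ∈ J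
      have : e2_star (0 : GA K α) = 0 := by
        unfold e2_star
        rw [map_zero, MulOpposite.unop_zero]
      rw [this]
      exact J.zero_mem
    add_mem' := by
      intro a b ha hb
      show e2_star (a + b) ∈ J
      rw [e2_star_add]
      exact J.add_mem ha hb
    smul_mem' := by
      intro c a ha
      show e2_star (c • a) ∈ J
      have : c • a = a * MulOpposite.unop c := by
        rw [← op_smul_eq_mul, MulOpposite.op_unop]
      rw [this, e2_star_mul]
      exact J.smul_mem _ ha }

private theorem e2_mem_left {I : Submodule (GA K α)ᵐᵒᵖ (GA K α)} {a : GA K α} :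
    a ∈ e2_left I ↔ e2_star a ∈ I := Iff.rfl

private theorem e2_mem_right {J : Submodule (GA K α) (GA K α)} {a : GA K α} :
    a ∈ e2_right J ↔ e2_star a ∈ J := Iff.rfl

private theorem e2_left_right (J : Submodule (GA K α) (GA K α)) : e2_left (e2_right J) = J := by
  ext a
  rw [e2_mem_left, e2_mem_right, e2_star_star]

/-- the semilinear bijection `I* ≃ I` -/
private noncomputable def e2_equiv (I : Submodule (GA K α)ᵐᵒᵖ (GA K α)) : e2_left I ≃+ I :=
  { toFun := fun a => ⟨e2_star a, a.2⟩
    invFun := fun a => ⟨e2_star a, by rw [e2_mem_left, e2_star_star]; exact a.2⟩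
    left_inv := fun a => Subtype.ext (e2_star_star a.1)
    right_inv := fun a => Subtype.ext (e2_star_star a.1)
    map_add' := fun a b => Subtype.ext (e2_star_add a.1 b.1) }

private theorem e2_equiv_smul (I : Submodule (GA K α)ᵐᵒᵖ (GA K α)) (r : GA K α) (m : e2_left I) :
    e2_equiv I (r • m) = e2_ring K α r • e2_equiv I m := by
  apply Subtype.ext
  show e2_star (r * (m : GA K α)) = MulOpposite.op (e2_star r) • e2_star (m : GA K α)
  rw [e2_star_mul, op_smul_eq_mul]

private theorem e2_star_w (w : FreeGroup α) :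
    e2_star (MonoidAlgebra.of K (FreeGroup α) w - 1) = MonoidAlgebra.of K (FreeGroup α) w⁻¹ - 1 := by
  rw [e2_star_sub, e2_star_of, e2_star_one]

private theorem e2_of_mul_inv (w : FreeGroup α) :
    MonoidAlgebra.of K (FreeGroup α) w * MonoidAlgebra.of K (FreeGroup α) w⁻¹ = 1 := by
  rw [← map_mul, mul_inv_cancel, map_one]

private theorem e2_of_inv_mul (w : FreeGroup α) :
    MonoidAlgebra.of K (FreeGroup α) w⁻¹ * MonoidAlgebra.of K (FreeGroup α) w = 1 := by
  rw [← map_mul, inv_mul_cancel, map_one]

private theorem e2_winv_eq (w : FreeGroup α) :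
    MonoidAlgebra.of K (FreeGroup α) w⁻¹ - 1 =
      -(MonoidAlgebra.of K (FreeGroup α) w⁻¹) * (MonoidAlgebra.of K (FreeGroup α) w - 1) := by
  rw [mul_sub, mul_one, neg_mul, e2_of_inv_mul]
  abel

private theorem e2_w_eq (w : FreeGroup α) :
    MonoidAlgebra.of K (FreeGroup α) w - 1 =
      -(MonoidAlgebra.of K (FreeGroup α) w) * (MonoidAlgebra.of K (FreeGroup α) w⁻¹ - 1) := by
  rw [mul_sub, mul_one, neg_mul, e2_of_mul_inv]
  abel

private theorem e2_mem_iff (J : Submodule (GA K α) (GA K α)) (w : FreeGroup α) :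
    MonoidAlgebra.of K (FreeGroup α) w⁻¹ - 1 ∈ J ↔ MonoidAlgebra.of K (FreeGroup α) w - 1 ∈ J := by
  constructor
  · intro h
    rw [e2_w_eq]
    exact J.smul_mem _ h
  · intro h
    rw [e2_winv_eq]
    exact J.smul_mem _ h

private theorem e2_unimod_aux (J : Submodule (GA K α) (GA K α)) (x y : J) (c d : GA K α)
    (hxy : x = c • y) (hcd : c * d = 1) :
    (∃ φ : J →ₗ[GA K α] GA K α, φ y = 1) → ∃ φ : J →ₗ[GA K α] GA K α, φ x = 1 := by
  rintro ⟨φ, hφ⟩
  let ψ : J →ₗ[GA K α] GA K α :=
    { toFun := fun a => φ a * d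
      map_add' := by intro a b; rw [map_add, add_mul]
      map_smul' := by
        intro r a
        rw [map_smul, smul_eq_mul, RingHom.id_apply, smul_eq_mul, mul_assoc] }
  refine ⟨ψ, ?_⟩
  show φ x * d = 1
  rw [hxy, map_smul, hφ, smul_eq_mul, mul_one, hcd]

private theorem e2_unimod (J : Submodule (GA K α) (GA K α)) (w : FreeGroup α)
    (h1 : MonoidAlgebra.of K (FreeGroup α) w⁻¹ - 1 ∈ J)
    (h2 : MonoidAlgebra.of K (FreeGroup α) w - 1 ∈ J) :
    (∃ φ : J →ₗ[GA K α] GA K α, φ ⟨_, h1⟩ = 1) ↔ ∃ φ : J →ₗ[GA K α] GA K α, φ ⟨_, h2⟩ = 1 := by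
  constructor
  · refine e2_unimod_aux J _ _ (-(MonoidAlgebra.of K (FreeGroup α) w))
      (-(MonoidAlgebra.of K (FreeGroup α) w⁻¹)) (Subtype.ext (e2_w_eq w)) ?_
    rw [neg_mul_neg, e2_of_mul_inv]
  · refine e2_unimod_aux J _ _ (-(MonoidAlgebra.of K (FreeGroup α) w⁻¹))
      (-(MonoidAlgebra.of K (FreeGroup α) w)) (Subtype.ext (e2_winv_eq w)) ?_
    rw [neg_mul_neg, e2_of_inv_mul]

/-- everything about one right ideal -/
private theorem e2_one (I : Submodule (GA K α)ᵐᵒᵖ (GA K α)) (w : FreeGroup α)
    (hw : MonoidAlgebra.of K (FreeGroup α) w - 1 ∈ I)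
    (hw' : MonoidAlgebra.of K (FreeGroup α) w - 1 ∈ e2_left I) :
    IsPrimitiveIn (GA K α)ᵐᵒᵖ (⟨MonoidAlgebra.of K (FreeGroup α) w - 1, hw⟩ : I) ↔
      ∃ φ : e2_left I →ₗ[GA K α] GA K α, φ ⟨MonoidAlgebra.of K (FreeGroup α) w - 1, hw'⟩ = 1 := by
  have h1 : MonoidAlgebra.of K (FreeGroup α) w⁻¹ - 1 ∈ e2_left I := (e2_mem_iff _ w).2 hw'
  rw [← e2_unimod (e2_left I) w h1 hw', ← isPrimitiveIn_iff,
    e2_prim_iff (e2_ring K α) (e2_equiv I) (e2_equiv_smul I)]
  have h2 : e2_equiv I ⟨MonoidAlgebra.of K (FreeGroup α) w⁻¹ - 1, h1⟩ =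
      ⟨MonoidAlgebra.of K (FreeGroup α) w - 1, hw⟩ := by
    apply Subtype.ext
    show e2_star (MonoidAlgebra.of K (FreeGroup α) w⁻¹ - 1) = _
    rw [e2_star_w, inv_inv]
  rw [h2]

private theorem e2_top (I : Submodule (GA K α)ᵐᵒᵖ (GA K α)) : I = ⊤ ↔ e2_left I = ⊤ := by
  constructor
  · rintro rfl
    ext a
    simp [e2_mem_left]
  · intro h
    rw [eq_top_iff]
    intro a _
    have h1 : e2_star a ∈ e2_left I := by rw [h]; trivial
    rwa [e2_mem_left, e2_star_star] at h1

private theorem e2_w_mem (I : Submodule (GA K α)ᵐᵒᵖ (GA K α)) (w : FreeGroup α) :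
    MonoidAlgebra.of K (FreeGroup α) w - 1 ∈ I ↔
      MonoidAlgebra.of K (FreeGroup α) w - 1 ∈ e2_left I := by
  rw [← e2_mem_iff (e2_left I) w, e2_mem_left, e2_star_w, inv_inv]

end E2aux

/-- Right ideals and left ideals give the same rank. -/
theorem kPrimRank_eq (K : Type*) [Field K] {α : Type} (w : FreeGroup α) :
    kPrimRank K w = kPrimRankL K w := by
  unfold kPrimRank kPrimRankL
  congr 1
  ext n
  constructor
  · rintro ⟨I, hw, m, hn, hI, ⟨b⟩, hp⟩
    have hw' := (e2_w_mem I w).1 hw
    refine ⟨e2_left I, hw', m, hn, fun h => hI ((e2_top I).2 h),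
      ⟨e2_basis (e2_ring K α) (e2_equiv I) (e2_equiv_smul I) b⟩, fun h => hp ?_⟩
    exact (e2_one I w hw hw').2 h
  · rintro ⟨J, hw', m, hn, hJ, ⟨b⟩, hp⟩
    obtain ⟨I, rfl⟩ : ∃ I : Submodule (GA K α)ᵐᵒᵖ (GA K α), J = e2_left I :=
      ⟨e2_right J, (e2_left_right J).symm⟩
    have hw := (e2_w_mem I w).2 hw'
    have hf' : ∀ (s : (GA K α)ᵐᵒᵖ) (n : I), (e2_equiv I).symm (s • n) =
        (e2_ring K α).symm s • (e2_equiv I).symm n := by
      intro s n
      apply (e2_equiv I).injective
      rw [e2_equiv_smul, (e2_equiv I).apply_symm_apply, (e2_equiv I).apply_symm_apply,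
        (e2_ring K α).apply_symm_apply]
    refine ⟨I, hw, m, hn, fun h => hJ ((e2_top I).1 h),
      ⟨e2_basis (e2_ring K α).symm (e2_equiv I).symm hf' b⟩, fun h => hp ?_⟩
    exact (e2_one I w hw hw').1 h

end PrimRank
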