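import Pool.Agent.Lib.MP_b8b21d_al.DefsL

/-!
PROOF. `H = closure (range S)` is free (`subgroupIsFreeOfIsFree`), with a basis
`b : FreeGroupBasis ι H` (`IsFreeGroup.basis`). `FreeGroup (Fin n) →* H →* FreeGroup ι` is surjective.
Map further to `ι →₀ ℤ` (or for each finite subset `s` of `ι` to `s → ℤ`, or `s → ZMod 2`): the images of
the `n` elements generate, so `ι` is finite with `card ι ≤ n` (rank of `ℤ^ι`, or count the
homomorphisms to a group of order 2: `2 ^ card s ≤ 2 ^ n` because homomorphisms `H → ZMod 2` are
determined by their values on the generators `S i`). Then reindex `ι ≃ Fin k`.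
-/

namespace PrimRank

/-- A subgroup of a free group generated by `n` elements is free of rank at most `n`. -/
theorem exists_basis_closure {α : Type} {n : ℕ} (S : Fin n → FreeGroup α) :
    ∃ k ≤ n, Nonempty (FreeGroupBasis (Fin k) (Subgroup.closure (Set.range S))) := by
  classical
  let b := IsFreeGroup.basis (Subgroup.closure (Set.range S))
  let Φ : (IsFreeGroup.Generators (Subgroup.closure (Set.range S)) → Multiplicative (ZMod 2)) →
      (Fin n → Multiplicative (ZMod 2)) :=
    fun f i => b.lift f ⟨S i, Subgroup.subset_closure ⟨i, rfl⟩⟩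
  have hΦ : Function.Injective Φ := by
    intro f g h
    have h1 : b.lift f = b.lift g := by
      refine MonoidHom.eq_of_eqOn_dense
        (Subgroup.closure_closure_coe_preimage (k := Set.range S)) ?_
      rintro ⟨x, hx⟩ hx'
      obtain ⟨i, rfl⟩ := hx'
      exact congrFun h i
    exact b.lift.injective h1
  haveI hfin1 : Finite (IsFreeGroup.Generators (Subgroup.closure (Set.range S)) →
      Multiplicative (ZMod 2)) := Finite.of_injective Φ hΦ
  haveI hfin : Finite (IsFreeGroup.Generators (Subgroup.closure (Set.range S))) := by
    refine Finite.of_injective (fun i : IsFreeGroup.Generators (Subgroup.closure (Set.range S)) =>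
      fun j => if j = i then Multiplicative.ofAdd (1 : ZMod 2) else 1) ?_
    intro i j hij
    by_contra hne
    have h1 := congrFun hij i
    simp only [if_true, if_neg hne] at h1
    revert h1
    decide
  have hcard := Nat.card_le_card_of_injective Φ hΦ
  rw [Nat.card_fun, Nat.card_fun] at hcard
  have h2 : Nat.card (Multiplicative (ZMod 2)) = 2 := by
    rw [Nat.card_eq_fintype_card]
    rfl
  rw [h2, Nat.card_fin] at hcard
  refine ⟨_, (Nat.pow_le_pow_iff_right (by norm_num)).1 hcard, ⟨b.reindex (Finite.equivFin _)⟩⟩

end PrimRank
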