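import Pool.Agent.Lib.MP_b8b21d_al.D5
import Pool.Agent.Lib.MP_b8b21d_al.E3

/-!
PROOF of not_isPrimitiveElt_sup. Let `K = ℚ` (any field), `H` the sup, `w` the product. Suppose `w` is
primitive in `H`: by `exists_der_of_isPrimitiveElt` there is a derivation `d : H → K[H]`, `d w = 1`. Let
`i₁ : H₁ →* H`, `i₂ : H₂ →* H` be the inclusions (via `map inl`, `map inr`), and let `pr₁ : FreeGroup (α ⊕ β)
→* FreeGroup α` kill `β` (`FreeGroup.lift`), it maps `H` into `H₁`: `π₁ : H →* H₁` with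
`π₁ ∘ i₁ = id`, `π₁ ∘ i₂ = 1`; similarly `π₂`. Let `x_j` be the basis `b₁` of `H₁`, and `∂_j : H₁ → K[H₁]` the
derivation with `∂_j x_i = δ_ij` (transport `exists_der`). Then for `g ∈ H₁`:
`d (i₁ g) = ∑_j i₁(∂_j g) * d (i₁ x_j)` (both sides are derivations of `H₁` in `K[H]` along `i₁`, equal on
the basis: `der_ext`). Let `R₁ = {∑_j (∂_j u) * c_j | c_j ∈ K[H₁]}`, a right ideal of `K[H₁]`. `1 ∉ R₁`:
otherwise the derivation of `H₁` with `x_j ↦ c_j` has value `∑ (∂_j u) c_j = 1` at `u`, so `u` is primitive in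
`H₁` by `isPrimitiveElt_of_der` (transported by `b₁.repr`), contradiction. So there is a `K`-linear
`θ₁ : K[H₁] → K` with `θ₁ 1 = 1`, `θ₁ = 0` on `R₁`. Similarly `θ₂` for `v`, `H₂`. Let `Θ : K[H] → K` be the linear
map with `Θ (of g) = θ₁ (of (π₁ g)) * θ₂ (of (π₂ g))`. For `r ∈ R₁`, `s ∈ K[H]`: `Θ (i₁ r * s) = 0`:
for `s = of g`, `Θ (i₁ r * of g) = θ₁ (r * of (π₁ g)) * θ₂ (of (π₂ g)) = 0`. For `r ∈ R₂`:
`Θ (of (i₁ u) * i₂ r * of g) = θ₁ (of (u * π₁ g)) * θ₂ (r * of (π₂ g)) = 0`. Now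
`1 = d (u v) = d (i₁ u) + (i₁ u) * d (i₂ v)`; apply `Θ`: `1 = 0 + 0`, contradiction.
primRank_mul_le: if one of the two ranks is `⊤` it is clear. Otherwise the infima are attained
(`csInf_mem` / `sInf_mem` for nonempty sets in the well order `ℕ∞`): `H₁, m₁, b₁, u`, `H₂, m₂, b₂, v`. The sup
`H` is the closure of the range of `Fin (m₁ + m₂) → FreeGroup (α ⊕ β)` (images of the bases), so by
`exists_basis_closure` it has a basis of size `k ≤ m₁ + m₂`, and `w` is not primitive in it.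
-/

namespace PrimRank

private theorem e4_der_sum {K : Type*} [Field K] {ι G : Type} [Fintype ι] [Group G]
    (i : FreeGroup ι →* G) (D : ι → FreeGroup ι → GA K ι) (hD : ∀ j, IsDer (D j))
    (c : ι → MonoidAlgebra K G) (g h : FreeGroup ι) :
    (∑ j, MonoidAlgebra.mapDomainAlgHom K K i (D j (g * h)) * c j) =
      (∑ j, MonoidAlgebra.mapDomainAlgHom K K i (D j g) * c j) +
        MonoidAlgebra.of K G (i g) * ∑ j, MonoidAlgebra.mapDomainAlgHom K K i (D j h) * c j := by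
  rw [Finset.mul_sum, ← Finset.sum_add_distrib]
  refine Finset.sum_congr rfl fun j _ => ?_
  rw [hD j, map_add, map_mul, add_mul, mul_assoc]
  congr 3
  rw [MonoidAlgebra.of_apply, MonoidAlgebra.of_apply, MonoidAlgebra.mapDomainAlgHom_apply,
    MonoidAlgebra.mapDomain_single]

/-- A derivation of `G` restricted to `FreeGroup ι` is a combination of the partial derivatives. -/
private theorem e4_fox {K : Type*} [Field K] {ι G : Type} [Fintype ι] [DecidableEq ι] [Group G]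
    (i : FreeGroup ι →* G) (D : ι → FreeGroup ι → GA K ι) (hD : ∀ j, IsDer (D j))
    (hDx : ∀ j x, D j (FreeGroup.of x) = if x = j then 1 else 0)
    (d : G → MonoidAlgebra K G) (hd : IsDer d) (g : FreeGroup ι) :
    d (i g) = ∑ j, MonoidAlgebra.mapDomainAlgHom K K i (D j g) * d (i (FreeGroup.of j)) := by
  have h1 := der_ext (K := K) i (d := fun g => d (i g))
    (d' := fun g => ∑ j, MonoidAlgebra.mapDomainAlgHom K K i (D j g) * d (i (FreeGroup.of j)))
    (fun g h => by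
      show d (i (g * h)) = _
      rw [map_mul, hd])
    (fun g h => e4_der_sum i D hD (fun j => d (i (FreeGroup.of j))) g h)
    (fun x => by
      show d (i (FreeGroup.of x)) = _
      rw [Finset.sum_eq_single x]
      · rw [hDx, if_pos rfl, map_one, one_mul]
      · intro j _ hj
        rw [hDx, if_neg (Ne.symm hj), map_zero, zero_mul]
      · intro h
        exact absurd (Finset.mem_univ x) h)
  exact congrFun h1 g

/-- A functional with value `1` at `1` that vanishes on the right ideal of the partial derivatives. -/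
private theorem e4_theta {K : Type*} [Field K] {ι : Type} [Fintype ι]
    (D : ι → FreeGroup ι → GA K ι) (hD : ∀ j, IsDer (D j)) (u : FreeGroup ι)
    (hu : ¬ ∃ d : FreeGroup ι → GA K ι, IsDer d ∧ d u = 1) :
    ∃ θ : GA K ι →ₗ[K] K, θ 1 = 1 ∧ ∀ j (c : GA K ι), θ (D j u * c) = 0 := by
  classical
  let Φ : (ι → GA K ι) →ₗ[K] GA K ι :=
    ∑ j, (LinearMap.mulLeft K (D j u)) ∘ₗ LinearMap.proj j
  have hΦ : ∀ c, Φ c = ∑ j, D j u * c j := by
    intro c
    simp [Φ]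
  have h1 : (1 : GA K ι) ∉ LinearMap.range Φ := by
    rintro ⟨c, hc⟩
    refine hu ⟨fun g => ∑ j, D j g * c j, ?_, ?_⟩
    · intro g h
      rw [Finset.mul_sum, ← Finset.sum_add_distrib]
      refine Finset.sum_congr rfl fun j _ => ?_
      rw [hD j, add_mul, mul_assoc]
    · show ∑ j, D j u * c j = 1
      rw [← hΦ, hc]
  obtain ⟨f, hf1, hf2⟩ := Submodule.exists_le_ker_of_notMem h1
  refine ⟨(f 1)⁻¹ • f, ?_, fun j c => ?_⟩
  · rw [LinearMap.smul_apply, smul_eq_mul, inv_mul_cancel₀ hf1]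
  · rw [LinearMap.smul_apply, smul_eq_mul]
    have h2 : D j u * c ∈ LinearMap.range Φ := by
      refine ⟨Pi.single j c, ?_⟩
      rw [hΦ, Finset.sum_eq_single j]
      · rw [Pi.single_eq_same]
      · intro k _ hk
        rw [Pi.single_eq_of_ne hk, mul_zero]
      · intro h
        exact absurd (Finset.mem_univ j) h
    have h3 := hf2 h2
    rw [LinearMap.mem_ker] at h3
    rw [h3, mul_zero]

/-- The product functional. -/
private noncomputable def e4_Th {K : Type*} [Field K] {ι₁ ι₂ G : Type} [Group G]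
    (π₁ : G →* FreeGroup ι₁) (π₂ : G →* FreeGroup ι₂) (θ₁ : GA K ι₁ →ₗ[K] K)
    (θ₂ : GA K ι₂ →ₗ[K] K) : MonoidAlgebra K G →ₗ[K] K :=
  (Finsupp.linearCombination K fun g : G =>
    θ₁ (MonoidAlgebra.of K _ (π₁ g)) * θ₂ (MonoidAlgebra.of K _ (π₂ g))) ∘ₗ
    (MonoidAlgebra.coeffLinearEquiv K).toLinearMap

private theorem e4_Th_of {K : Type*} [Field K] {ι₁ ι₂ G : Type} [Group G]
    (π₁ : G →* FreeGroup ι₁) (π₂ : G →* FreeGroup ι₂) (θ₁ : GA K ι₁ →ₗ[K] K)
    (θ₂ : GA K ι₂ →ₗ[K] K) (g : G) :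
    e4_Th π₁ π₂ θ₁ θ₂ (MonoidAlgebra.of K G g) =
      θ₁ (MonoidAlgebra.of K _ (π₁ g)) * θ₂ (MonoidAlgebra.of K _ (π₂ g)) := by
  show Finsupp.linearCombination K _ (MonoidAlgebra.single g 1).coeff = _
  rw [MonoidAlgebra.coeff_single, Finsupp.linearCombination_single, smul_eq_mul, one_mul]

private theorem e4_map_of {K : Type*} [Field K] {ι G : Type} [Group G] (i : FreeGroup ι →* G)
    (x : FreeGroup ι) : MonoidAlgebra.mapDomainAlgHom K K i (MonoidAlgebra.of K _ x) =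
      MonoidAlgebra.of K G (i x) := by
  rw [MonoidAlgebra.of_apply, MonoidAlgebra.of_apply, MonoidAlgebra.mapDomainAlgHom_apply,
    MonoidAlgebra.mapDomain_single]

/-- First factor. -/
private theorem e4_mul₁ {K : Type*} [Field K] {ι₁ ι₂ G : Type} [Group G]
    (π₁ : G →* FreeGroup ι₁) (π₂ : G →* FreeGroup ι₂) (θ₁ : GA K ι₁ →ₗ[K] K)
    (θ₂ : GA K ι₂ →ₗ[K] K) (i₁ : FreeGroup ι₁ →* G) (h11 : ∀ x, π₁ (i₁ x) = x)
    (h21 : ∀ x, π₂ (i₁ x) = 1) (a : GA K ι₁) (g : G) :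
    e4_Th π₁ π₂ θ₁ θ₂ (MonoidAlgebra.mapDomainAlgHom K K i₁ a * MonoidAlgebra.of K G g) =
      θ₁ (a * MonoidAlgebra.of K _ (π₁ g)) * θ₂ (MonoidAlgebra.of K _ (π₂ g)) := by
  induction a using MonoidAlgebra.induction_on with
  | of x =>
    rw [e4_map_of, ← map_mul, e4_Th_of, map_mul π₁, map_mul π₂, h11, h21, one_mul,
      map_mul (MonoidAlgebra.of K (FreeGroup ι₁))]
  | add x y hx hy => rw [map_add, add_mul, map_add, hx, hy, add_mul, map_add, add_mul]
  | smul r x hx =>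
    rw [map_smul, smul_mul_assoc, map_smul, hx, smul_mul_assoc, map_smul, smul_eq_mul,
      smul_eq_mul, mul_assoc]

/-- Second factor. -/
private theorem e4_mul₂ {K : Type*} [Field K] {ι₁ ι₂ G : Type} [Group G]
    (π₁ : G →* FreeGroup ι₁) (π₂ : G →* FreeGroup ι₂) (θ₁ : GA K ι₁ →ₗ[K] K)
    (θ₂ : GA K ι₂ →ₗ[K] K) (i₁ : FreeGroup ι₁ →* G) (i₂ : FreeGroup ι₂ →* G)
    (h21 : ∀ x, π₂ (i₁ x) = 1) (h12 : ∀ x, π₁ (i₂ x) = 1) (h22 : ∀ x, π₂ (i₂ x) = x)
    (u : FreeGroup ι₁) (a : GA K ι₂) (g : G) :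
    e4_Th π₁ π₂ θ₁ θ₂ (MonoidAlgebra.of K G (i₁ u) *
      (MonoidAlgebra.mapDomainAlgHom K K i₂ a * MonoidAlgebra.of K G g)) =
      θ₁ (MonoidAlgebra.of K _ (π₁ (i₁ u) * π₁ g)) * θ₂ (a * MonoidAlgebra.of K _ (π₂ g)) := by
  induction a using MonoidAlgebra.induction_on with
  | of x =>
    rw [e4_map_of, ← map_mul, ← map_mul, e4_Th_of, map_mul π₁, map_mul π₁, map_mul π₂,
      map_mul π₂, h12, h21, h22, one_mul, one_mul, map_mul (MonoidAlgebra.of K (FreeGroup ι₂))]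
  | add x y hx hy => rw [map_add, add_mul, mul_add, map_add, hx, hy, add_mul, map_add, mul_add]
  | smul r x hx =>
    rw [map_smul, smul_mul_assoc, mul_smul_comm, map_smul, hx, smul_mul_assoc, map_smul,
      smul_eq_mul, smul_eq_mul, mul_left_comm]

private theorem e4_lin {K : Type*} [Field K] {G : Type} [Group G]
    (Θ : MonoidAlgebra K G →ₗ[K] K) (a b : MonoidAlgebra K G)
    (h : ∀ g, Θ (b * (a * MonoidAlgebra.of K G g)) = 0) (s : MonoidAlgebra K G) :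
    Θ (b * (a * s)) = 0 := by
  induction s using MonoidAlgebra.induction_on with
  | of x => exact h x
  | add x y hx hy => rw [mul_add, mul_add, map_add, hx, hy, add_zero]
  | smul r x hx => rw [mul_smul_comm, mul_smul_comm, map_smul, hx, smul_zero]

/-- The abstract statement. -/
private theorem e4_core {K : Type*} [Field K] {ι₁ ι₂ G : Type} [Fintype ι₁] [Fintype ι₂] [Group G]
    (i₁ : FreeGroup ι₁ →* G) (i₂ : FreeGroup ι₂ →* G) (π₁ : G →* FreeGroup ι₁)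
    (π₂ : G →* FreeGroup ι₂) (h11 : ∀ x, π₁ (i₁ x) = x) (h12 : ∀ x, π₁ (i₂ x) = 1)
    (h21 : ∀ x, π₂ (i₁ x) = 1) (h22 : ∀ x, π₂ (i₂ x) = x) (d : G → MonoidAlgebra K G)
    (hd : IsDer d) (u : FreeGroup ι₁) (v : FreeGroup ι₂) (h : d (i₁ u * i₂ v) = 1) :
    (∃ d : FreeGroup ι₁ → GA K ι₁, IsDer d ∧ d u = 1) ∨
      ∃ d : FreeGroup ι₂ → GA K ι₂, IsDer d ∧ d v = 1 := by
  classical
  by_contra hcon
  rw [not_or] at hcon
  obtain ⟨hu, hv⟩ := hcon
  choose D₁ hD₁ hD₁x using fun j : ι₁ => exists_der (K := K) (MonoidHom.id (FreeGroup ι₁))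
    fun x => if x = j then 1 else 0
  choose D₂ hD₂ hD₂x using fun j : ι₂ => exists_der (K := K) (MonoidHom.id (FreeGroup ι₂))
    fun x => if x = j then 1 else 0
  obtain ⟨θ₁, hθ₁, hθ₁'⟩ := e4_theta D₁ hD₁ u hu
  obtain ⟨θ₂, hθ₂, hθ₂'⟩ := e4_theta D₂ hD₂ v hv
  have h1 : e4_Th π₁ π₂ θ₁ θ₂ (1 : MonoidAlgebra K G) = 1 := by
    have e := e4_Th_of π₁ π₂ θ₁ θ₂ (1 : G)
    rw [map_one π₁, map_one π₂, map_one (MonoidAlgebra.of K G),
      map_one (MonoidAlgebra.of K (FreeGroup ι₁)), map_one (MonoidAlgebra.of K (FreeGroup ι₂)),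
      hθ₁, hθ₂, mul_one] at e
    exact e
  rw [hd, e4_fox i₁ D₁ hD₁ hD₁x d hd u, e4_fox i₂ D₂ hD₂ hD₂x d hd v] at h
  have h2 := congrArg (e4_Th π₁ π₂ θ₁ θ₂) h
  rw [h1, map_add, map_sum, Finset.mul_sum, map_sum, Finset.sum_eq_zero, Finset.sum_eq_zero,
    add_zero] at h2
  · exact one_ne_zero h2.symm
  · intro j _
    refine e4_lin _ _ _ (fun g => ?_) _
    rw [e4_mul₂ π₁ π₂ θ₁ θ₂ i₁ i₂ h21 h12 h22, hθ₂', mul_zero]
  · intro j _
    have h3 := e4_lin (e4_Th π₁ π₂ θ₁ θ₂) (MonoidAlgebra.mapDomainAlgHom K K i₁ (D₁ j u)) 1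
      (fun g => by rw [one_mul, e4_mul₁ π₁ π₂ θ₁ θ₂ i₁ h11 h21, hθ₁', zero_mul])
      (d (i₁ (FreeGroup.of j)))
    rwa [one_mul] at h3

theorem not_isPrimitiveElt_sup {α β : Type} (H₁ : Subgroup (FreeGroup α))
    (H₂ : Subgroup (FreeGroup β)) {m₁ m₂ : ℕ} (b₁ : FreeGroupBasis (Fin m₁) H₁)
    (b₂ : FreeGroupBasis (Fin m₂) H₂) {u : FreeGroup α} {v : FreeGroup β} (hu : u ∈ H₁)
    (hv : v ∈ H₂) (hu' : ¬ IsPrimitiveElt (⟨u, hu⟩ : H₁)) (hv' : ¬ IsPrimitiveElt (⟨v, hv⟩ : H₂))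
    (hw : (FreeGroup.map Sum.inl u * FreeGroup.map Sum.inr v : FreeGroup (α ⊕ β)) ∈
      H₁.map (FreeGroup.map Sum.inl) ⊔ H₂.map (FreeGroup.map Sum.inr)) :
    ¬ IsPrimitiveElt (⟨_, hw⟩ :
      (H₁.map (FreeGroup.map Sum.inl) ⊔ H₂.map (FreeGroup.map Sum.inr) :
        Subgroup (FreeGroup (α ⊕ β)))) := by
  intro hp
  obtain ⟨d, hd, hd1⟩ := exists_der_of_isPrimitiveElt ℚ hp
  have hL : ∀ x : FreeGroup α, x ∈ H₁ → FreeGroup.map Sum.inl x ∈
      (H₁.map (FreeGroup.map Sum.inl) ⊔ H₂.map (FreeGroup.map Sum.inr) :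
        Subgroup (FreeGroup (α ⊕ β))) := fun x hx =>
    Subgroup.mem_sup_left (Subgroup.mem_map_of_mem _ hx)
  have hR : ∀ x : FreeGroup β, x ∈ H₂ → FreeGroup.map Sum.inr x ∈
      (H₁.map (FreeGroup.map Sum.inl) ⊔ H₂.map (FreeGroup.map Sum.inr) :
        Subgroup (FreeGroup (α ⊕ β))) := fun x hx =>
    Subgroup.mem_sup_right (Subgroup.mem_map_of_mem _ hx)
  let p₁ : FreeGroup (α ⊕ β) →* FreeGroup α :=
    FreeGroup.lift (Sum.elim FreeGroup.of fun _ => 1)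
  let p₂ : FreeGroup (α ⊕ β) →* FreeGroup β :=
    FreeGroup.lift (Sum.elim (fun _ => 1) FreeGroup.of)
  have hp11 : ∀ x, p₁ (FreeGroup.map Sum.inl x) = x := by
    intro x
    have e : p₁.comp (FreeGroup.map Sum.inl) = MonoidHom.id _ := by
      ext a
      simp [p₁]
    exact DFunLike.congr_fun e x
  have hp12 : ∀ x, p₁ (FreeGroup.map Sum.inr x) = 1 := by
    intro x
    have e : p₁.comp (FreeGroup.map Sum.inr) = 1 := by
      ext a
      simp [p₁]
    exact DFunLike.congr_fun e x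
  have hp21 : ∀ x, p₂ (FreeGroup.map Sum.inl x) = 1 := by
    intro x
    have e : p₂.comp (FreeGroup.map Sum.inl) = 1 := by
      ext a
      simp [p₂]
    exact DFunLike.congr_fun e x
  have hp22 : ∀ x, p₂ (FreeGroup.map Sum.inr x) = x := by
    intro x
    have e : p₂.comp (FreeGroup.map Sum.inr) = MonoidHom.id _ := by
      ext a
      simp [p₂]
    exact DFunLike.congr_fun e x
  have hq₁ : ∀ x ∈ (H₁.map (FreeGroup.map Sum.inl) ⊔ H₂.map (FreeGroup.map Sum.inr) :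
        Subgroup (FreeGroup (α ⊕ β))), p₁ x ∈ H₁ := by
    intro x hx
    have e : (H₁.map (FreeGroup.map Sum.inl) ⊔ H₂.map (FreeGroup.map Sum.inr) :
        Subgroup (FreeGroup (α ⊕ β))) ≤ H₁.comap p₁ := by
      refine sup_le ?_ ?_
      · rintro _ ⟨y, hy, rfl⟩
        show p₁ _ ∈ H₁
        rw [hp11]
        exact hy
      · rintro _ ⟨y, hy, rfl⟩
        show p₁ _ ∈ H₁
        rw [hp12]
        exact one_mem _
    exact e hx
  have hq₂ : ∀ x ∈ (H₁.map (FreeGroup.map Sum.inl) ⊔ H₂.map (FreeGroup.map Sum.inr) :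
        Subgroup (FreeGroup (α ⊕ β))), p₂ x ∈ H₂ := by
    intro x hx
    have e : (H₁.map (FreeGroup.map Sum.inl) ⊔ H₂.map (FreeGroup.map Sum.inr) :
        Subgroup (FreeGroup (α ⊕ β))) ≤ H₂.comap p₂ := by
      refine sup_le ?_ ?_
      · rintro _ ⟨y, hy, rfl⟩
        show p₂ _ ∈ H₂
        rw [hp21]
        exact one_mem _
      · rintro _ ⟨y, hy, rfl⟩
        show p₂ _ ∈ H₂
        rw [hp22]
        exact hy
    exact e hx
  let j₁ : H₁ →* (H₁.map (FreeGroup.map Sum.inl) ⊔ H₂.map (FreeGroup.map Sum.inr) :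
        Subgroup (FreeGroup (α ⊕ β))) :=
    ((FreeGroup.map Sum.inl).comp H₁.subtype).codRestrict _ fun x => hL _ x.2
  let j₂ : H₂ →* (H₁.map (FreeGroup.map Sum.inl) ⊔ H₂.map (FreeGroup.map Sum.inr) :
        Subgroup (FreeGroup (α ⊕ β))) :=
    ((FreeGroup.map Sum.inr).comp H₂.subtype).codRestrict _ fun x => hR _ x.2
  let q₁ : (H₁.map (FreeGroup.map Sum.inl) ⊔ H₂.map (FreeGroup.map Sum.inr) :
        Subgroup (FreeGroup (α ⊕ β))) →* H₁ :=
    (p₁.comp (Subgroup.subtype _)).codRestrict _ fun x => hq₁ _ x.2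
  let q₂ : (H₁.map (FreeGroup.map Sum.inl) ⊔ H₂.map (FreeGroup.map Sum.inr) :
        Subgroup (FreeGroup (α ⊕ β))) →* H₂ :=
    (p₂.comp (Subgroup.subtype _)).codRestrict _ fun x => hq₂ _ x.2
  have e11 : ∀ x, q₁ (j₁ x) = x := fun x => Subtype.ext (hp11 _)
  have e12 : ∀ x, q₁ (j₂ x) = 1 := fun x => Subtype.ext (hp12 _)
  have e21 : ∀ x, q₂ (j₁ x) = 1 := fun x => Subtype.ext (hp21 _)
  have e22 : ∀ x, q₂ (j₂ x) = x := fun x => Subtype.ext (hp22 _)
  have hfin := e4_core (j₁.comp b₁.repr.symm.toMonoidHom) (j₂.comp b₂.repr.symm.toMonoidHom)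
    (b₁.repr.toMonoidHom.comp q₁) (b₂.repr.toMonoidHom.comp q₂)
    (fun x => by
      show b₁.repr (q₁ (j₁ (b₁.repr.symm x))) = x
      rw [e11, MulEquiv.apply_symm_apply])
    (fun x => by
      show b₁.repr (q₁ (j₂ (b₂.repr.symm x))) = 1
      rw [e12, map_one])
    (fun x => by
      show b₂.repr (q₂ (j₁ (b₁.repr.symm x))) = 1
      rw [e21, map_one])
    (fun x => by
      show b₂.repr (q₂ (j₂ (b₂.repr.symm x))) = x
      rw [e22, MulEquiv.apply_symm_apply])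
    d hd (b₁.repr ⟨u, hu⟩) (b₂.repr ⟨v, hv⟩) (by
      show d (j₁ (b₁.repr.symm (b₁.repr ⟨u, hu⟩)) * j₂ (b₂.repr.symm (b₂.repr ⟨v, hv⟩))) = 1
      rw [MulEquiv.symm_apply_apply, MulEquiv.symm_apply_apply]
      exact hd1)
  rcases hfin with ⟨d', hd', hd1'⟩ | ⟨d', hd', hd1'⟩
  · have h2 := isPrimitiveElt_mulEquiv b₁.repr.symm (isPrimitiveElt_of_der _ d' hd' hd1')
    rw [MulEquiv.symm_apply_apply] at h2
    exact hu' h2
  · have h2 := isPrimitiveElt_mulEquiv b₂.repr.symm (isPrimitiveElt_of_der _ d' hd' hd1')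
    rw [MulEquiv.symm_apply_apply] at h2
    exact hv' h2

private theorem e4_closure {α γ : Type} (f : FreeGroup α →* FreeGroup γ)
    (H : Subgroup (FreeGroup α)) {m : ℕ} (b : FreeGroupBasis (Fin m) H) :
    H.map f = Subgroup.closure (Set.range fun i => f (b i : FreeGroup α)) := by
  have h1 : ∀ x : H, x ∈ Subgroup.closure (Set.range b) := by
    intro x
    have h2 : ∀ y : FreeGroup (Fin m), b.repr.symm y ∈ Subgroup.closure (Set.range b) := by
      intro y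
      induction y using FreeGroup.induction_on with
      | C1 => rw [map_one]; exact one_mem _
      | of i => exact Subgroup.subset_closure ⟨i, rfl⟩
      | inv_of i hi => rw [map_inv]; exact inv_mem hi
      | mul g h hg hh => rw [map_mul]; exact mul_mem hg hh
    have h3 := h2 (b.repr x)
    rwa [MulEquiv.symm_apply_apply] at h3
  have h4 : H = (Subgroup.closure (Set.range b)).map H.subtype := by
    ext x
    constructor
    · intro hx
      exact ⟨⟨x, hx⟩, h1 _, rfl⟩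
    · rintro ⟨y, -, rfl⟩
      exact y.2
  conv_lhs => rw [h4]
  rw [Subgroup.map_map, MonoidHom.map_closure, ← Set.range_comp]
  rfl

theorem primRank_mul_le {α β : Type} (u : FreeGroup α) (v : FreeGroup β) :
    primRank (FreeGroup.map Sum.inl u * FreeGroup.map Sum.inr v : FreeGroup (α ⊕ β)) ≤
      primRank u + primRank v := by
  by_cases hut : primRank u = ⊤
  · rw [hut, top_add]
    exact le_top
  by_cases hvt : primRank v = ⊤
  · rw [hvt, add_top]
    exact le_top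
  have hmem : ∀ {γ : Type} (w : FreeGroup γ), primRank w ≠ ⊤ → ∃ (H : Subgroup (FreeGroup γ))
      (hw : w ∈ H) (m : ℕ), primRank w = m ∧ Nonempty (FreeGroupBasis (Fin m) H) ∧
        ¬ IsPrimitiveElt (⟨w, hw⟩ : H) := by
    intro γ w hw
    unfold primRank at hw ⊢
    have h1 : {n : ℕ∞ | ∃ (H : Subgroup (FreeGroup γ)) (hw : w ∈ H) (m : ℕ),
        n = m ∧ Nonempty (FreeGroupBasis (Fin m) H) ∧
          ¬ IsPrimitiveElt (⟨w, hw⟩ : H)}.Nonempty := by
      by_contra hcon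
      rw [Set.not_nonempty_iff_eq_empty] at hcon
      rw [hcon, sInf_empty] at hw
      exact hw rfl
    exact csInf_mem h1
  obtain ⟨H₁, hu, m₁, hm₁, ⟨b₁⟩, hu'⟩ := hmem u hut
  obtain ⟨H₂, hv, m₂, hm₂, ⟨b₂⟩, hv'⟩ := hmem v hvt
  have hw : (FreeGroup.map Sum.inl u * FreeGroup.map Sum.inr v : FreeGroup (α ⊕ β)) ∈
      H₁.map (FreeGroup.map Sum.inl) ⊔ H₂.map (FreeGroup.map Sum.inr) :=
    mul_mem (Subgroup.mem_sup_left (Subgroup.mem_map_of_mem _ hu))
      (Subgroup.mem_sup_right (Subgroup.mem_map_of_mem _ hv))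
  have hn := not_isPrimitiveElt_sup H₁ H₂ b₁ b₂ hu hv hu' hv' hw
  let S : Fin (m₁ + m₂) → FreeGroup (α ⊕ β) :=
    Fin.append (fun i => FreeGroup.map Sum.inl (b₁ i : FreeGroup α))
      fun i => FreeGroup.map Sum.inr (b₂ i : FreeGroup β)
  have hS : (H₁.map (FreeGroup.map Sum.inl) ⊔ H₂.map (FreeGroup.map Sum.inr) :
      Subgroup (FreeGroup (α ⊕ β))) = Subgroup.closure (Set.range S) := by
    rw [e4_closure _ H₁ b₁, e4_closure _ H₂ b₂, ← Subgroup.closure_union]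
    congr 1
    ext x
    constructor
    · rintro (⟨i, rfl⟩ | ⟨i, rfl⟩)
      · exact ⟨Fin.castAdd m₂ i, Fin.append_left _ _ i⟩
      · exact ⟨Fin.natAdd m₁ i, Fin.append_right _ _ i⟩
    · rintro ⟨i, rfl⟩
      refine Fin.addCases (fun i => ?_) (fun i => ?_) i
      · refine Or.inl ⟨i, ?_⟩
        show _ = Fin.append _ _ (Fin.castAdd m₂ i)
        rw [Fin.append_left]
      · refine Or.inr ⟨i, ?_⟩
        show _ = Fin.append _ _ (Fin.natAdd m₁ i)
        rw [Fin.append_right]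
  obtain ⟨k, hk, hb⟩ := exists_basis_closure S
  rw [← hS] at hb
  have h2 : primRank (FreeGroup.map Sum.inl u * FreeGroup.map Sum.inr v : FreeGroup (α ⊕ β)) ≤
      k := sInf_le ⟨_, hw, k, rfl, hb, hn⟩
  refine h2.trans ?_
  rw [hm₁, hm₂]
  exact_mod_cast hk

end PrimRank
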