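import Pool.Agent.Lib.MP_b8b21d_al.DefsL

/-!
PROOFS. primRank_one: `H = ⊥` has the basis on `Fin 0`, and `1` is never primitive
(`b i ≠ 1` for a basis: `b.repr (b i) = of i ≠ 1`).
primRank_zpow_le: `z ≠ 1`, `H = zpowers z` has a basis on `Fin 1` (`z` has infinite order;
`FreeGroup (Fin 1) ≃* zpowers z`), `z ^ k ∈ H`, and `z ^ k` is not primitive in `H`: if `b i = z ^ k` for a
basis `b : FreeGroupBasis ι H`, the homomorphism `H → ℤ` that sends `b i` to `1` and the other basis
elements to `0` gives `k n = 1`, `k.natAbs = 1`.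
primRank_le_of_not_isPrimitiveElt: `H = ⊤`, `FreeGroup (Fin r) ≃* ⊤` (`Subgroup.topEquiv`).
primRank_mulEquiv: `H ↦ H.map e`, `e` restricts to an isomorphism `H ≃* H.map e`
(`MulEquiv.subgroupMap`); the two sets are equal (prove `≤` for all `e` and use `e.symm`).
-/

namespace PrimRank

private theorem e5_map {G G' : Type} [Group G] [Group G'] (f : G ≃* G') {g : G}
    (h : IsPrimitiveElt g) : IsPrimitiveElt (f g) := by
  obtain ⟨ι, b, i, hi⟩ := h
  refine ⟨ι, b.map f, i, ?_⟩
  rw [FreeGroupBasis.map_apply, hi]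

private theorem e5_ne_one {G : Type} [Group G] : ¬ IsPrimitiveElt (1 : G) := by
  rintro ⟨ι, b, i, hi⟩
  have h1 : b.repr (b i) = FreeGroup.of i := b.repr_apply_coe i
  rw [hi, map_one] at h1
  exact FreeGroup.of_ne_one i h1.symm

theorem primRank_one {α : Type} : primRank (1 : FreeGroup α) = 0 := by
  refine le_antisymm ?_ bot_le
  refine sInf_le ⟨⊥, Subgroup.one_mem _, 0, rfl, ?_, ?_⟩
  · exact ⟨FreeGroupBasis.ofRepr (MulEquiv.ofUnique : (⊥ : Subgroup (FreeGroup α)) ≃*
      FreeGroup (Fin 0))⟩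
  · exact e5_ne_one

theorem primRank_zpow_le {α : Type} (z : FreeGroup α) (k : ℤ) (h1 : z ^ k ≠ 1)
    (hk : k.natAbs ≠ 1) : primRank (z ^ k) ≤ 1 := by
  classical
  have hz : z ≠ 1 := by
    rintro rfl
    exact h1 (one_zpow k)
  have hinj : Function.Injective (zpowersHom (FreeGroup α) z) := by
    intro a b hab
    rw [zpowersHom_apply, zpowersHom_apply] at hab
    have h2 : Function.Injective fun n : ℤ => z ^ n := by
      rw [injective_zpow_iff_not_isOfFinOrder]
      exact not_isOfFinOrder_of_isMulTorsionFree hz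
    exact Multiplicative.toAdd.injective (h2 hab)
  refine sInf_le ⟨(zpowersHom (FreeGroup α) z).range,
    ⟨Multiplicative.ofAdd k, by simp [zpowersHom_apply]⟩, 1, by norm_num, ?_, ?_⟩
  · exact ⟨FreeGroupBasis.ofRepr ((MonoidHom.ofInjective hinj).symm.trans
      FreeGroup.mulEquivIntOfUnique.symm)⟩
  · rintro ⟨ι, b, i, hi⟩
    have hzm : z ∈ (zpowersHom (FreeGroup α) z).range :=
      ⟨Multiplicative.ofAdd 1, by simp [zpowersHom_apply]⟩
    let χ : (zpowersHom (FreeGroup α) z).range →* Multiplicative ℤ :=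
      b.lift (fun j => if j = i then Multiplicative.ofAdd 1 else 1)
    have e1 : χ (b i) = Multiplicative.ofAdd 1 := by
      show b.lift _ (b i) = _
      rw [FreeGroupBasis.lift_apply_apply]
      simp
    have e2 : b i = (⟨z, hzm⟩ : (zpowersHom (FreeGroup α) z).range) ^ k := by
      rw [hi]
      rfl
    rw [e2, map_zpow] at e1
    have e3 : k * Multiplicative.toAdd (χ ⟨z, hzm⟩) = 1 := by
      have := congrArg Multiplicative.toAdd e1
      rw [toAdd_zpow, toAdd_ofAdd, smul_eq_mul] at this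
      exact this
    have e4 := Int.eq_one_or_neg_one_of_mul_eq_one e3
    omega

theorem primRank_le_of_not_isPrimitiveElt {r : ℕ} (u : FreeGroup (Fin r))
    (h : ¬ IsPrimitiveElt u) : primRank u ≤ r := by
  refine sInf_le ⟨⊤, Subgroup.mem_top _, r, rfl, ⟨FreeGroupBasis.ofRepr Subgroup.topEquiv⟩, ?_⟩
  intro h2
  exact h (e5_map (Subgroup.topEquiv (G := FreeGroup (Fin r))) h2)

private theorem e5_le {α β : Type} (e : FreeGroup α ≃* FreeGroup β) (w : FreeGroup α) :
    primRank (e w) ≤ primRank w := by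
  refine sInf_le_sInf ?_
  rintro n ⟨H, hw, m, hn, ⟨b⟩, hp⟩
  refine ⟨H.map (e : FreeGroup α →* FreeGroup β), ⟨w, hw, rfl⟩, m, hn, ⟨b.map (e.subgroupMap H)⟩,
    fun h2 => hp ?_⟩
  have h3 := e5_map (e.subgroupMap H).symm h2
  have h4 : (e.subgroupMap H).symm ⟨e w, ⟨w, hw, rfl⟩⟩ = ⟨w, hw⟩ := by
    rw [MulEquiv.symm_apply_eq]
    rfl
  rwa [h4] at h3

theorem primRank_mulEquiv {α β : Type} (e : FreeGroup α ≃* FreeGroup β) (w : FreeGroup α) :
    primRank (e w) = primRank w := by
  refine le_antisymm (e5_le e w) ?_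
  have h := e5_le e.symm (e w)
  rwa [MulEquiv.symm_apply_apply] at h

end PrimRank
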