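import Pool.Agent.Lib.MP_b8b21d_al.C3
import Pool.Agent.Lib.MP_b8b21d_al.C5
import Pool.Agent.Lib.MP_b8b21d_al.E1
import Pool.Agent.Lib.MP_b8b21d_al.E2
import Pool.Agent.Lib.MP_b8b21d_al.E4
import Pool.Agent.Lib.MP_b8b21d_al.E5

/-!
Final assembly for MP_b8b21d_al.
-/

namespace PrimRank

section blocks

variable {s : ℕ} {r : Fin (s + 1) → ℕ}

/-- Splitting off the first block of letters. -/
def F1_fwd (r : Fin (s + 1) → ℕ) :
    Fin (r 0) ⊕ (Σ i : Fin s, Fin (r i.succ)) → Σ i : Fin (s + 1), Fin (r i) :=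
  Sum.elim (fun a => ⟨0, a⟩) fun p => ⟨p.1.succ, p.2⟩

theorem F1_fwd_bijective (r : Fin (s + 1) → ℕ) : Function.Bijective (F1_fwd r) := by
  constructor
  · rintro (a | ⟨i, a⟩) (b | ⟨j, b⟩) h
    · simp only [F1_fwd, Sum.elim_inl, Sigma.mk.injEq, heq_eq_eq, true_and] at h
      rw [h]
    · simp only [F1_fwd, Sum.elim_inl, Sum.elim_inr, Sigma.mk.injEq] at h
      exact absurd h.1.symm (Fin.succ_ne_zero j)
    · simp only [F1_fwd, Sum.elim_inl, Sum.elim_inr, Sigma.mk.injEq] at h
      exact absurd h.1 (Fin.succ_ne_zero i)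
    · simp only [F1_fwd, Sum.elim_inr, Sigma.mk.injEq, Fin.succ_inj] at h
      obtain ⟨h1, h2⟩ := h
      subst h1
      simp only [heq_eq_eq] at h2
      rw [h2]
  · rintro ⟨i, a⟩
    induction i using Fin.cases with
    | zero => exact ⟨Sum.inl a, rfl⟩
    | succ i => exact ⟨Sum.inr ⟨i, a⟩, rfl⟩

/-- The isomorphism of free groups. -/
noncomputable def F1_iso (r : Fin (s + 1) → ℕ) :
    FreeGroup (Fin (r 0) ⊕ (Σ i : Fin s, Fin (r i.succ))) ≃* FreeGroup (Σ i : Fin (s + 1), Fin (r i)) :=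
  FreeGroup.freeGroupCongr (Equiv.ofBijective _ (F1_fwd_bijective r))

theorem F1_iso_apply (u : ∀ i, FreeGroup (Fin (r i))) :
    F1_iso r (FreeGroup.map Sum.inl (u 0) * FreeGroup.map Sum.inr (blockProd fun i => u i.succ)) =
      blockProd u := by
  have h1 : ∀ x, F1_iso r x = FreeGroup.map (F1_fwd r) x := fun x => rfl
  rw [map_mul, h1, h1]
  unfold blockProd
  rw [List.ofFn_succ, List.prod_cons]
  congr 1
  · rw [← MonoidHom.comp_apply]
    rw [show (FreeGroup.map (F1_fwd r)).comp (FreeGroup.map Sum.inl) =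
      FreeGroup.map (fun a : Fin (r 0) => (⟨0, a⟩ : Σ i : Fin (s + 1), Fin (r i))) from by
        ext; simp [F1_fwd]]
  · rw [map_list_prod, map_list_prod, List.map_ofFn, List.map_ofFn]
    congr 2
    funext i
    simp only [Function.comp_apply]
    rw [← MonoidHom.comp_apply, ← MonoidHom.comp_apply]
    congr 1
    ext
    simp [F1_fwd]

end blocks

theorem F1_LB_blockProd (K : Type*) [Field K] : ∀ (s : ℕ) (r : Fin s → ℕ)
    (u : ∀ i, FreeGroup (Fin (r i))) (n : Fin s → ℕ), (∀ i, LB K (u i) (n i)) →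
    LB K (blockProd u) (∑ i, n i)
  | 0, r, u, n, _ => by
      intro c hc I hI m hm
      simp at hm
  | s + 1, r, u, n, h => by
      rw [← F1_iso_apply u, Fin.sum_univ_succ]
      exact LB_mulEquiv _ (LB_mul (h 0) (F1_LB_blockProd K s _ _ _ fun i => h i.succ))

theorem F1_primRank_blockProd_le : ∀ (s : ℕ) (r : Fin s → ℕ)
    (u : ∀ i, FreeGroup (Fin (r i))), primRank (blockProd u) ≤ ∑ i, primRank (u i)
  | 0, r, u => by
      have : blockProd u = 1 := by simp [blockProd]
      rw [this, primRank_one]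
      exact zero_le
  | s + 1, r, u => by
      rw [← F1_iso_apply u, Fin.sum_univ_succ, primRank_mulEquiv]
      exact (primRank_mul_le _ _).trans
        (add_le_add le_rfl (F1_primRank_blockProd_le s _ fun i => u i.succ))

theorem F1_le_of_LB (K : Type*) [Field K] {α : Type} {w : FreeGroup α} {n : ℕ} (h : LB K w n) :
    (n : ℕ∞) ≤ kPrimRankL K w := by
  unfold kPrimRankL
  refine le_sInf ?_
  rintro _ ⟨I, hw, m, rfl, hI, hb, hφ⟩
  by_contra hlt
  rw [not_le, Nat.cast_lt] at hlt
  apply hφ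
  have hw' : MonoidAlgebra.of K (FreeGroup α) w - (1 : K) • (1 : GA K α) ∈ I := by
    rwa [one_smul]
  obtain ⟨φ, h1⟩ := h 1 one_ne_zero I hI m hlt hb hw'
  refine ⟨φ, ?_⟩
  refine Eq.trans ?_ h1
  congr 1
  ext1
  simp

theorem F1_kPrimRank_le (K : Type*) [Field K] {α : Type} (w : FreeGroup α) :
    kPrimRank K w ≤ primRank w := by
  rw [kPrimRank_eq]
  exact kPrimRankL_le_primRank K w

theorem F1_eq_top_of_LB (K : Type*) [Field K] {α : Type} {w : FreeGroup α}
    (h : ∀ n, LB K w n) : kPrimRankL K w = ⊤ := by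
  rw [ENat.eq_top_iff_forall_ge]
  exact fun n => F1_le_of_LB K (h n)

/-- The two possibilities for a factor. -/
theorem F1_cases (K : Type*) [Field K] {r : ℕ} (u : FreeGroup (Fin r))
    (h : r ≤ 2 ∨ primRank u ≤ 2 ∨ primRank u = ⊤) :
    (primRank u = ⊤ ∧ ∀ n, LB K u n) ∨ ∃ k : ℕ, primRank u = k ∧ LB K u k := by
  by_cases hp : IsPrimitiveElt u
  · left
    have h1 : ∀ n, LB K u n := fun n => LB_of_isPrimitiveElt hp n
    refine ⟨?_, h1⟩
    have h2 := F1_eq_top_of_LB K h1
    exact top_le_iff.1 (h2 ▸ kPrimRankL_le_primRank K u)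
  · right
    have h0 := primRank_le_of_not_isPrimitiveElt u hp
    have h2 : primRank u ≤ 2 := by
      rcases h with h | h | h
      · exact h0.trans (by exact_mod_cast h)
      · exact h
      · rw [h] at h0
        exact absurd (top_le_iff.1 h0) (ENat.coe_ne_top r)
    obtain ⟨k, hk⟩ := ENat.ne_top_iff_exists.1 (ne_top_of_le_ne_top (by simp) h2 :
      primRank u ≠ ⊤)
    refine ⟨k, hk.symm, ?_⟩
    have hk2 : k ≤ 2 := by
      rw [← hk] at h2
      exact_mod_cast h2
    have hne : k ≠ 0 → u ≠ 1 := by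
      rintro hk0 rfl
      rw [primRank_one] at hk
      exact hk0 (by exact_mod_cast hk)
    interval_cases k
    · intro c hc I hI m hm
      exact absurd hm (Nat.not_lt_zero m)
    · exact LB_one_of_ne (hne one_ne_zero)
    · refine LB_two (hne two_ne_zero) fun z j hz => ?_
      by_contra hj
      have h3 := primRank_zpow_le z j (hz ▸ hne two_ne_zero) hj
      rw [hz, ← hk] at h3
      norm_num at h3

theorem F1_main (K : Type*) [Field K] (s : ℕ) (r : Fin s → ℕ) (u : ∀ i, FreeGroup (Fin (r i)))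
    (n : ℕ) (e : FreeGroup (Σ i : Fin s, Fin (r i)) ≃* FreeGroup (Fin n))
    (h : ∀ i, r i ≤ 2 ∨ primRank (u i) ≤ 2 ∨ primRank (u i) = ⊤) :
    kPrimRank K (e (blockProd u)) = primRank (e (blockProd u)) ∧
    primRank (e (blockProd u)) = ∑ i, primRank (u i) := by
  have hc := fun i => F1_cases K (u i) (h i)
  have hle1 : kPrimRankL K (e (blockProd u)) ≤ primRank (e (blockProd u)) :=
    kPrimRankL_le_primRank K _
  have hle2 : primRank (e (blockProd u)) ≤ ∑ i, primRank (u i) := by
    rw [primRank_mulEquiv]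
    exact F1_primRank_blockProd_le s r u
  suffices hge : ∑ i, primRank (u i) ≤ kPrimRankL K (e (blockProd u)) by
    rw [kPrimRank_eq]
    exact ⟨le_antisymm hle1 (hle2.trans hge), le_antisymm hle2 (hge.trans hle1)⟩
  by_cases htop : ∃ i, primRank (u i) = ⊤ ∧ ∀ n, LB K (u i) n
  · obtain ⟨i, -, hi⟩ := htop
    refine le_of_le_of_eq le_top (F1_eq_top_of_LB K fun N => ?_).symm
    have h1 := F1_LB_blockProd K s r u (fun j => if j = i then N else 0) (fun j => by
      by_cases hj : j = i
      · subst hj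
        simpa using hi N
      · simp only [hj, if_false]
        intro c hc I hI m hm
        exact absurd hm (Nat.not_lt_zero m))
    have h2 : (∑ j, if j = i then N else 0) = N := by simp
    rw [h2] at h1
    exact LB_mulEquiv e h1
  · push_neg at htop
    have hk : ∀ i, ∃ k : ℕ, primRank (u i) = k ∧ LB K (u i) k := by
      intro i
      rcases hc i with hi | hi
      · obtain ⟨m, hm⟩ := htop i hi.1
        exact absurd (hi.2 m) hm
      · exact hi
    choose k hk1 hk2 using hk
    have h1 := LB_mulEquiv e (F1_LB_blockProd K s r u k hk2)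
    have h2 := F1_le_of_LB K h1
    rw [Finset.sum_congr rfl fun i _ => hk1 i]
    exact_mod_cast h2

end PrimRank
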